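import Mathlib
import Pool.Agent.W245.PB.PE
import Pool.Agent.H301R2.TR.GenEntry

set_option autoImplicit false

/-! Truncation of the `p`-adic exponential function and of its products with monomials. -/

namespace Pool.Agent.L0h53.PQ

open Finset Pool.Agent.W245.PB Pool.Agent.H301R2.TR

variable {p : ℕ} [hp : Fact p.Prime]

theorem hasSum_pe {y : ℚ_[p]} (hy : ‖y‖ * (p : ℝ) ^ 3 ≤ 1) :
    HasSum (fun n : ℕ => y ^ n / (n.factorial : ℚ_[p])) (pe y) := by
  have hs := (bd_ex p hy).summable (by norm_num) (w := 1) (by simp)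
  have h1 := hs.hasSum
  unfold pe ev
  refine h1.congr_fun ?_ |> fun h => h
  intro n
  rw [coeff_ex, one_pow, mul_one]

/-- the vanishing of derivatives: Vandermonde's identity -/
theorem vander (t k N : ℕ) :
    ∑ j ∈ range (t + 1), t.choose j * k.descFactorial j * N.descFactorial (k - j) =
      (N + t).descFactorial k := by
  have h1 : (N + t).descFactorial k = k.factorial * ∑ ij ∈ antidiagonal k,
      t.choose ij.1 * N.choose ij.2 := by
    rw [Nat.descFactorial_eq_factorial_mul_choose, add_comm N t, Nat.add_choose_eq]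
  rw [h1, Finset.Nat.sum_antidiagonal_eq_sum_range_succ_mk, Finset.mul_sum]
  have h2 : ∀ j, j ≤ k → t.choose j * k.descFactorial j * N.descFactorial (k - j) =
      k.factorial * (t.choose j * N.choose (k - j)) := by
    intro j hj
    rw [Nat.descFactorial_eq_factorial_mul_choose N (k - j)]
    have h3 := Nat.factorial_mul_descFactorial hj
    calc t.choose j * k.descFactorial j * ((k - j).factorial * N.choose (k - j)) =
        t.choose j * ((k - j).factorial * k.descFactorial j) * N.choose (k - j) := by ring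
      _ = _ := by rw [h3]; ring
  have h3 : ∀ j, k < j → k.descFactorial j = 0 := fun j hj =>
    Nat.descFactorial_eq_zero_iff_lt.mpr hj
  have h4 : ∀ j, t < j → t.choose j = 0 := fun j hj => Nat.choose_eq_zero_of_lt hj
  rcases le_total t k with htk | htk
  · rw [← Finset.sum_subset (Finset.range_subset_range.mpr (Nat.succ_le_succ htk))]
    · refine Finset.sum_congr rfl fun j hj => ?_
      rw [Finset.mem_range] at hj
      exact h2 j (by omega)
    · intro j _ hj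
      rw [Finset.mem_range] at hj
      simp only [h4 j (by omega), zero_mul, mul_zero]
  · symm
    rw [← Finset.sum_subset (Finset.range_subset_range.mpr (Nat.succ_le_succ htk))]
    · refine Finset.sum_congr rfl fun j hj => ?_
      rw [Finset.mem_range] at hj
      exact (h2 j (by omega)).symm
    · intro j _ hj
      rw [Finset.mem_range] at hj
      rw [h3 j (by omega), mul_zero, zero_mul]

/-- the general term -/
noncomputable def tm (b κ : ℚ_[p]) (k t N : ℕ) : ℚ_[p] :=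
  b ^ N / (N.factorial : ℚ_[p]) * (((N + t).descFactorial k : ℕ) * κ ^ (N + t - k))

theorem hasSum_mon {b κ : ℚ_[p]} (hb : ‖b‖ * (p : ℝ) ^ 3 ≤ 1) (hκ : ‖κ‖ ≤ 1) (m : ℕ) :
    HasSum (fun N : ℕ => b ^ N / (N.factorial : ℚ_[p]) * ((N.descFactorial m : ℕ) * κ ^ (N - m)))
      (b ^ m * pe (κ * b)) := by
  have h1 := (hasSum_pe (norm_mul_small p hκ hb)).mul_left (b ^ m)
  have h2 := (hasSum_nat_add_iff (f := fun N : ℕ => b ^ N / (N.factorial : ℚ_[p]) *
    ((N.descFactorial m : ℕ) * κ ^ (N - m))) m (g := b ^ m * pe (κ * b))).mp (by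
      refine h1.congr_fun ?_ |> fun h => h
      intro n
      have h3 : (n.factorial * (n + m).descFactorial m : ℕ) = (n + m).factorial := by
        have := Nat.factorial_mul_descFactorial (Nat.le_add_left m n)
        rwa [Nat.add_sub_cancel] at this
      have h4 : ((n + m).factorial : ℚ_[p]) = (n.factorial : ℚ_[p]) * ((n + m).descFactorial m : ℕ) := by
        rw [← h3]; push_cast; ring
      have h5 : (n.factorial : ℚ_[p]) ≠ 0 := by exact_mod_cast n.factorial_ne_zero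
      have h6 : (((n + m).descFactorial m : ℕ) : ℚ_[p]) ≠ 0 := by
        have : (n + m).descFactorial m ≠ 0 := by
          intro h
          rw [Nat.descFactorial_eq_zero_iff_lt] at h
          omega
        exact_mod_cast this
      rw [h4, Nat.add_sub_cancel]
      field_simp
      ring)
  have h7 : ∑ i ∈ range m, b ^ i / (i.factorial : ℚ_[p]) *
      ((i.descFactorial m : ℕ) * κ ^ (i - m)) = 0 := by
    apply Finset.sum_eq_zero
    intro i hi
    rw [Finset.mem_range] at hi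
    rw [Nat.descFactorial_eq_zero_iff_lt.mpr hi]
    simp
  rw [h7, add_zero] at h2
  exact h2

theorem hasSum_lam {b κ : ℚ_[p]} (hb : ‖b‖ * (p : ℝ) ^ 3 ≤ 1) (hκ : ‖κ‖ ≤ 1) (k t : ℕ) :
    HasSum (fun N : ℕ => tm b κ k t N) (LamF κ k t b * pe (κ * b)) := by
  have h1 : ∀ j ∈ range (t + 1), HasSum (fun N : ℕ => (t.choose j : ℚ_[p]) * κ ^ (t - j) *
      (k.descFactorial j : ℚ_[p]) * (b ^ N / (N.factorial : ℚ_[p]) *
        ((N.descFactorial (k - j) : ℕ) * κ ^ (N - (k - j)))))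
      ((t.choose j : ℚ_[p]) * κ ^ (t - j) * (k.descFactorial j : ℚ_[p]) *
        (b ^ (k - j) * pe (κ * b))) := fun j _ => (hasSum_mon hb hκ (k - j)).mul_left _
  have h2 := hasSum_sum h1
  have h3 : ∑ j ∈ range (t + 1), (t.choose j : ℚ_[p]) * κ ^ (t - j) *
      (k.descFactorial j : ℚ_[p]) * (b ^ (k - j) * pe (κ * b)) = LamF κ k t b * pe (κ * b) := by
    unfold LamF
    rw [Finset.sum_mul]
    exact Finset.sum_congr rfl fun j _ => by ring
  rw [h3] at h2
  refine h2.congr_fun ?_ |> fun h => h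
  intro N
  unfold tm
  rw [← vander t k N]
  push_cast
  rw [Finset.sum_mul, Finset.mul_sum]
  refine Finset.sum_congr rfl fun j hj => ?_
  rw [Finset.mem_range] at hj
  by_cases h4 : k < j
  · rw [Nat.descFactorial_eq_zero_iff_lt.mpr h4]; simp
  by_cases h5 : N < k - j
  · rw [Nat.descFactorial_eq_zero_iff_lt.mpr h5]; simp
  have h6 : κ ^ (N + t - k) = κ ^ (t - j) * κ ^ (N - (k - j)) := by
    rw [← pow_add]; congr 1; omega
  rw [h6]
  ring

theorem norm_tm_le {b κ : ℚ_[p]} (hb : ‖b‖ * (p : ℝ) ^ 3 ≤ 1) (hκ : ‖κ‖ ≤ 1) (k t N : ℕ) :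
    ‖tm b κ k t N‖ ≤ (p : ℝ) ^ (-(N : ℤ)) := by
  have hp2 : (2 : ℝ) ≤ p := by exact_mod_cast hp.out.two_le
  have hp0 : (0 : ℝ) < p := by linarith
  unfold tm
  have h1 : ‖(((N + t).descFactorial k : ℕ) : ℚ_[p]) * κ ^ (N + t - k)‖ ≤ 1 := by
    rw [norm_mul, norm_pow]
    exact mul_le_one₀ (IsUltrametricDist.norm_natCast_le_one _ _) (by positivity)
      (pow_le_one₀ (norm_nonneg _) hκ)
  have h2 : ‖b ^ N / (N.factorial : ℚ_[p])‖ ≤ (p : ℝ) ^ (-(N : ℤ)) := by
    rcases Nat.eq_zero_or_pos N with h0 | h0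
    · subst h0; simp
    have h3 := norm_inv_factorial p (E := ℚ_[p]) N (by omega)
    rw [norm_div, norm_pow, div_eq_mul_inv, zpow_neg, zpow_natCast]
    have hb2 : ‖b‖ * p * p ≤ 1 := by
      refine le_trans ?_ hb
      rw [mul_assoc]
      apply mul_le_mul_of_nonneg_left _ (norm_nonneg _)
      nlinarith [sq_nonneg ((p : ℝ))]
    have hb3 : (‖b‖ * p) ^ N ≤ ((p : ℝ) ^ N)⁻¹ := by
      rw [← inv_pow]
      apply pow_le_pow_left₀ (by positivity)
      rw [← one_div, le_div_iff₀ hp0]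
      exact hb2
    calc ‖b‖ ^ N * ‖(N.factorial : ℚ_[p])‖⁻¹ ≤ ‖b‖ ^ N * (p : ℝ) ^ (N - 1) := by gcongr
      _ ≤ ‖b‖ ^ N * (p : ℝ) ^ N := by
          gcongr
          · linarith
          · omega
      _ = (‖b‖ * p) ^ N := by rw [mul_pow]
      _ ≤ _ := hb3
  rw [norm_mul]
  calc ‖b ^ N / (N.factorial : ℚ_[p])‖ * ‖(((N + t).descFactorial k : ℕ) : ℚ_[p]) * κ ^ (N + t - k)‖
      ≤ (p : ℝ) ^ (-(N : ℤ)) * 1 := mul_le_mul h2 h1 (norm_nonneg _) (by positivity)
    _ = _ := mul_one _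

theorem zpow_anti {a b : ℕ} (h : a ≤ b) : (p : ℝ) ^ (-(b : ℤ)) ≤ (p : ℝ) ^ (-(a : ℤ)) := by
  apply zpow_le_zpow_right₀
  · exact_mod_cast hp.out.one_lt.le
  · omega

theorem trunc {b κ : ℚ_[p]} (hb : ‖b‖ * (p : ℝ) ^ 3 ≤ 1) (hκ : ‖κ‖ ≤ 1) (k t U : ℕ) :
    ‖LamF κ k t b * pe (κ * b) - ∑ N ∈ range U, tm b κ k t N‖ ≤ (p : ℝ) ^ (-(U : ℤ)) := by
  have hp0 : (0 : ℝ) < p := by exact_mod_cast hp.out.pos
  have h1 := (hasSum_nat_add_iff' U).2 (hasSum_lam hb hκ k t)
  rw [← h1.tsum_eq]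
  apply IsUltrametricDist.norm_tsum_le_of_forall_le_of_nonneg (by positivity)
  intro n
  exact (norm_tm_le hb hκ k t (n + U)).trans (zpow_anti (by omega))

theorem norm_sum_le' {ι : Type*} (s : Finset ι) (f : ι → ℚ_[p]) {B : ℝ} (hB : 0 ≤ B)
    (h : ∀ i ∈ s, ‖f i‖ ≤ B) : ‖∑ i ∈ s, f i‖ ≤ B :=
  IsUltrametricDist.norm_sum_le_of_forall_le_of_nonneg hB h

theorem prod_close {ι : Type*} (s : Finset ι) (f g : ι → ℚ_[p]) {ε : ℝ} (hε : 0 ≤ ε)
    (hf : ∀ i ∈ s, ‖f i‖ ≤ 1) (hg : ∀ i ∈ s, ‖g i‖ ≤ 1) (h : ∀ i ∈ s, ‖f i - g i‖ ≤ ε) :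
    ‖∏ i ∈ s, f i - ∏ i ∈ s, g i‖ ≤ ε := by
  classical
  induction s using Finset.induction_on with
  | empty => simpa using hε
  | insert i s hi ih =>
    rw [Finset.prod_insert hi, Finset.prod_insert hi]
    have e : f i * ∏ i ∈ s, f i - g i * ∏ i ∈ s, g i =
        (f i - g i) * ∏ i ∈ s, f i + g i * (∏ i ∈ s, f i - ∏ i ∈ s, g i) := by ring
    rw [e]
    refine (IsUltrametricDist.norm_add_le_max _ _).trans (max_le ?_ ?_)
    · rw [norm_mul, norm_prod]
      have h1 : ∏ j ∈ s, ‖f j‖ ≤ 1 :=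
        Finset.prod_le_one (fun _ _ => norm_nonneg _) fun j hj => hf j (mem_insert_of_mem hj)
      calc ‖f i - g i‖ * ∏ j ∈ s, ‖f j‖ ≤ ε * 1 :=
            mul_le_mul (h i (mem_insert_self _ _)) h1
              (Finset.prod_nonneg fun _ _ => norm_nonneg _) hε
        _ = ε := mul_one _
    · rw [norm_mul]
      have h2 := ih (fun j hj => hf j (mem_insert_of_mem hj)) (fun j hj => hg j (mem_insert_of_mem hj))
        (fun j hj => h j (mem_insert_of_mem hj))
      calc ‖g i‖ * _ ≤ 1 * ε := mul_le_mul (hg i (mem_insert_self _ _)) h2 (norm_nonneg _) zero_le_one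
        _ = ε := one_mul _

/-- **The sums are small.** -/
theorem small_abs {ι J : Type*} [Fintype ι] [Fintype J] (U T : ℕ) (c : J → ℤ) (κ : J → ι → ℤ)
    (k : J → ι → ℕ) (b : ι → ℚ_[p]) (hb : ∀ i, ‖b i‖ * (p : ℝ) ^ 3 ≤ 1) (t : ι → ℕ)
    (ht : ∀ i, t i ≤ T)
    (hc : ∀ μ : ι → ℕ, (∀ i, μ i < U + T) → ((p : ℤ) ^ U) ∣
      ∑ j, c j * ∏ i, (((μ i).descFactorial (k j i) : ℕ) * κ j i ^ (μ i - k j i))) :
    ‖∑ j, (c j : ℚ_[p]) * ∏ i, (LamF (κ j i : ℚ_[p]) (k j i) (t i) (b i) *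
      pe ((κ j i : ℚ_[p]) * b i))‖ ≤ (p : ℝ) ^ (-(U : ℤ)) := by
  classical
  have hp0 : (0 : ℝ) < p := by exact_mod_cast hp.out.pos
  have hε : (0 : ℝ) ≤ (p : ℝ) ^ (-(U : ℤ)) := by positivity
  have hε1 : (p : ℝ) ^ (-(U : ℤ)) ≤ 1 := by
    have := zpow_anti (p := p) (Nat.zero_le U)
    simpa using this
  have hκ : ∀ j i, ‖(κ j i : ℚ_[p])‖ ≤ 1 := fun j i => Padic.norm_int_le_one _
  -- replace the factors by truncations
  have hterm1 : ∀ j i, ‖∑ N ∈ range U, tm (b i) (κ j i : ℚ_[p]) (k j i) (t i) N‖ ≤ 1 := by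
    intro j i
    apply norm_sum_le' _ _ zero_le_one
    intro N _
    refine (norm_tm_le (hb i) (hκ j i) _ _ N).trans ?_
    have := zpow_anti (p := p) (Nat.zero_le N)
    simpa using this
  have hterm2 : ∀ j i, ‖LamF (κ j i : ℚ_[p]) (k j i) (t i) (b i) * pe ((κ j i : ℚ_[p]) * b i)‖ ≤ 1 := by
    intro j i
    have e : LamF (κ j i : ℚ_[p]) (k j i) (t i) (b i) * pe ((κ j i : ℚ_[p]) * b i) =
        (LamF (κ j i : ℚ_[p]) (k j i) (t i) (b i) * pe ((κ j i : ℚ_[p]) * b i) -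
          ∑ N ∈ range U, tm (b i) (κ j i : ℚ_[p]) (k j i) (t i) N) +
        ∑ N ∈ range U, tm (b i) (κ j i : ℚ_[p]) (k j i) (t i) N := by ring
    rw [e]
    exact (IsUltrametricDist.norm_add_le_max _ _).trans
      (max_le ((trunc (hb i) (hκ j i) _ _ U).trans hε1) (hterm1 j i))
  have hmain : ‖∑ j, (c j : ℚ_[p]) * ∏ i, ∑ N ∈ range U, tm (b i) (κ j i : ℚ_[p]) (k j i) (t i) N‖ ≤
      (p : ℝ) ^ (-(U : ℤ)) := by
    have e1 : ∑ j, (c j : ℚ_[p]) * ∏ i, ∑ N ∈ range U, tm (b i) (κ j i : ℚ_[p]) (k j i) (t i) N =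
        ∑ N ∈ Fintype.piFinset (fun _ : ι => range U), (∏ i, (b i) ^ (N i) / ((N i).factorial : ℚ_[p])) *
          ((∑ j, c j * ∏ i, (((N i + t i).descFactorial (k j i) : ℕ) *
            κ j i ^ (N i + t i - k j i)) : ℤ) : ℚ_[p]) := by
      simp only [Finset.prod_univ_sum]
      simp only [Finset.mul_sum]
      rw [Finset.sum_comm]
      refine Finset.sum_congr rfl fun N _ => ?_
      rw [Int.cast_sum, Finset.mul_sum]
      refine Finset.sum_congr rfl fun j _ => ?_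
      unfold tm
      rw [Finset.prod_mul_distrib]
      push_cast
      ring
    rw [e1]
    apply norm_sum_le' _ _ hε
    intro N hN
    rw [Fintype.mem_piFinset] at hN
    rw [norm_mul, norm_prod]
    have h1 : ∏ i, ‖(b i) ^ (N i) / ((N i).factorial : ℚ_[p])‖ ≤ 1 := by
      apply Finset.prod_le_one (fun _ _ => norm_nonneg _)
      intro i _
      have h2 := norm_tm_le (hb i) (κ := 1) (by simp) 0 0 (N i)
      unfold tm at h2
      simp only [Nat.descFactorial_zero, Nat.cast_one, one_pow, mul_one] at h2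
      refine h2.trans ?_
      have := zpow_anti (p := p) (Nat.zero_le (N i))
      simpa using this
    have h3 : ‖((∑ j, c j * ∏ i, (((N i + t i).descFactorial (k j i) : ℕ) *
            κ j i ^ (N i + t i - k j i)) : ℤ) : ℚ_[p])‖ ≤ (p : ℝ) ^ (-(U : ℤ)) := by
      rw [Padic.norm_int_le_pow_iff_dvd]
      have := hc (fun i => N i + t i) (fun i => by
        have h4 := hN i
        rw [Finset.mem_range] at h4
        have := ht i
        change N i + t i < U + T
        omega)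
      exact_mod_cast this
    calc (∏ i, ‖(b i) ^ (N i) / ((N i).factorial : ℚ_[p])‖) * _ ≤ 1 * (p : ℝ) ^ (-(U : ℤ)) :=
          mul_le_mul h1 h3 (norm_nonneg _) zero_le_one
      _ = _ := one_mul _
  have e2 : ∑ j, (c j : ℚ_[p]) * ∏ i, (LamF (κ j i : ℚ_[p]) (k j i) (t i) (b i) *
      pe ((κ j i : ℚ_[p]) * b i)) =
      ∑ j, (c j : ℚ_[p]) * (∏ i, (LamF (κ j i : ℚ_[p]) (k j i) (t i) (b i) *
      pe ((κ j i : ℚ_[p]) * b i)) - ∏ i, ∑ N ∈ range U, tm (b i) (κ j i : ℚ_[p]) (k j i) (t i) N) +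
      ∑ j, (c j : ℚ_[p]) * ∏ i, ∑ N ∈ range U, tm (b i) (κ j i : ℚ_[p]) (k j i) (t i) N := by
    rw [← Finset.sum_add_distrib]
    exact Finset.sum_congr rfl fun j _ => by ring
  rw [e2]
  refine (IsUltrametricDist.norm_add_le_max _ _).trans (max_le ?_ hmain)
  apply norm_sum_le' _ _ hε
  intro j _
  rw [norm_mul]
  have h5 := prod_close Finset.univ (fun i => LamF (κ j i : ℚ_[p]) (k j i) (t i) (b i) *
      pe ((κ j i : ℚ_[p]) * b i)) (fun i => ∑ N ∈ range U, tm (b i) (κ j i : ℚ_[p]) (k j i) (t i) N)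
      hε (fun i _ => hterm2 j i) (fun i _ => hterm1 j i) (fun i _ => trunc (hb i) (hκ j i) _ _ U)
  calc ‖(c j : ℚ_[p])‖ * _ ≤ 1 * (p : ℝ) ^ (-(U : ℤ)) :=
        mul_le_mul (Padic.norm_int_le_one _) h5 (norm_nonneg _) zero_le_one
    _ = _ := one_mul _

end Pool.Agent.L0h53.PQ
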