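import Mathlib
import Pool.Agent.L0h53.PQ.Trunc

set_option autoImplicit false

/-! The sums of the entries are small. -/

namespace Pool.Agent.L0h53.PQ

open Finset Pool.Agent.W245.PB Pool.Agent.H301R2.TR

variable {p : ℕ} [hp : Fact p.Prime]

theorem pe_sub_one {y : ℚ_[p]} (hy : ‖y‖ * (p : ℝ) ^ 3 ≤ 1) : ‖pe y - 1‖ ≤ ‖y‖ := by
  have e : pe y - 1 = (pe y - 1 - y) + y := by ring
  rw [e]
  exact (IsUltrametricDist.norm_add_le_max _ _).trans
    (max_le ((pe_approx p hy).trans (pe_small p hy)) le_rfl)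

theorem small_le_one {y : ℚ_[p]} (hy : ‖y‖ * (p : ℝ) ^ 3 ≤ 1) : ‖y‖ ≤ 1 := by
  refine le_trans ?_ hy
  have h1 : (1 : ℝ) ≤ (p : ℝ) ^ 3 := one_le_pow₀ (by exact_mod_cast hp.out.one_lt.le)
  calc ‖y‖ = ‖y‖ * 1 := (mul_one _).symm
    _ ≤ _ := mul_le_mul_of_nonneg_left h1 (norm_nonneg _)

theorem norm_pe_le {y : ℚ_[p]} (hy : ‖y‖ * (p : ℝ) ^ 3 ≤ 1) : ‖pe y‖ ≤ 1 := by
  have e : pe y = (pe y - 1) + 1 := by ring
  rw [e]
  refine (IsUltrametricDist.norm_add_le_max _ _).trans (max_le ?_ (by simp))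
  exact (pe_sub_one hy).trans (small_le_one hy)

theorem pe_close {y z : ℚ_[p]} (hy : ‖y‖ * (p : ℝ) ^ 3 ≤ 1) (hz : ‖z‖ * (p : ℝ) ^ 3 ≤ 1) :
    ‖pe y - pe z‖ ≤ ‖y - z‖ := by
  have hyz : ‖y - z‖ * (p : ℝ) ^ 3 ≤ 1 := by
    rw [sub_eq_add_neg]
    exact norm_sum_small p hy (by rwa [norm_neg])
  have h1 : pe y = pe (y - z) * pe z := by
    rw [← pe_add p hyz hz, sub_add_cancel]
  have e : pe y - pe z = (pe (y - z) - 1) * pe z := by rw [h1]; ring
  rw [e, norm_mul]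
  calc ‖pe (y - z) - 1‖ * ‖pe z‖ ≤ ‖y - z‖ * 1 :=
        mul_le_mul (pe_sub_one hyz) (norm_pe_le hz) (norm_nonneg _) (norm_nonneg _)
    _ = _ := mul_one _

theorem nat_small {y : ℚ_[p]} (hy : ‖y‖ * (p : ℝ) ^ 3 ≤ 1) (n : ℕ) : ‖y * (n : ℚ_[p])‖ * (p : ℝ) ^ 3 ≤ 1 := by
  rw [mul_comm y]
  exact norm_mul_small p (IsUltrametricDist.norm_natCast_le_one _ n) hy

theorem norm_LamF_le_one {κ b : ℚ_[p]} (hκ : ‖κ‖ ≤ 1) (hb : ‖b‖ ≤ 1) (k t : ℕ) :
    ‖LamF κ k t b‖ ≤ 1 := by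
  unfold LamF
  apply norm_sum_le' _ _ zero_le_one
  intro j _
  rw [norm_mul, norm_mul, norm_mul, norm_pow, norm_pow]
  have h1 := IsUltrametricDist.norm_natCast_le_one ℚ_[p] (t.choose j)
  have h2 := IsUltrametricDist.norm_natCast_le_one ℚ_[p] (k.descFactorial j)
  have h3 : ‖κ‖ ^ (t - j) ≤ 1 := pow_le_one₀ (norm_nonneg _) hκ
  have h4 : ‖b‖ ^ (k - j) ≤ 1 := pow_le_one₀ (norm_nonneg _) hb
  have h5 : ‖(t.choose j : ℚ_[p])‖ * ‖κ‖ ^ (t - j) ≤ 1 := mul_le_one₀ h1 (by positivity) h3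
  have h6 : ‖(t.choose j : ℚ_[p])‖ * ‖κ‖ ^ (t - j) * ‖(k.descFactorial j : ℚ_[p])‖ ≤ 1 :=
    mul_le_one₀ h5 (norm_nonneg _) h2
  exact mul_le_one₀ h6 (by positivity) h4

/-- **The sums of the entries are small.** -/
theorem small {w d l r : ℕ} {J : Type*} [Fintype J] (U T : ℕ) (c : J → ℤ) (k : J → Fin w → ℕ)
    (m : J → Fin d → ℕ) (γ : Fin w → Fin d → ℤ) (β : Fin w → Fin l → ℚ_[p])
    (hβ : ∀ i q, ‖β i q‖ * (p : ℝ) ^ 3 ≤ 1) (x : Fin r → Fin d → ℕ) (y : Fin r → Fin l → ℚ_[p])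
    (hy : ∀ ρ q, ‖y ρ q‖ * (p : ℝ) ^ 3 ≤ 1) (lam : Fin d → Fin l → ℚ_[p])
    (hlam : ∀ j q, ‖lam j q‖ * (p : ℝ) ^ 3 ≤ 1)
    (hclose : ∀ j q, ‖lam j q - (∑ ρ, (x ρ j : ℚ_[p]) * y ρ q + ∑ i, (γ i j : ℚ_[p]) * β i q)‖ ≤
      (p : ℝ) ^ (-(U : ℤ)))
    (hc : ∀ μ : Fin w ⊕ Fin r → ℕ, (∀ i, μ i < U + T) → ((p : ℤ) ^ U) ∣
      ∑ j, c j * ((∏ i, (((μ (Sum.inl i)).descFactorial (k j i) : ℕ) *
        (∑ a, γ i a * (m j a : ℤ)) ^ (μ (Sum.inl i) - k j i))) *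
        ∏ ρ, (∑ a, (x ρ a : ℤ) * (m j a : ℤ)) ^ (μ (Sum.inr ρ))))
    (t : Fin w → ℕ) (ht : ∀ i, t i ≤ T) (s : Fin l → ℕ) :
    ‖∑ j, (c j : ℚ_[p]) * entG (fun i a => (γ i a : ℚ_[p])) β (fun a q => pe (lam a q)) (k j) (m j)
      t s‖ ≤ (p : ℝ) ^ (-(U : ℤ)) := by
  classical
  have hp0 : (0 : ℝ) < p := by exact_mod_cast hp.out.pos
  have hε : (0 : ℝ) ≤ (p : ℝ) ^ (-(U : ℤ)) := by positivity
  let κ : J → Fin w ⊕ Fin r → ℤ := fun j => Sum.elim (fun i => ∑ a, γ i a * (m j a : ℤ))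
    (fun ρ => ∑ a, (x ρ a : ℤ) * (m j a : ℤ))
  let k' : J → Fin w ⊕ Fin r → ℕ := fun j => Sum.elim (k j) (fun _ => 0)
  let b : Fin w ⊕ Fin r → ℚ_[p] := Sum.elim (fun i => ∑ q, β i q * (s q : ℚ_[p]))
    (fun ρ => ∑ q, y ρ q * (s q : ℚ_[p]))
  let t' : Fin w ⊕ Fin r → ℕ := Sum.elim t (fun _ => 0)
  have hb : ∀ i, ‖b i‖ * (p : ℝ) ^ 3 ≤ 1 := by
    rintro (i | ρ)
    · exact norm_fsum_small p _ _ fun q _ => nat_small (hβ i q) (s q)
    · exact norm_fsum_small p _ _ fun q _ => nat_small (hy ρ q) (s q)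
  have hmain := small_abs (p := p) U T c κ k' b hb t' (by
      rintro (i | ρ)
      · exact ht i
      · exact Nat.zero_le _) (by
      intro μ hμ
      have h1 := hc μ hμ
      refine Eq.subst (motive := fun z => ((p : ℤ) ^ U) ∣ z) ?_ h1
      refine Finset.sum_congr rfl fun j _ => ?_
      rw [Fintype.prod_sum_type]
      congr 1
      congr 1
      refine Finset.prod_congr rfl fun ρ _ => ?_
      change _ = (((μ (Sum.inr ρ)).descFactorial 0 : ℕ) : ℤ) *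
        (∑ a, (x ρ a : ℤ) * (m j a : ℤ)) ^ (μ (Sum.inr ρ) - 0)
      rw [Nat.descFactorial_zero, Nat.cast_one, one_mul, Nat.sub_zero])
  -- comparison
  have e2 : ∑ j, (c j : ℚ_[p]) * entG (fun i a => (γ i a : ℚ_[p])) β (fun a q => pe (lam a q)) (k j)
      (m j) t s =
      ∑ j, (c j : ℚ_[p]) * (entG (fun i a => (γ i a : ℚ_[p])) β (fun a q => pe (lam a q)) (k j)
      (m j) t s - ∏ i, (LamF (κ j i : ℚ_[p]) (k' j i) (t' i) (b i) * pe ((κ j i : ℚ_[p]) * b i))) +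
      ∑ j, (c j : ℚ_[p]) * ∏ i, (LamF (κ j i : ℚ_[p]) (k' j i) (t' i) (b i) *
        pe ((κ j i : ℚ_[p]) * b i)) := by
    rw [← Finset.sum_add_distrib]
    exact Finset.sum_congr rfl fun j _ => by ring
  rw [e2]
  refine (IsUltrametricDist.norm_add_le_max _ _).trans (max_le ?_ hmain)
  apply norm_sum_le' _ _ hε
  intro j _
  rw [norm_mul]
  have hκ : ∀ i, ‖(κ j i : ℚ_[p])‖ ≤ 1 := fun i => Padic.norm_int_le_one _
  have key : ‖entG (fun i a => (γ i a : ℚ_[p])) β (fun a q => pe (lam a q)) (k j)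
      (m j) t s - ∏ i, (LamF (κ j i : ℚ_[p]) (k' j i) (t' i) (b i) * pe ((κ j i : ℚ_[p]) * b i))‖ ≤
      (p : ℝ) ^ (-(U : ℤ)) := by
    -- the product of the exponentials
    have h1 : ∏ a, (∏ q, pe (lam a q) ^ s q) ^ m j a =
        pe (∑ a, ∑ q, lam a q * (s q : ℚ_[p]) * (m j a : ℚ_[p])) := by
      rw [pe_sum p _ _ fun a _ => norm_fsum_small p _ _ fun q _ =>
        nat_small (nat_small (hlam a q) (s q)) (m j a)]
      refine Finset.prod_congr rfl fun a _ => ?_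
      rw [pe_sum p _ _ fun q _ => nat_small (nat_small (hlam a q) (s q)) (m j a),
        ← Finset.prod_pow]
      refine Finset.prod_congr rfl fun q _ => ?_
      have e3 : lam a q * (s q : ℚ_[p]) * (m j a : ℚ_[p]) = ((s q * m j a : ℕ) : ℚ_[p]) * lam a q := by
        push_cast; ring
      rw [e3, pe_nat_mul p (hlam a q), pow_mul]
    have h2 : ∏ i, pe ((κ j i : ℚ_[p]) * b i) = pe (∑ i, (κ j i : ℚ_[p]) * b i) := by
      rw [pe_sum p _ _ fun i _ => norm_mul_small p (hκ i) (hb i)]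
    have h3 : ∏ i, LamF (κ j i : ℚ_[p]) (k' j i) (t' i) (b i) =
        ∏ i, LamF (∑ a, (γ i a : ℚ_[p]) * (m j a : ℚ_[p])) (k j i) (t i)
          (∑ q, β i q * (s q : ℚ_[p])) := by
      rw [Fintype.prod_sum_type]
      have h4 : ∏ ρ : Fin r, LamF (κ j (Sum.inr ρ) : ℚ_[p]) (k' j (Sum.inr ρ)) (t' (Sum.inr ρ))
          (b (Sum.inr ρ)) = 1 := by
        apply Finset.prod_eq_one
        intro ρ _
        change LamF _ 0 0 _ = 1
        rw [LamF_zero, pow_zero]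
      rw [h4, mul_one]
      refine Finset.prod_congr rfl fun i _ => ?_
      change LamF (((∑ a, γ i a * (m j a : ℤ)) : ℤ) : ℚ_[p]) (k j i) (t i) _ = _
      push_cast
      rfl
    unfold entG
    rw [h1, Finset.prod_mul_distrib, h2, h3, ← mul_sub, norm_mul]
    have h5 : ‖∏ i, LamF (∑ a, (γ i a : ℚ_[p]) * (m j a : ℚ_[p])) (k j i) (t i)
          (∑ q, β i q * (s q : ℚ_[p]))‖ ≤ 1 := by
      rw [norm_prod]
      apply Finset.prod_le_one (fun _ _ => norm_nonneg _)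
      intro i _
      apply norm_LamF_le_one
      · have := hκ (Sum.inl i)
        change ‖(((∑ a, γ i a * (m j a : ℤ)) : ℤ) : ℚ_[p])‖ ≤ 1 at this
        push_cast at this
        exact this
      · exact small_le_one (hb (Sum.inl i))
    have h6 : ‖pe (∑ a, ∑ q, lam a q * (s q : ℚ_[p]) * (m j a : ℚ_[p])) -
        pe (∑ i, (κ j i : ℚ_[p]) * b i)‖ ≤ (p : ℝ) ^ (-(U : ℤ)) := by
      refine (pe_close
        (norm_fsum_small p _ _ fun a _ => norm_fsum_small p _ _ fun q _ =>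
          nat_small (nat_small (hlam a q) (s q)) (m j a))
        (norm_fsum_small p _ _ fun i _ => norm_mul_small p (hκ i) (hb i))).trans ?_
      have e4 : ∑ a, ∑ q, lam a q * (s q : ℚ_[p]) * (m j a : ℚ_[p]) -
          ∑ i, (κ j i : ℚ_[p]) * b i =
          ∑ a, ∑ q, (lam a q - (∑ ρ, (x ρ a : ℚ_[p]) * y ρ q + ∑ i, (γ i a : ℚ_[p]) * β i q)) *
            ((s q : ℚ_[p]) * (m j a : ℚ_[p])) := by
        rw [Fintype.sum_sum_type]
        have e5 : ∑ i : Fin w, (κ j (Sum.inl i) : ℚ_[p]) * b (Sum.inl i) =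
            ∑ a, ∑ q, (∑ i, (γ i a : ℚ_[p]) * β i q) * ((s q : ℚ_[p]) * (m j a : ℚ_[p])) := by
          change ∑ i : Fin w, (((∑ a, γ i a * (m j a : ℤ)) : ℤ) : ℚ_[p]) *
            (∑ q, β i q * (s q : ℚ_[p])) = _
          push_cast
          simp only [Finset.sum_mul, Finset.mul_sum]
          rw [Finset.sum_comm]
          refine (Finset.sum_congr rfl fun q _ => Finset.sum_comm).trans ?_
          rw [Finset.sum_comm]
          refine Finset.sum_congr rfl fun a _ => Finset.sum_congr rfl fun q _ =>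
            Finset.sum_congr rfl fun i _ => ?_
          ring
        have e6 : ∑ i : Fin r, (κ j (Sum.inr i) : ℚ_[p]) * b (Sum.inr i) =
            ∑ a, ∑ q, (∑ i, (x i a : ℚ_[p]) * y i q) * ((s q : ℚ_[p]) * (m j a : ℚ_[p])) := by
          change ∑ i : Fin r, (((∑ a, (x i a : ℤ) * (m j a : ℤ)) : ℤ) : ℚ_[p]) *
            (∑ q, y i q * (s q : ℚ_[p])) = _
          push_cast
          simp only [Finset.sum_mul, Finset.mul_sum]
          rw [Finset.sum_comm]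
          refine (Finset.sum_congr rfl fun q _ => Finset.sum_comm).trans ?_
          rw [Finset.sum_comm]
          refine Finset.sum_congr rfl fun a _ => Finset.sum_congr rfl fun q _ =>
            Finset.sum_congr rfl fun i _ => ?_
          ring
        rw [e5, e6, ← Finset.sum_add_distrib, ← Finset.sum_sub_distrib]
        refine Finset.sum_congr rfl fun a _ => ?_
        rw [← Finset.sum_add_distrib, ← Finset.sum_sub_distrib]
        exact Finset.sum_congr rfl fun q _ => by ring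
      rw [e4]
      apply norm_sum_le' _ _ hε
      intro a _
      apply norm_sum_le' _ _ hε
      intro q _
      rw [norm_mul]
      have h7 : ‖(s q : ℚ_[p]) * (m j a : ℚ_[p])‖ ≤ 1 := by
        rw [norm_mul]
        exact mul_le_one₀ (IsUltrametricDist.norm_natCast_le_one _ _) (norm_nonneg _)
          (IsUltrametricDist.norm_natCast_le_one _ _)
      calc _ ≤ (p : ℝ) ^ (-(U : ℤ)) * 1 := mul_le_mul (hclose a q) h7 (norm_nonneg _) hε
        _ = _ := mul_one _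
    calc _ ≤ 1 * (p : ℝ) ^ (-(U : ℤ)) := mul_le_mul h5 h6 (norm_nonneg _) zero_le_one
      _ = _ := one_mul _
  calc ‖(c j : ℚ_[p])‖ * _ ≤ 1 * (p : ℝ) ^ (-(U : ℤ)) :=
        mul_le_mul (Padic.norm_int_le_one _) key (norm_nonneg _) zero_le_one
    _ = _ := one_mul _

end Pool.Agent.L0h53.PQ
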