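import Mathlib
import Pool.Agent.L0h53.PQ.Small
import Pool.Agent.L0h39.QA.Aux1
import Pool.Agent.L0h53.PS.Log

set_option autoImplicit false

/-! Vanishing of the sums of the entries over the rational numbers. -/

namespace Pool.Agent.L0h53.PQ

open Finset Pool.Agent.W245.PB Pool.Agent.H301R2.TR Pool.Agent.L0h39.QA

variable {p : ℕ} [hp : Fact p.Prime]

theorem int_of_intD {d a : ℕ} {y : ℚ} (h : IntD d a y) : ∃ z : ℤ, (z : ℚ) = (d : ℚ) ^ a * y := by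
  obtain ⟨z, hz⟩ := (IsIntegrallyClosed.isIntegral_iff (R := ℤ) (K := ℚ)).mp h
  exact ⟨z, by simpa using hz⟩

theorem vanish {w b l : ℕ} {J : Type*} [Fintype J] (c : J → ℤ) (P : ℕ)
    (hc : ∀ j, |c j| ≤ P) (k : J → Fin w → ℕ) (m : J → Fin b → ℕ) (K M T S U dd : ℕ) (g R : ℝ)
    (hg : 0 ≤ g) (hR : 1 ≤ R) (hdd : 0 < dd)
    (γ : Fin w → Fin b → ℤ) (hγ : ∀ i j, ‖((γ i j : ℤ) : ℂ)‖ ≤ g)
    (α : Fin w → Fin l → ℚ) (χ : Fin b → Fin l → ℚ)
    (hαd : ∀ i q, IntD dd 1 (α i q)) (hχd : ∀ j q, IntD dd 1 (χ j q))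
    (hαR : ∀ i q, ‖((α i q : ℚ) : ℂ)‖ ≤ R) (hχR : ∀ j q, ‖((χ j q : ℚ) : ℂ)‖ ≤ R)
    (hk : ∀ j i, k j i ≤ K) (hm : ∀ j i, m j i ≤ M) (t : Fin w → ℕ) (s : Fin l → ℕ)
    (ht : ∀ i, t i ≤ T) (hs : ∀ q, s q ≤ S)
    (hsmall : ‖∑ j, (c j : ℚ_[p]) * entG (fun i a => ((γ i a : ℤ) : ℚ_[p]))
      (fun i q => ((α i q : ℚ) : ℚ_[p])) (fun a q => ((χ a q : ℚ) : ℚ_[p])) (k j) (m j) t s‖ ≤
      (p : ℝ) ^ (-(U : ℤ)))
    (hlarge : (dd : ℝ) ^ (w * K + b * (l * (S * M))) *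
      ((Fintype.card J : ℝ) * P * Bd w b l g R K M T S) < (p : ℝ) ^ U) :
    ∑ j, (c j : ℚ) * entG (fun i a => ((γ i a : ℤ) : ℚ)) α χ (k j) (m j) t s = 0 := by
  classical
  have hp0 : (0 : ℝ) < p := by exact_mod_cast hp.out.pos
  obtain ⟨V, hV⟩ : ∃ V : ℚ, V = ∑ j, (c j : ℚ) * entG (fun i a => ((γ i a : ℤ) : ℚ)) α χ (k j)
    (m j) t s := ⟨_, rfl⟩
  rw [← hV]
  by_contra hV0
  obtain ⟨E, hE⟩ : ∃ E, E = w * K + b * (l * (S * M)) := ⟨_, rfl⟩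
  rw [← hE] at hlarge
  -- the integer
  have hint : IntD dd E V := by
    rw [hV]
    apply IntD.sum
    intro j _
    have h1 := entG_int' (γ := γ) hαd hχd K M S (k := k j) (m := m j) (t := t) (s := s) (hk j)
      (hm j) hs
    have h2 : IntD dd 0 ((c j : ℤ) : ℚ) := IntD.of_int (by
      have := isIntegral_algebraMap (R := ℤ) (A := ℚ) (x := c j)
      simpa using this)
    have h3 := h2.mul h1
    rw [zero_add, ← hE] at h3
    exact h3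
  obtain ⟨z, hz⟩ := int_of_intD hint
  have hVp : ‖((V : ℚ) : ℚ_[p])‖ ≤ (p : ℝ) ^ (-(U : ℤ)) := by
    refine le_trans (le_of_eq ?_) hsmall
    congr 1
    rw [hV]
    push_cast
    refine Finset.sum_congr rfl fun j _ => ?_
    congr 1
    have h1 := entG_map (Rat.castHom ℚ_[p]) (fun i a => ((γ i a : ℤ) : ℚ)) α χ (k j) (m j) t s
    simpa using h1
  have hVR : ‖((V : ℚ) : ℂ)‖ ≤ (Fintype.card J : ℝ) * P * Bd w b l g R K M T S := by
    have e1 : ((V : ℚ) : ℂ) = ∑ j, (c j : ℂ) * entG (fun i a => ((γ i a : ℤ) : ℂ))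
        (fun i q => ((α i q : ℚ) : ℂ)) (fun a q => ((χ a q : ℚ) : ℂ)) (k j) (m j) t s := by
      rw [hV]
      push_cast
      refine Finset.sum_congr rfl fun j _ => ?_
      congr 1
      have h1 := entG_map (Rat.castHom ℂ) (fun i a => ((γ i a : ℤ) : ℚ)) α χ (k j) (m j) t s
      simpa using h1
    rw [e1]
    refine (norm_sum_le _ _).trans ?_
    have h2 : ∀ j ∈ (Finset.univ : Finset J), ‖(c j : ℂ) * entG (fun i a => ((γ i a : ℤ) : ℂ))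
        (fun i q => ((α i q : ℚ) : ℂ)) (fun a q => ((χ a q : ℚ) : ℂ)) (k j) (m j) t s‖ ≤
        P * Bd w b l g R K M T S := by
      intro j _
      rw [norm_mul]
      have h3 : ‖(c j : ℂ)‖ ≤ P := by
        rw [Complex.norm_intCast]
        have := hc j
        exact_mod_cast this
      exact mul_le_mul h3 (entG_norm' hg hR hγ hαR hχR K M T S (hk j) (hm j) ht hs) (norm_nonneg _)
        (Nat.cast_nonneg _)
    refine (Finset.sum_le_card_nsmul _ _ _ h2).trans ?_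
    simp only [Finset.card_univ, nsmul_eq_mul]
    apply le_of_eq; ring
  -- `z ≠ 0`
  have hzV : ‖((z : ℤ) : ℚ_[p])‖ ≤ (p : ℝ) ^ (-(U : ℤ)) := by
    have e1 : ((z : ℤ) : ℚ_[p]) = ((dd : ℕ) : ℚ_[p]) ^ E * ((V : ℚ) : ℚ_[p]) := by
      have := congrArg (fun y : ℚ => (y : ℚ_[p])) hz
      push_cast at this
      exact this
    rw [e1, norm_mul, norm_pow]
    have h3 : ‖((dd : ℕ) : ℚ_[p])‖ ^ E ≤ 1 :=
      pow_le_one₀ (norm_nonneg _) (IsUltrametricDist.norm_natCast_le_one _ _)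
    calc ‖((dd : ℕ) : ℚ_[p])‖ ^ E * ‖((V : ℚ) : ℚ_[p])‖ ≤ 1 * (p : ℝ) ^ (-(U : ℤ)) :=
          mul_le_mul h3 hVp (norm_nonneg _) zero_le_one
      _ = _ := one_mul _
  have hzR : |(z : ℝ)| ≤ (dd : ℝ) ^ E * ((Fintype.card J : ℝ) * P * Bd w b l g R K M T S) := by
    have e1 : ((z : ℤ) : ℂ) = ((dd : ℕ) : ℂ) ^ E * ((V : ℚ) : ℂ) := by
      have := congrArg (fun y : ℚ => (y : ℂ)) hz
      push_cast at this
      exact this
    have e2 : |(z : ℝ)| = ‖((z : ℤ) : ℂ)‖ := by rw [Complex.norm_intCast]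
    rw [e2, e1, norm_mul, norm_pow, Complex.norm_natCast]
    exact mul_le_mul_of_nonneg_left hVR (by positivity)
  by_cases hz0 : z = 0
  · -- then `dd = 0` or `V = 0`
    have h4 : (dd : ℚ) ^ E * V = 0 := by rw [← hz, hz0]; simp
    rcases mul_eq_zero.mp h4 with h5 | h5
    · have h6 : (dd : ℚ) ≠ 0 := by exact_mod_cast hdd.ne'
      exact absurd h5 (pow_ne_zero _ h6)
    · exact hV0 h5
  · have h6 := Pool.Agent.L0h53.PS.int_lower (p := p) hz0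
    have h7 : (|(z : ℝ)|)⁻¹ ≤ (p : ℝ) ^ (-(U : ℤ)) := h6.trans hzV
    rw [zpow_neg, zpow_natCast] at h7
    have h8 : (0 : ℝ) < |(z : ℝ)| := abs_pos.mpr (by exact_mod_cast hz0)
    have h9 := (inv_le_inv₀ h8 (by positivity)).mp h7
    linarith

end Pool.Agent.L0h53.PQ
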