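import Mathlib
import Pool.Agent.L0h53.PQ.Van
import Pool.Agent.L0h53.PS.Alg
import Pool.Agent.L0h39.QA.ObsA

set_option autoImplicit false

/-! The obstruction theorem for rational points which are `p`-adically close to the points of an
analytic subgroup. -/

namespace Pool.Agent.L0h53.PQ

open Finset Module Pool.Agent.W245.PB Pool.Agent.H301R2.TR Pool.Agent.H335R2.Obs
  Pool.Agent.L0h39.QA

/-- the pigeonhole principle with an arbitrary index type -/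
theorem pigeon' {J I : Type} [Fintype J] [DecidableEq J] [Fintype I] (q P : ℕ) (hq : 1 ≤ q)
    (f : J → I → ℤ) (h : q ^ Fintype.card I < (P + 1) ^ Fintype.card J) :
    ∃ c : J → ℤ, c ≠ 0 ∧ (∀ j, |c j| ≤ P) ∧ ∀ ν, (q : ℤ) ∣ ∑ j, c j * f j ν := by
  obtain ⟨c, h1, h2, h3⟩ := Pool.Agent.L0h53.PS.pigeon q (Fintype.card I) P hq
    (fun j ν => f j ((Fintype.equivFin I).symm ν)) h
  refine ⟨c, h1, h2, fun ν => ?_⟩
  have := h3 (Fintype.equivFin I ν)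
  simpa using this

/-- **Obstruction theorem, `p`-adic version.** -/
theorem obstructionP {w b l r : ℕ} (γ : Fin w → Fin b → ℤ) (κ μ σ τ a : ℕ) (hκ : μ + σ = κ)
    (hτ : τ + 1 = κ + a) (ha : 1 ≤ a) (hcount : (κ + a) * (r + w) + 1 ≤ w * κ + b * μ) :
    ∃ C1 : ℝ, 0 < C1 ∧ ∃ n0 : ℕ, ∀ n ≥ n0, ∀ (p : ℕ) [Fact p.Prime] (α : Fin w → Fin l → ℚ)
      (χ : Fin b → Fin l → ℚ) (x : Fin r → Fin b → ℕ) (y : Fin r → Fin l → ℚ_[p])
      (lam : Fin b → Fin l → ℚ_[p]) (Λ R : ℝ) (d : ℕ),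
      C1 * Λ ≤ (n : ℝ) ^ a → 1 ≤ Λ → 1 ≤ R → R ≤ Real.exp Λ → 0 < d → (d : ℝ) ≤ Real.exp Λ →
      (∀ i q, IntD d 1 (α i q)) → (∀ j q, IntD d 1 (χ j q)) →
      (∀ i q, ‖((α i q : ℚ) : ℂ)‖ ≤ R) → (∀ j q, ‖((χ j q : ℚ) : ℂ)‖ ≤ R) →
      (∀ i q, ‖((α i q : ℚ) : ℚ_[p])‖ * (p : ℝ) ^ 3 ≤ 1) → (∀ ρ q, ‖y ρ q‖ * (p : ℝ) ^ 3 ≤ 1) →
      (∀ j q, ‖lam j q‖ * (p : ℝ) ^ 3 ≤ 1) → (∀ j q, pe (lam j q) = ((χ j q : ℚ) : ℚ_[p])) →
      (∀ j q, ‖lam j q - (∑ ρ, (x ρ j : ℚ_[p]) * y ρ q +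
        ∑ i, ((γ i j : ℤ) : ℚ_[p]) * ((α i q : ℚ) : ℚ_[p]))‖ ≤ (p : ℝ) ^ (-((n ^ (κ + a) : ℕ) : ℤ))) →
      (∀ j q, χ j q ≠ 0) →
      ∃ (Af' : Submodule ℂ (Fin w → ℂ)) (Rm' : AddSubgroup (Fin b → ℤ))
        (W0 : Submodule ℂ (Fin w → ℂ)) (G0 : AddSubgroup (Fin l → ℤ)),
        ¬ (Af' = ⊥ ∧ Rm' = ⊥) ∧
        (∀ c, c ∈ W0 ↔ (∀ a ∈ Af', ∑ i, a i * c i = 0) ∧
          ∀ m ∈ Rm', ∑ j, (m j : ℂ) * ∑ i, c i * ((γ i j : ℤ) : ℂ) = 0) ∧
        (∀ s, s ∈ G0 ↔ (∀ a ∈ Af', ∑ i, a i * ∑ q, ((α i q : ℚ) : ℂ) * (s q : ℂ) = 0) ∧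
          ∀ m ∈ Rm', ∏ j, (∏ q, χ j q ^ s q) ^ m j = 1) ∧
        (w - finrank ℂ W0) * τ + (l - finrank ℤ G0) * σ ≤
          finrank ℂ Af' * κ + finrank ℤ Rm' * μ := by
  classical
  -- constants
  obtain ⟨g, hg0, hg⟩ : ∃ g : ℝ, 0 ≤ g ∧ ∀ i j, ‖((γ i j : ℤ) : ℂ)‖ ≤ g := by
    refine ⟨∑ ij : Fin w × Fin b, ‖((γ ij.1 ij.2 : ℤ) : ℂ)‖, by positivity, fun i j => ?_⟩
    exact Finset.single_le_sum (f := fun ij : Fin w × Fin b => ‖((γ ij.1 ij.2 : ℤ) : ℂ)‖)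
          (fun _ _ => norm_nonneg _) (Finset.mem_univ (i, j))
  obtain ⟨N, hN⟩ : ∃ N, N = w + b := ⟨_, rfl⟩
  obtain ⟨C, hC⟩ : ∃ C, C = 2 ^ ((N + 1) * N) := ⟨_, rfl⟩
  have hC1 : 1 ≤ C := by rw [hC]; exact Nat.one_le_two_pow
  obtain ⟨c', hc'⟩ : ∃ c', c' = (w + 1) * (C + 1) := ⟨_, rfl⟩
  obtain ⟨c, hc⟩ : ∃ c, c = (N + 1) * c' := ⟨_, rfl⟩
  have hcpos : 1 ≤ c := by
    rw [hc, hc']
    exact Nat.succ_le_of_lt (by positivity)
  obtain ⟨C1, hC1p, n0, hn0⟩ := growth w b l r κ μ σ τ a c 1 g 1 hg0 le_rfl hκ hτ ha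
  refine ⟨C1, hC1p, max n0 (C + 2 + c + 8 * 2 ^ (w + r)), ?_⟩
  intro n hn p hp α χ x y lam Λ R d hΛ hΛ1 hR1 hR hd hdΛ hαd hχd hαR hχR hαp hy hlam hexp hclose hχ0
  have hn1 : n0 ≤ n := (le_max_left _ _).trans hn
  have hn2 : C + 2 + c + 8 * 2 ^ (w + r) ≤ n := (le_max_right _ _).trans hn
  obtain ⟨-, g2⟩ := hn0 n hn1 (by omega) Λ R 0 d 1 hΛ (by linarith) hR1 hR hd hdΛ le_rfl le_rfl
    (by positivity)
  have hnpos : 0 < n := by omega
  obtain ⟨U, hU⟩ : ∃ U, U = n ^ (κ + a) := ⟨_, rfl⟩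
  rw [← hU] at hclose g2
  obtain ⟨Jc, hJc⟩ : ∃ Jc, Jc = (n ^ κ + 1) ^ w * (n ^ μ + 1) ^ b := ⟨_, rfl⟩
  have hcardJ : Fintype.card (JG (fun _ : Fin w => n ^ κ) b (n ^ μ)) = Jc := by
    rw [card_JG, hJc]; simp
  have hTU : c * n ^ τ ≤ U := by
    rw [hU, ← hτ, pow_succ, mul_comm (n ^ τ) n]
    exact Nat.mul_le_mul_right _ (by omega)
  have hU8 : 8 ≤ U := by
    have h1 : n ^ 1 ≤ n ^ (κ + a) := Nat.pow_le_pow_right hnpos (by omega)
    have h2 : 1 ≤ 2 ^ (w + r) := Nat.one_le_two_pow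
    rw [← hU, pow_one] at h1
    omega
  -- the count
  have hcountn : 8 * (U + c * n ^ τ) ^ (w + r) ≤ Jc := by
    calc 8 * (U + c * n ^ τ) ^ (w + r) ≤ 8 * (2 * U) ^ (w + r) := by
          apply Nat.mul_le_mul_left
          apply Nat.pow_le_pow_left
          omega
      _ = (8 * 2 ^ (w + r)) * U ^ (w + r) := by rw [mul_pow]; ring
      _ ≤ n * U ^ (w + r) := Nat.mul_le_mul_right _ (by omega)
      _ = n ^ ((κ + a) * (r + w) + 1) := by rw [hU, ← pow_mul, pow_succ, add_comm w r]; ring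
      _ ≤ n ^ (w * κ + b * μ) := Nat.pow_le_pow_right hnpos hcount
      _ = (n ^ κ) ^ w * (n ^ μ) ^ b := by rw [← pow_mul, ← pow_mul, ← pow_add]; ring_nf
      _ ≤ _ := by
          rw [hJc]
          exact Nat.mul_le_mul (Nat.pow_le_pow_left (by omega) _) (Nat.pow_le_pow_left (by omega) _)
  have hp1 : 1 < p := hp.out.one_lt
  have hp0 : (0 : ℝ) < p := by exact_mod_cast hp.out.pos
  -- the auxiliary polynomial
  obtain ⟨e, he⟩ : ∃ e, e = U / 4 := ⟨_, rfl⟩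
  obtain ⟨P, hP⟩ : ∃ P, P = p ^ e - 1 := ⟨_, rfl⟩
  have hP1 : P + 1 = p ^ e := by
    have : 1 ≤ p ^ e := Nat.one_le_pow _ _ hp.out.pos
    omega
  obtain ⟨cf, hcf0, hcfP, hcfd⟩ := pigeon' (J := JG (fun _ : Fin w => n ^ κ) b (n ^ μ))
    (I := Fin w ⊕ Fin r → Fin (U + c * n ^ τ)) (p ^ U) P (Nat.one_le_pow _ _ hp.out.pos)
    (fun j ν => (∏ i, (((ν (Sum.inl i) : ℕ).descFactorial (j.1 i : ℕ) : ℕ) *
        (∑ q, γ i q * ((j.2 q : ℕ) : ℤ)) ^ ((ν (Sum.inl i) : ℕ) - (j.1 i : ℕ)))) *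
        ∏ ρ, (∑ q, (x ρ q : ℤ) * ((j.2 q : ℕ) : ℤ)) ^ ((ν (Sum.inr ρ) : ℕ))) (by
      rw [hP1, hcardJ, Fintype.card_fun, Fintype.card_sum, Fintype.card_fin, Fintype.card_fin,
        Fintype.card_fin, ← pow_mul, ← pow_mul]
      apply Nat.pow_lt_pow_right hp1
      obtain ⟨X, hX⟩ : ∃ X, X = (U + c * n ^ τ) ^ (w + r) := ⟨_, rfl⟩
      rw [← hX] at hcountn ⊢
      have hX1 : 1 ≤ X := by
        rw [hX]
        exact Nat.one_le_pow _ _ (by omega)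
      have h1 : U < 8 * e := by omega
      calc U * X < 8 * e * X := (Nat.mul_lt_mul_right (by omega)).mpr h1
        _ = e * (8 * X) := by ring
        _ ≤ e * Jc := Nat.mul_le_mul_left _ hcountn)
  -- vanishing
  have hpv : ∀ (t : Fin w → ℕ) (s : Fin l → ℕ), (∀ i, t i ≤ c * n ^ τ) → (∀ q, s q ≤ c * n ^ σ) →
      ∑ j, (cf j : ℂ) * entG (fun i a => ((γ i a : ℤ) : ℂ)) (fun i q => ((α i q : ℚ) : ℂ))
        (fun a q => ((χ a q : ℚ) : ℂ)) (fun i => (j.1 i : ℕ)) (fun i => (j.2 i : ℕ)) t s = 0 := by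
    intro t s ht hs
    have hsm := small (p := p) U (c * n ^ τ) cf (fun j i => (j.1 i : ℕ)) (fun j i => (j.2 i : ℕ)) γ
      (fun i q => ((α i q : ℚ) : ℚ_[p])) hαp x y hy lam hlam hclose
      (by
        intro μ' hμ'
        have h1 := hcfd (fun i => ⟨μ' i, hμ' i⟩)
        push_cast at h1
        exact h1) t ht s
    simp only [hexp] at hsm
    have hv := vanish (p := p) cf P hcfP (fun j i => (j.1 i : ℕ)) (fun j i => (j.2 i : ℕ))
      (n ^ κ) (n ^ μ) (c * n ^ τ) (c * n ^ σ) U d g R hg0 hR1 hd γ hg α χ hαd hχd hαR hχR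
      (fun j i => Nat.lt_succ_iff.mp (j.1 i).2) (fun j i => Nat.lt_succ_iff.mp (j.2 i).2) t s ht hs
      hsm (by
        -- size
        rw [hcardJ]
        obtain ⟨BD, hBD⟩ : ∃ B : ℝ, B = Bd w b l g R (n ^ κ) (n ^ μ) (c * n ^ τ) (c * n ^ σ) :=
          ⟨_, rfl⟩
        obtain ⟨DE, hDE⟩ : ∃ D : ℝ, D = (d : ℝ) ^ (w * n ^ κ + b * (l * ((c * n ^ σ) * n ^ μ))) :=
          ⟨_, rfl⟩
        obtain ⟨E1', hE1'⟩ : ∃ E : ℝ, E = E1 (n ^ κ + c * n ^ τ)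
          (((1 + b) * (1 : ℝ)) * ((1 + l) * 1) * (((n ^ μ : ℕ) : ℝ) * ((c * n ^ σ : ℕ) : ℝ))) :=
          ⟨_, rfl⟩
        have hE1'1 : 1 ≤ E1' := by rw [hE1']; exact E1_one_le _ _ (by positivity)
        rw [← hJc, ← hE1', pow_one, pow_one, ← hBD, ← hDE] at g2
        rw [← hBD, ← hDE]
        have hBD1 : 1 ≤ BD := by
          rw [hBD]; exact one_le_Bd w b l _ _ _ _ hg0 hR1
        have hDE1 : 1 ≤ DE := by
          rw [hDE]
          apply one_le_pow₀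
          exact_mod_cast hd
        have hJc0 : (0 : ℝ) < Jc := by
          have : 1 ≤ Jc := by
            rw [hJc]
            exact Nat.succ_le_of_lt (by positivity)
          exact_mod_cast this
        have hJc1 : (1 : ℝ) ≤ Jc := by
          have : 0 < Jc := by exact_mod_cast hJc0
          exact_mod_cast this
        obtain ⟨Y, hY⟩ : ∃ Y : ℝ, Y = DE * (Jc * BD) := ⟨_, rfl⟩
        have hY0 : 0 < Y := by rw [hY]; positivity
        have h1 : Y ≤ 2 * (Jc : ℝ) * ((((r + w : ℕ) : ℝ) + 2) * (2 * E1') ^ (r + w)) * DE *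
            (Jc * BD) := by
          have h2 : (1 : ℝ) ≤ 2 * (Jc : ℝ) * ((((r + w : ℕ) : ℝ) + 2) * (2 * E1') ^ (r + w)) := by
            have h3 : (1 : ℝ) ≤ (2 * E1') ^ (r + w) := one_le_pow₀ (by linarith)
            have h4 : (1 : ℝ) ≤ ((r + w : ℕ) : ℝ) + 2 := by
              have : (0 : ℝ) ≤ ((r + w : ℕ) : ℝ) := Nat.cast_nonneg _
              linarith
            have h5 : (1 : ℝ) ≤ (((r + w : ℕ) : ℝ) + 2) * (2 * E1') ^ (r + w) :=
              one_le_mul_of_one_le_of_one_le h4 h3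
            exact one_le_mul_of_one_le_of_one_le (by linarith) h5
          rw [hY]
          calc DE * (Jc * BD) = 1 * (DE * (Jc * BD)) := (one_mul _).symm
            _ ≤ (2 * (Jc : ℝ) * ((((r + w : ℕ) : ℝ) + 2) * (2 * E1') ^ (r + w))) *
                (DE * (Jc * BD)) := mul_le_mul_of_nonneg_right h2 (by positivity)
            _ = _ := by ring
        have h2 : Y ^ 2 < (p : ℝ) ^ U := by
          calc Y ^ 2 ≤ (2 * (Jc : ℝ) * ((((r + w : ℕ) : ℝ) + 2) * (2 * E1') ^ (r + w)) * DE *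
            (Jc * BD)) ^ 2 := pow_le_pow_left₀ hY0.le h1 2
            _ < 2 ^ U := g2
            _ ≤ (p : ℝ) ^ U := pow_le_pow_left₀ (by norm_num) (by exact_mod_cast hp.out.two_le) _
        have hPe : (P : ℝ) ^ 2 ≤ (p : ℝ) ^ U := by
          have h3 : (P : ℝ) ≤ (p : ℝ) ^ e := by
            have : P ≤ p ^ e := by omega
            exact_mod_cast this
          calc (P : ℝ) ^ 2 ≤ ((p : ℝ) ^ e) ^ 2 := pow_le_pow_left₀ (Nat.cast_nonneg _) h3 2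
            _ = (p : ℝ) ^ (e * 2) := by rw [← pow_mul]
            _ ≤ _ := pow_le_pow_right₀ (by exact_mod_cast hp1.le) (by omega)
        have h4 : (DE * (Jc * P * BD)) ^ 2 < ((p : ℝ) ^ U) ^ 2 := by
          have e1 : (DE * (Jc * P * BD)) ^ 2 = Y ^ 2 * (P : ℝ) ^ 2 := by rw [hY]; ring
          rw [e1]
          calc Y ^ 2 * (P : ℝ) ^ 2 ≤ Y ^ 2 * (p : ℝ) ^ U :=
                mul_le_mul_of_nonneg_left hPe (by positivity)
            _ < (p : ℝ) ^ U * (p : ℝ) ^ U := mul_lt_mul_of_pos_right h2 (by positivity)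
            _ = _ := by ring
        exact lt_of_pow_lt_pow_left₀ 2 (by positivity) h4)
    have hv' := congrArg (fun z : ℚ => (z : ℂ)) hv
    simp only [Rat.cast_zero] at hv'
    rw [← hv', Rat.cast_sum]
    refine Finset.sum_congr rfl fun j _ => ?_
    rw [Rat.cast_mul, Rat.cast_intCast]
    congr 1
    have h1 := entG_map (Rat.castHom ℂ) (fun i a => ((γ i a : ℤ) : ℚ)) α χ (fun i => (j.1 i : ℕ))
      (fun i => (j.2 i : ℕ)) t s
    refine Eq.trans ?_ h1.symm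
    simp
  obtain ⟨Af', Rm', W0, G0, -, h2, h3, h4, l', q', h5, h6, h7, h8⟩ :=
    key_ineq (Finset.univ : Finset (Fin w)) (fun i j => ((γ i j : ℤ) : ℂ))
      (fun i q => ((α i q : ℚ) : ℂ)) (fun j q => ((χ j q : ℚ) : ℂ)) zeg
      (fun j q => by exact_mod_cast hχ0 j q)
      (n ^ κ) (n ^ μ) (c' * n ^ τ) (c' * n ^ σ)
      (Nat.one_le_pow _ _ hnpos) (Nat.one_le_pow _ _ hnpos) (fun j => (cf j : ℂ))
      (fun j i => (j.1 i : ℕ)) (fun j i => (j.2 i : ℕ))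
      (fun j i hi => absurd (Finset.mem_univ i) hi)
      (by
        intro j j' h h'
        apply Prod.ext
        · funext i; exact Fin.ext (congrFun h i)
        · funext i; exact Fin.ext (congrFun h' i))
      (by
        intro h
        apply hcf0
        funext j
        have h5 : ((cf j : ℤ) : ℂ) = 0 := congrFun h j
        change cf j = 0
        exact_mod_cast h5)
      (fun j i => Nat.lt_succ_iff.mp (j.1 i).2)
      (fun j i => Nat.lt_succ_iff.mp (j.2 i).2)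
      (by
        intro t s ht hs
        rw [Finset.card_univ, Fintype.card_fin, ← hN] at ht hs
        apply hpv t s
        · intro i
          refine (ht i).trans ?_
          rw [hc]
          calc N * (c' * n ^ τ) ≤ (N + 1) * (c' * n ^ τ) := Nat.mul_le_mul_right _ (by omega)
            _ = _ := by ring
        · intro q
          refine (hs q).trans ?_
          rw [hc]
          calc N * (c' * n ^ σ) ≤ (N + 1) * (c' * n ^ σ) := Nat.mul_le_mul_right _ (by omega)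
            _ = _ := by ring)
  refine ⟨Af', Rm', W0, G0, h2, h3, fun s => ?_, ?_⟩
  · rw [h4 s]
    refine and_congr Iff.rfl (forall₂_congr fun m _ => ?_)
    have e : ∏ j, (∏ q, ((χ j q : ℚ) : ℂ) ^ s q) ^ m j =
        ((∏ j, (∏ q, χ j q ^ s q) ^ m j : ℚ) : ℂ) := by
      push_cast; rfl
    rw [e]
    exact_mod_cast Iff.rfl
  rw [Finset.card_univ, Fintype.card_fin, ← hN, ← hC] at h8
  have h9 : n ^ (l' * τ + q' * σ) ≤ C * n ^ (finrank ℂ Af' * κ + finrank ℤ Rm' * μ) := by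
    have e1 : (n ^ κ) ^ finrank ℂ Af' * (n ^ μ) ^ finrank ℤ Rm' =
        n ^ (finrank ℂ Af' * κ + finrank ℤ Rm' * μ) := by
      rw [← pow_mul, ← pow_mul, ← pow_add]; ring_nf
    rw [← e1]
    refine le_trans ?_ h8
    have e2 : n ^ (l' * τ + q' * σ) = (n ^ σ) ^ q' * (n ^ τ) ^ l' := by
      rw [← pow_mul, ← pow_mul, ← pow_add]; ring_nf
    rw [e2]
    apply Nat.mul_le_mul
    · apply Nat.pow_le_pow_left
      have : 1 ≤ c' := by rw [hc']; exact Nat.succ_le_of_lt (by positivity)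
      nlinarith [Nat.pow_pos (n := σ) hnpos]
    · rcases Nat.eq_zero_or_pos l' with h0 | h0
      · rw [h0, pow_zero, pow_zero]
      · apply Nat.pow_le_pow_left
        have h10 : n ^ τ ≤ c' * n ^ τ / l' := by
          rw [Nat.le_div_iff_mul_le h0]
          calc n ^ τ * l' ≤ n ^ τ * (w + 1) := Nat.mul_le_mul_left _ (by omega)
            _ = (w + 1) * 1 * n ^ τ := by ring
            _ ≤ (w + 1) * (C + 1) * n ^ τ := by gcongr; omega
            _ = _ := by rw [hc']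
        omega
  have h10 := arith_exp (by omega) h9
  have h11 : w - finrank ℂ W0 ≤ l' := by omega
  have h12 : l - finrank ℤ G0 ≤ q' := by omega
  have h13 : (w - finrank ℂ W0) * τ ≤ l' * τ := Nat.mul_le_mul_right _ h11
  have h14 : (l - finrank ℤ G0) * σ ≤ q' * σ := Nat.mul_le_mul_right _ h12
  omega

end Pool.Agent.L0h53.PQ
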