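import Mathlib
import Pool.Agent.L0h53.PQ.Obs
import Pool.Agent.L0h53.PS.Minor

set_option autoImplicit false

/-! Preparation: reduction to rational numbers close to `1`, with logarithms in `ℚ_p`. -/

namespace Pool.Agent.L0h53.PQ

open Finset Module Pool.Agent.W245.PB Pool.Agent.H301R2.TR Pool.Agent.L0h53.NP
  Pool.Agent.L0h53.PS

variable {p : ℕ} [hp : Fact p.Prime] {L : PadicAlgCl p → PadicAlgCl p}

theorem htLe_pow {H : ℝ} {x : ℚ} (h : HtLe H x) (n : ℕ) : HtLe (H ^ n) (x ^ n) := by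
  obtain ⟨h1, h2⟩ := h
  constructor
  · rw [Rat.num_pow]
    push_cast
    rw [abs_pow]
    exact pow_le_pow_left₀ (abs_nonneg _) h1 n
  · rw [Rat.den_pow]
    push_cast
    exact pow_le_pow_left₀ (Nat.cast_nonneg _) h2 n

theorem norm_alg (y : ℚ_[p]) : ‖algebraMap ℚ_[p] (PadicAlgCl p) y‖ = ‖y‖ := PadicAlgCl.norm_extends p y

theorem alg_rat (x : ℚ) : algebraMap ℚ_[p] (PadicAlgCl p) ((x : ℚ) : ℚ_[p]) = ((x : ℚ) : PadicAlgCl p) :=
  map_ratCast _ x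

/-- the exponential of the logarithm of a rational number close to `1` -/
theorem pe_log_rat (hL : IsIwasawaLog p L) {x : ℚ}
    (hx : ‖((x : ℚ) : PadicAlgCl p) - 1‖ * (p : ℝ) ^ 3 ≤ 1) {y : ℚ_[p]}
    (hy : algebraMap ℚ_[p] (PadicAlgCl p) y = L ((x : ℚ) : PadicAlgCl p)) :
    pe y = ((x : ℚ) : ℚ_[p]) := by
  have hx0 : ((x : ℚ) : PadicAlgCl p) ≠ 0 := ne_zero_of_near hL hx
  have hpow : ∀ n : ℕ, ‖((x : ℚ) : ℚ_[p]) ^ n - 1‖ = ‖((x : ℚ) : PadicAlgCl p) ^ n - 1‖ := by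
    intro n
    rw [← norm_alg, map_sub, map_pow, map_one, alg_rat]
  apply Pool.Agent.W245.PB.pe_log p
  · have := hpow 1
    rw [pow_one, pow_one] at this
    rw [this]
    exact hx
  · intro n
    rw [hpow, ← norm_alg, map_sub, map_mul, map_sub, map_pow, map_pow, map_one, map_natCast, hy,
      alg_rat]
    have h2 : (p : PadicAlgCl p) ^ n * L ((x : ℚ) : PadicAlgCl p) =
        L (((x : ℚ) : PadicAlgCl p) ^ (p ^ n)) := by
      rw [hL.pow hx0]; push_cast; rfl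
    rw [h2]
    have h5 := hL.approx (near_pow hx (p ^ n))
    rwa [add_sub_cancel] at h5

/-- **Reduction to numbers close to `1`.** -/
theorem prep (hL : IsIwasawaLog p L) {z : ℚ} (hz : z ≠ 0) {H : ℝ} (hH : 3 ≤ H)
    (hzH : HtLe H z) : ∃ (z' : ℚ) (y : ℚ_[p]), 0 < z' ∧ HtLe (H ^ (p ^ 4)) z' ∧
      ‖((z' : ℚ) : PadicAlgCl p) - 1‖ * (p : ℝ) ^ 3 ≤ 1 ∧
      algebraMap ℚ_[p] (PadicAlgCl p) y = L ((z' : ℚ) : PadicAlgCl p) ∧
      L ((z' : ℚ) : PadicAlgCl p) = ((p ^ 3 * (p - 1) : ℕ) : PadicAlgCl p) *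
        L ((z : ℚ) : PadicAlgCl p) ∧
      ‖y‖ * (p : ℝ) ^ 3 ≤ 1 ∧ pe y = ((z' : ℚ) : ℚ_[p]) := by
  obtain ⟨r', h1, h2, h3, h4⟩ := reduce hL hz hH hzH
  have hr0 : ((r' : ℚ) : PadicAlgCl p) ≠ 0 := by exact_mod_cast h1.ne'
  have h5 : ‖((r' ^ p : ℚ) : PadicAlgCl p) - 1‖ * (p : ℝ) ^ 3 ≤ 1 := by
    push_cast
    exact near_pow h3 p
  obtain ⟨y, hy⟩ := log_mem hL (r' ^ p) h5
  refine ⟨r' ^ p, y, pow_pos h1 p, ?_, h5, hy, ?_, ?_, pe_log_rat hL h5 hy⟩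
  · have := htLe_pow h2 p
    rwa [← pow_mul, show p ^ 3 * p = p ^ 4 by ring] at this
  · have h6 : ((r' ^ p : ℚ) : PadicAlgCl p) = ((r' : ℚ) : PadicAlgCl p) ^ p := by push_cast; rfl
    rw [h6, hL.pow hr0, h4]
    have h7 : (p ^ 3 * (p - 1) : ℕ) = p * (p ^ 2 * (p - 1)) := by ring
    rw [h7]
    push_cast
    ring
  · rw [← norm_alg, hy]
    exact hL.small h5

theorem intD_of_den {x : ℚ} {dd : ℕ} (h : x.den ∣ dd) : IntD dd 1 x := by
  obtain ⟨c, rfl⟩ := h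
  unfold IntD
  have e : (((x.den * c : ℕ) : ℚ)) ^ 1 * x = (((c : ℤ) * x.num : ℤ) : ℚ) := by
    have := Rat.mul_den_eq_num x
    push_cast
    rw [pow_one]
    linear_combination (c : ℚ) * this
  rw [e]
  have := isIntegral_algebraMap (R := ℤ) (A := ℚ) (x := (c : ℤ) * x.num)
  simpa using this

theorem htLe_norm {H : ℝ} {x : ℚ} (h : HtLe H x) : ‖((x : ℚ) : ℂ)‖ ≤ H := by
  obtain ⟨h1, h2⟩ := h
  have e : ((x : ℚ) : ℂ) = ((x : ℝ) : ℂ) := by push_cast; rfl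
  rw [e, Complex.norm_real, Real.norm_eq_abs]
  have h3 : (1 : ℝ) ≤ x.den := by exact_mod_cast x.pos
  have h4 : |(x : ℝ)| * x.den = |(x.num : ℝ)| := by
    have h5 : ((x : ℚ) : ℝ) * x.den = x.num := by
      have := Rat.mul_den_eq_num x
      exact_mod_cast this
    rw [← h5, abs_mul, Nat.abs_cast]
  have h5 : |(x : ℝ)| ≤ |(x : ℝ)| * x.den := le_mul_of_one_le_right (abs_nonneg _) h3
  linarith

end Pool.Agent.L0h53.PQ
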