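import Mathlib
import Pool.Agent.L0h53.PQ.Prep
import Pool.Agent.L0h53.PQ.Lin

set_option autoImplicit false

/-! Matrices of `p`-adic logarithms with small minors: the obstruction subgroup. -/

namespace Pool.Agent.L0h53.PQ

open Finset Module Pool.Agent.W245.PB Pool.Agent.H301R2.TR Pool.Agent.L0h53.NP
  Pool.Agent.L0h53.PS

/-- the choice of `n` -/
theorem choose_nP (a k : ℕ) (ha : 1 ≤ a) (κ'' κ' : ℝ) (hκ'' : (k : ℝ) / a ≤ κ'') (hκ' : κ'' < κ')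
    (C1 : ℝ) (hC1 : 0 < C1) (n0 : ℕ) (K : ℝ) (hK : 0 ≤ K) (r : ℕ) :
    ∃ C : ℝ, 0 < C ∧ ∀ (p : ℕ) [Fact p.Prime], ∀ H : ℝ, 3 ≤ H → ∃ n : ℕ, n0 ≤ n ∧ 1 ≤ n ∧
      C1 * (K * ((p : ℝ) ^ 4 * Real.log H)) ≤ (n : ℝ) ^ a ∧
      Real.exp (-(C * ((p : ℝ) ^ 4 * Real.log H) ^ κ')) ≤
        ((p : ℝ) ^ (-((n ^ k : ℕ) : ℤ))) ^ (r + 1) := by
  obtain ⟨C, hC, hmain⟩ := choose_nU a k ha κ'' hκ'' C1 hC1 n0 K hK
  obtain ⟨ε, hε⟩ : ∃ ε, ε = κ' - κ'' := ⟨_, rfl⟩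
  have hε0 : 0 < ε := by rw [hε]; linarith
  refine ⟨C * (r + 1) / ε, by positivity, ?_⟩
  intro p hp H hH
  have hp2 : (2 : ℝ) ≤ p := by exact_mod_cast hp.out.two_le
  have hp0 : (0 : ℝ) < p := by linarith
  have hlog : 1 ≤ Real.log H := by
    rw [Real.le_log_iff_exp_le (by linarith)]
    have := Real.exp_one_lt_d9
    linarith
  obtain ⟨Y, hY⟩ : ∃ Y, Y = (p : ℝ) ^ 4 * Real.log H := ⟨_, rfl⟩
  have hp4 : (16 : ℝ) ≤ (p : ℝ) ^ 4 := by
    calc (16 : ℝ) = 2 ^ 4 := by norm_num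
      _ ≤ _ := pow_le_pow_left₀ (by norm_num) hp2 4
  have hY16 : 16 ≤ Y := by rw [hY]; nlinarith
  have hpY : (p : ℝ) ≤ Y := by
    have h1 : (p : ℝ) ≤ (p : ℝ) ^ 4 := by
      calc (p : ℝ) = (p : ℝ) ^ 1 := (pow_one _).symm
        _ ≤ _ := pow_le_pow_right₀ (by linarith) (by norm_num)
    rw [hY]; nlinarith
  obtain ⟨n, h1, h2, h3, h4⟩ := hmain (Real.exp Y) (by
    have := Real.add_one_le_exp Y
    linarith)
  rw [Real.log_exp] at h3 h4
  rw [← hY]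
  refine ⟨n, h1, h2, h3, ?_⟩
  obtain ⟨U, hU⟩ : ∃ U : ℕ, U = n ^ k := ⟨_, rfl⟩
  rw [← hU] at h4 ⊢
  -- `U ≤ C Y ^ κ''`
  have h5 : (U : ℝ) ≤ C * Y ^ κ'' := by
    have e1 : ((1 / 4 : ℝ)) ^ U = Real.exp (-(U * Real.log 4)) := by
      rw [Real.exp_neg, Real.exp_nat_mul, Real.exp_log (by norm_num), one_div, inv_pow]
    rw [e1, Real.exp_le_exp] at h4
    have h6 : (1 : ℝ) ≤ Real.log 4 := by
      rw [Real.le_log_iff_exp_le (by norm_num)]
      have := Real.exp_one_lt_d9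
      linarith
    have h7 : (0 : ℝ) ≤ U := Nat.cast_nonneg _
    nlinarith
  have h6 : Real.log p ≤ Y ^ ε / ε := by
    have h7 : Real.log p ≤ Real.log Y := Real.log_le_log hp0 hpY
    exact h7.trans (Real.log_le_rpow_div (by linarith) hε0)
  have e2 : ((p : ℝ) ^ (-(U : ℤ))) ^ (r + 1) = Real.exp (-(((r : ℝ) + 1) * (U * Real.log p))) := by
    have e3 : (p : ℝ) ^ (-(U : ℤ)) = Real.exp (-(U * Real.log p)) := by
      rw [zpow_neg, zpow_natCast, Real.exp_neg, Real.exp_nat_mul, Real.exp_log hp0]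
    rw [e3, ← Real.exp_nat_mul]
    congr 1
    push_cast
    ring
  rw [e2, Real.exp_le_exp]
  have hlogp : 0 ≤ Real.log p := Real.log_nonneg (by linarith)
  have hYκ : 0 ≤ Y ^ κ'' := Real.rpow_nonneg (by linarith) _
  have e4 : Y ^ κ' = Y ^ κ'' * Y ^ ε := by
    rw [← Real.rpow_add (by linarith)]
    congr 1
    rw [hε]; ring
  have h8 : (U : ℝ) * Real.log p ≤ C * Y ^ κ'' * (Y ^ ε / ε) :=
    mul_le_mul h5 h6 hlogp (by positivity)
  have h9 : ((r : ℝ) + 1) * (U * Real.log p) ≤ ((r : ℝ) + 1) * (C * Y ^ κ'' * (Y ^ ε / ε)) :=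
    mul_le_mul_of_nonneg_left h8 (by positivity)
  have h10 : ((r : ℝ) + 1) * (C * Y ^ κ'' * (Y ^ ε / ε)) = C * (r + 1) / ε * Y ^ κ' := by
    rw [e4]; ring
  linarith

theorem core_p (w d l r : ℕ) (γ : Fin w → Fin d → ℤ) (κ μ σ τ a : ℕ)
    (hκ : μ + σ = κ) (hτ : τ + 1 = κ + a) (ha : 1 ≤ a)
    (hcount : (κ + a) * (r + w) + 1 ≤ w * κ + d * μ) (κ'' κ' : ℝ)
    (hr : ((κ + a : ℕ) : ℝ) / a ≤ κ'') (hκ' : κ'' < κ') :
    ∃ C : ℝ, 0 < C ∧ ∀ (p : ℕ) [Fact p.Prime] (L : PadicAlgCl p → PadicAlgCl p),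
      IsIwasawaLog p L → ∀ H : ℝ, 3 ≤ H → ∀ (z : Fin d → Fin l → ℚ) (β : Fin w → Fin l → ℚ),
      (∀ j q, z j q ≠ 0) → (∀ j q, HtLe H (z j q)) → (∀ i q, HtLe H (β i q)) →
      (∀ i q, ‖((β i q : ℚ) : ℚ_[p])‖ ≤ 1) →
      (∀ (e : Fin (r + 1) → Fin d) (f : Fin (r + 1) → Fin l),
        ‖((Matrix.of fun j q => L ((z j q : ℚ) : PadicAlgCl p) -
          ∑ i, ((γ i j : ℤ) : PadicAlgCl p) * ((β i q : ℚ) : PadicAlgCl p)).submatrix e f).det‖ ≤
          Real.exp (-(C * ((p : ℝ) ^ 4 * Real.log H) ^ κ'))) →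
      ∃ (Af : Submodule ℂ (Fin w → ℂ)) (Rm : AddSubgroup (Fin d → ℤ))
        (W0 : Submodule ℂ (Fin w → ℂ)) (G0 : AddSubgroup (Fin l → ℤ)),
        ¬ (Af = ⊥ ∧ Rm = ⊥) ∧
        (∀ c, c ∈ W0 ↔ (∀ b ∈ Af, ∑ i, b i * c i = 0) ∧
          ∀ m ∈ Rm, ∑ j, (m j : ℂ) * ∑ i, c i * ((γ i j : ℤ) : ℂ) = 0) ∧
        (∀ s, s ∈ G0 ↔ (∀ b ∈ Af, ∑ i, b i * ∑ q, ((β i q : ℚ) : ℂ) * (s q : ℂ) = 0) ∧
          ∀ m ∈ Rm, ∑ j, ∑ q, (m j : PadicAlgCl p) * (s q : PadicAlgCl p) *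
            L ((z j q : ℚ) : PadicAlgCl p) = 0) ∧
        (w - finrank ℂ W0) * τ + (l - finrank ℤ G0) * σ ≤
          finrank ℂ Af * κ + finrank ℤ Rm * μ := by
  classical
  obtain ⟨c2, hc2⟩ : ∃ c2 : ℝ, c2 = ((d * l + w * l : ℕ) : ℝ) + 2 := ⟨_, rfl⟩
  have hc21 : 1 ≤ c2 := by
    have : (0 : ℝ) ≤ ((d * l + w * l : ℕ) : ℝ) := Nat.cast_nonneg _
    linarith
  obtain ⟨C1, hC1, n0, hmain⟩ := obstructionP (l := l) (r := r) γ κ μ σ τ a hκ hτ ha hcount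
  obtain ⟨C, hC, hCn⟩ := choose_nP a (κ + a) ha κ'' κ' hr hκ' C1 hC1 (max n0 3) c2 (by linarith) r
  refine ⟨C, hC, ?_⟩
  intro p hp L hL H hH z β hz0 hzH hβH hβp hminor
  obtain ⟨n, hn0, hn1, hnΛ, hnε⟩ := hCn p H hH
  have hn0' : n0 ≤ n := (le_max_left _ _).trans hn0
  have hn3 : 3 ≤ n := (le_max_right _ _).trans hn0
  have hp2 : (2 : ℝ) ≤ p := by exact_mod_cast hp.out.two_le
  have hp0 : (0 : ℝ) < p := by linarith
  have hlog : 1 ≤ Real.log H := by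
    rw [Real.le_log_iff_exp_le (by linarith)]
    have := Real.exp_one_lt_d9
    linarith
  obtain ⟨Y, hY⟩ : ∃ Y, Y = (p : ℝ) ^ 4 * Real.log H := ⟨_, rfl⟩
  rw [← hY] at hnΛ hnε hminor
  have hp4 : (16 : ℝ) ≤ (p : ℝ) ^ 4 := by
    calc (16 : ℝ) = 2 ^ 4 := by norm_num
      _ ≤ _ := pow_le_pow_left₀ (by norm_num) hp2 4
  have hY16 : 16 ≤ Y := by rw [hY]; nlinarith
  have hlogY : Real.log H ≤ Y := by rw [hY]; nlinarith
  have hHY : H ^ (p ^ 4) = Real.exp Y := by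
    rw [hY]
    have : ((p : ℝ) ^ 4) = ((p ^ 4 : ℕ) : ℝ) := by push_cast; rfl
    rw [this, Real.exp_nat_mul, Real.exp_log (by linarith)]
  have hHle : H ≤ Real.exp Y := by
    calc H = Real.exp (Real.log H) := (Real.exp_log (by linarith)).symm
      _ ≤ _ := Real.exp_le_exp.mpr hlogY
  obtain ⟨Q, hQ⟩ : ∃ Q : ℕ, Q = p ^ 3 * (p - 1) := ⟨_, rfl⟩
  have hQp : Q ≤ p ^ 4 := by
    rw [hQ]
    calc p ^ 3 * (p - 1) ≤ p ^ 3 * p := Nat.mul_le_mul_left _ (Nat.sub_le _ _)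
      _ = p ^ 4 := by ring
  have hQpos : 0 < Q := by
    rw [hQ]
    have h1 := hp.out.one_lt
    have h2 : 0 < p ^ 3 := Nat.pow_pos hp.out.pos
    have h3 : 0 < p - 1 := by omega
    positivity
  have hQR : (Q : ℝ) ≤ Real.exp Y := by
    calc (Q : ℝ) ≤ ((p ^ 4 : ℕ) : ℝ) := by exact_mod_cast hQp
      _ = (p : ℝ) ^ 4 := by push_cast; rfl
      _ ≤ Y := by rw [hY]; nlinarith
      _ ≤ Real.exp Y := by have := Real.add_one_le_exp Y; linarith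
  have hQnorm : ‖((Q : ℕ) : ℚ_[p])‖ ≤ ((p : ℝ) ^ 3)⁻¹ := by
    rw [hQ]
    push_cast
    rw [norm_mul, norm_pow, Padic.norm_p]
    have h1 : ‖((p - 1 : ℕ) : ℚ_[p])‖ ≤ 1 := IsUltrametricDist.norm_natCast_le_one _ _
    calc (p : ℝ)⁻¹ ^ 3 * ‖((p - 1 : ℕ) : ℚ_[p])‖ ≤ (p : ℝ)⁻¹ ^ 3 * 1 :=
          mul_le_mul_of_nonneg_left h1 (by positivity)
      _ = _ := by rw [mul_one, inv_pow]
  choose z' y' hz'0 hz'H hz'near hy' hLz' hy'small hpey' using fun j q => prep hL (hz0 j q) hH (hzH j q)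
  rw [← hQ] at hLz'
  -- the rational part
  let α : Fin w → Fin l → ℚ := fun i q => (Q : ℚ) * β i q
  have hαp : ∀ i q, ‖((α i q : ℚ) : ℚ_[p])‖ * (p : ℝ) ^ 3 ≤ 1 := by
    intro i q
    change ‖(((Q : ℚ) * β i q : ℚ) : ℚ_[p])‖ * (p : ℝ) ^ 3 ≤ 1
    push_cast
    rw [norm_mul]
    calc ‖((Q : ℕ) : ℚ_[p])‖ * ‖((β i q : ℚ) : ℚ_[p])‖ * (p : ℝ) ^ 3 ≤
        ((p : ℝ) ^ 3)⁻¹ * 1 * (p : ℝ) ^ 3 := by
          apply mul_le_mul_of_nonneg_right _ (by positivity)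
          exact mul_le_mul hQnorm (hβp i q) (norm_nonneg _) (by positivity)
      _ = 1 := by rw [mul_one, inv_mul_cancel₀ (by positivity)]
  -- the matrix over `ℚ_p`
  let M : Matrix (Fin d) (Fin l) ℚ_[p] := Matrix.of fun j q =>
    y' j q - ∑ i, ((γ i j : ℤ) : ℚ_[p]) * ((α i q : ℚ) : ℚ_[p])
  have hMentry : ∀ j q, algebraMap ℚ_[p] (PadicAlgCl p) (M j q) = ((Q : ℕ) : PadicAlgCl p) *
      (L ((z j q : ℚ) : PadicAlgCl p) -
          ∑ i, ((γ i j : ℤ) : PadicAlgCl p) * ((β i q : ℚ) : PadicAlgCl p)) := by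
    intro j q
    change algebraMap ℚ_[p] (PadicAlgCl p) (y' j q - ∑ i, ((γ i j : ℤ) : ℚ_[p]) *
      (((Q : ℚ) * β i q : ℚ) : ℚ_[p])) = _
    rw [map_sub, hy', hLz', map_sum, mul_sub, Finset.mul_sum]
    congr 1
    refine Finset.sum_congr rfl fun i _ => ?_
    rw [map_mul, map_intCast, alg_rat]
    push_cast
    ring
  obtain ⟨U, hU⟩ : ∃ U : ℕ, U = n ^ (κ + a) := ⟨_, rfl⟩
  have hU3 : 3 ≤ U := by
    rw [hU]
    calc 3 ≤ n := hn3
      _ = n ^ 1 := (pow_one n).symm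
      _ ≤ _ := Nat.pow_le_pow_right (by omega) (by omega)
  rw [← hU] at hnε
  obtain ⟨δ, hδ⟩ : ∃ δ : ℝ, δ = (p : ℝ) ^ (-(U : ℤ)) := ⟨_, rfl⟩
  have hδ0 : 0 ≤ δ := by rw [hδ]; positivity
  have hδp : δ * (p : ℝ) ^ 3 ≤ 1 := by
    have h1 : (p : ℝ) ^ (-(U : ℤ)) ≤ (p : ℝ) ^ (-((3 : ℕ) : ℤ)) := zpow_anti hU3
    have h2 : (p : ℝ) ^ (-((3 : ℕ) : ℤ)) = ((p : ℝ) ^ 3)⁻¹ := by rw [zpow_neg, zpow_natCast]
    rw [hδ]
    calc (p : ℝ) ^ (-(U : ℤ)) * (p : ℝ) ^ 3 ≤ ((p : ℝ) ^ 3)⁻¹ * (p : ℝ) ^ 3 := by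
          apply mul_le_mul_of_nonneg_right _ (by positivity)
          rw [← h2]; exact h1
      _ = 1 := inv_mul_cancel₀ (by positivity)
  rw [← hδ] at hnε
  have hMminor : ∀ (e : Fin (r + 1) → Fin d) (f : Fin (r + 1) → Fin l),
      ‖(M.submatrix e f).det‖ ≤ δ ^ (r + 1) := by
    intro e f
    have h1 := hminor e f
    rw [← norm_alg]
    have h2 : algebraMap ℚ_[p] (PadicAlgCl p) (M.submatrix e f).det =
        ((Q : ℕ) : PadicAlgCl p) ^ (r + 1) *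
        ((Matrix.of fun j q => L ((z j q : ℚ) : PadicAlgCl p) -
          ∑ i, ((γ i j : ℤ) : PadicAlgCl p) * ((β i q : ℚ) : PadicAlgCl p)).submatrix e f).det := by
      rw [RingHom.map_det]
      have h3 := Matrix.det_smul ((Matrix.of fun j q => L ((z j q : ℚ) : PadicAlgCl p) -
          ∑ i, ((γ i j : ℤ) : PadicAlgCl p) * ((β i q : ℚ) : PadicAlgCl p)).submatrix e f)
          ((Q : ℕ) : PadicAlgCl p)
      rw [Fintype.card_fin] at h3
      rw [← h3]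
      congr 1
      ext a b
      exact hMentry (e a) (f b)
    rw [h2, norm_mul, norm_pow]
    have h4 : ‖((Q : ℕ) : PadicAlgCl p)‖ ≤ 1 := IsUltrametricDist.norm_natCast_le_one _ _
    calc _ ≤ 1 * Real.exp (-(C * Y ^ κ')) :=
          mul_le_mul (pow_le_one₀ (norm_nonneg _) h4) h1 (norm_nonneg _) zero_le_one
      _ ≤ _ := by rw [one_mul]; exact hnε
  obtain ⟨N, hNr, hNM⟩ := minor_rank M δ hδ0 hMminor
  -- the size of `N`
  have hγle : ∀ i j, ‖((γ i j : ℤ) : ℚ_[p])‖ ≤ 1 := fun i j => Padic.norm_int_le_one _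
  have hMsmall : ∀ j q, ‖M j q‖ * (p : ℝ) ^ 3 ≤ 1 := by
    intro j q
    change ‖y' j q - ∑ i, ((γ i j : ℤ) : ℚ_[p]) * ((α i q : ℚ) : ℚ_[p])‖ * (p : ℝ) ^ 3 ≤ 1
    rw [sub_eq_add_neg]
    apply norm_sum_small p (hy'small j q)
    rw [norm_neg]
    exact norm_fsum_small p _ _ fun i _ => norm_mul_small p (hγle i j) (hαp i q)
  have hp3 : (0 : ℝ) < (p : ℝ) ^ 3 := by positivity
  have hNsmall : ∀ j q, ‖N j q‖ ≤ ((p : ℝ) ^ 3)⁻¹ := by
    intro j q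
    have e : N j q = M j q + -(M j q - N j q) := by ring
    rw [e, ← one_div, le_div_iff₀ hp3]
    apply norm_sum_small p (hMsmall j q)
    rw [norm_neg]
    exact (mul_le_mul_of_nonneg_right (hNM j q) hp3.le).trans hδp
  obtain ⟨x0, y0, hx0, hy0, hxy0⟩ := factorE N r hNr _ (by positivity) hNsmall
  have hy0s : ∀ ρ q, ‖y0 ρ q‖ * (p : ℝ) ^ 3 ≤ 1 := by
    intro ρ q
    calc ‖y0 ρ q‖ * (p : ℝ) ^ 3 ≤ ((p : ℝ) ^ 3)⁻¹ * (p : ℝ) ^ 3 :=
          mul_le_mul_of_nonneg_right (hy0 ρ q) hp3.le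
      _ = 1 := inv_mul_cancel₀ hp3.ne'
  -- natural approximations
  have happr : ∀ ρ j, ∃ t : ℕ, ‖x0 ρ j - (t : ℚ_[p])‖ ≤ δ := by
    intro ρ j
    let t : ℤ_[p] := ⟨x0 ρ j, hx0 ρ j⟩
    have h1 := PadicInt.appr_spec U t
    rw [← PadicInt.norm_le_pow_iff_mem_span_pow] at h1
    refine ⟨t.appr U, ?_⟩
    rw [PadicInt.norm_def] at h1
    push_cast at h1
    rw [hδ]
    exact h1
  choose x hx using happr
  -- denominators
  let dd : ℕ := (∏ j, ∏ q, (z' j q).den) * ∏ i, ∏ q, (β i q).den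
  have hdd0 : 0 < dd := Nat.mul_pos (Finset.prod_pos fun j _ => Finset.prod_pos fun q _ => (z' j q).pos)
    (Finset.prod_pos fun j _ => Finset.prod_pos fun q _ => (β j q).pos)
  have hzdd : ∀ j q, (z' j q).den ∣ dd := fun j q =>
    ((Finset.dvd_prod_of_mem (fun q => (z' j q).den) (Finset.mem_univ q)).trans
      (Finset.dvd_prod_of_mem (fun j => ∏ q, (z' j q).den) (Finset.mem_univ j))).trans
      (Dvd.intro _ rfl)
  have hβdd : ∀ i q, (β i q).den ∣ dd := fun i q =>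
    ((Finset.dvd_prod_of_mem (fun q => (β i q).den) (Finset.mem_univ q)).trans
      (Finset.dvd_prod_of_mem (fun i => ∏ q, (β i q).den) (Finset.mem_univ i))).trans
      (Dvd.intro_left _ rfl)
  have hddle : (dd : ℝ) ≤ Real.exp (((d * l + w * l : ℕ) : ℝ) * Y) := by
    have h1 : ((∏ j, ∏ q, (z' j q).den : ℕ) : ℝ) ≤ Real.exp Y ^ (d * l) := by
      push_cast
      calc ∏ j, ∏ q, ((z' j q).den : ℝ) ≤ ∏ _j : Fin d, ∏ _q : Fin l, Real.exp Y :=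
            Finset.prod_le_prod (fun j _ => by positivity) fun j _ =>
              Finset.prod_le_prod (fun q _ => by positivity) fun q _ => by
                rw [← hHY]; exact (hz'H j q).2
        _ = _ := by
            simp only [Finset.prod_const, Finset.card_univ, Fintype.card_fin]
            rw [← pow_mul, mul_comm]
    have h2 : ((∏ i, ∏ q, (β i q).den : ℕ) : ℝ) ≤ Real.exp Y ^ (w * l) := by
      push_cast
      calc ∏ j, ∏ q, ((β j q).den : ℝ) ≤ ∏ _j : Fin w, ∏ _q : Fin l, Real.exp Y :=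
            Finset.prod_le_prod (fun j _ => by positivity) fun j _ =>
              Finset.prod_le_prod (fun q _ => by positivity) fun q _ =>
                (hβH j q).2.trans hHle
        _ = _ := by
            simp only [Finset.prod_const, Finset.card_univ, Fintype.card_fin]
            rw [← pow_mul, mul_comm]
    calc (dd : ℝ) = ((∏ j, ∏ q, (z' j q).den : ℕ) : ℝ) * ((∏ i, ∏ q, (β i q).den : ℕ) : ℝ) := by
          change (((∏ j, ∏ q, (z' j q).den) * ∏ i, ∏ q, (β i q).den : ℕ) : ℝ) = _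
          push_cast; rfl
      _ ≤ Real.exp Y ^ (d * l) * Real.exp Y ^ (w * l) :=
          mul_le_mul h1 h2 (Nat.cast_nonneg _) (by positivity)
      _ = _ := by rw [← pow_add, ← Real.exp_nat_mul]
  have hQne : (Q : ℚ) ≠ 0 := by exact_mod_cast hQpos.ne'
  have hexp2 : Real.exp Y ≤ Real.exp (2 * Y) := Real.exp_le_exp.mpr (by linarith)
  obtain ⟨Af, Rm, W0, G0, q1, q2, q3, q4⟩ := hmain n hn0' p α z' x y0 y' (c2 * Y)
    (Real.exp (2 * Y)) dd hnΛ (by nlinarith) (Real.one_le_exp (by linarith))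
    (Real.exp_le_exp.mpr (by
      rw [hc2]
      have : 0 ≤ ((d * l + w * l : ℕ) : ℝ) * Y := by positivity
      linarith)) hdd0 (hddle.trans (Real.exp_le_exp.mpr (by rw [hc2]; nlinarith)))
    (fun i q => by
      have h1 := intD_of_den (hβdd i q)
      have h2 : IntD dd 0 ((Q : ℕ) : ℚ) := IntD.of_int (by
        have := isIntegral_algebraMap (R := ℤ) (A := ℚ) (x := (Q : ℤ))
        simpa using this)
      have h3 := h2.mul h1
      rw [zero_add] at h3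
      exact h3)
    (fun j q => intD_of_den (hzdd j q))
    (fun i q => by
      change ‖(((Q : ℚ) * β i q : ℚ) : ℂ)‖ ≤ _
      push_cast
      rw [norm_mul, Complex.norm_natCast]
      calc (Q : ℝ) * ‖((β i q : ℚ) : ℂ)‖ ≤ Real.exp Y * Real.exp Y :=
            mul_le_mul hQR ((htLe_norm (hβH i q)).trans hHle) (norm_nonneg _) (Real.exp_pos _).le
        _ = _ := by rw [← Real.exp_add]; ring_nf)
    (fun j q => by
      have := htLe_norm (hz'H j q)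
      rw [hHY] at this
      exact this.trans hexp2)
    hαp hy0s hy'small hpey'
    (fun j q => by
      rw [← hU, ← hδ]
      have e : y' j q - (∑ ρ, (x ρ j : ℚ_[p]) * y0 ρ q +
          ∑ i, ((γ i j : ℤ) : ℚ_[p]) * ((α i q : ℚ) : ℚ_[p])) =
          (M j q - N j q) + ∑ ρ, (x0 ρ j - (x ρ j : ℚ_[p])) * y0 ρ q := by
        rw [hxy0 j q]
        change _ = (y' j q - ∑ i, ((γ i j : ℤ) : ℚ_[p]) * ((α i q : ℚ) : ℚ_[p]) - _) + _
        simp only [sub_mul, Finset.sum_sub_distrib]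
        ring
      rw [e]
      refine (IsUltrametricDist.norm_add_le_max _ _).trans (max_le (hNM j q) ?_)
      apply norm_sum_le' _ _ hδ0
      intro ρ _
      rw [norm_mul]
      calc _ ≤ δ * 1 := mul_le_mul (hx ρ j) (small_le_one (hy0s ρ q)) (norm_nonneg _) hδ0
        _ = δ := mul_one _)
    (fun j q => (hz'0 j q).ne')
  refine ⟨Af, Rm, W0, G0, q1, q2, fun s => ?_, q4⟩
  rw [q3 s]
  refine and_congr ?_ ?_
  · refine forall₂_congr fun b _ => ?_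
    have e : ∑ i, b i * ∑ q, ((α i q : ℚ) : ℂ) * (s q : ℂ) =
        (Q : ℂ) * ∑ i, b i * ∑ q, ((β i q : ℚ) : ℂ) * (s q : ℂ) := by
      simp only [Finset.mul_sum]
      refine Finset.sum_congr rfl fun i _ => Finset.sum_congr rfl fun q _ => ?_
      change b i * ((((Q : ℚ) * β i q : ℚ) : ℂ) * (s q : ℂ)) = _
      push_cast
      ring
    rw [e]
    have hQC : (Q : ℂ) ≠ 0 := by exact_mod_cast hQpos.ne'
    constructor
    · intro h
      exact (mul_eq_zero.mp h).resolve_left hQC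
    · intro h
      rw [h, mul_zero]
  · refine forall₂_congr fun m _ => ?_
    have hz'ne : ∀ j q, ((z' j q : ℚ) : PadicAlgCl p) ≠ 0 := fun j q => by
      exact_mod_cast (hz'0 j q).ne'
    have hQL : ((Q : ℕ) : PadicAlgCl p) ≠ 0 := by exact_mod_cast hQpos.ne'
    have hnear : ‖∏ j, (∏ q, ((z' j q : ℚ) : PadicAlgCl p) ^ s q) ^ m j - 1‖ * (p : ℝ) ^ 3 ≤ 1 :=
      near_prod _ _ fun j _ => near_zpow (near_prod _ _ fun q _ => near_zpow (hz'near j q) _) _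
    have hLprod : L (∏ j, (∏ q, ((z' j q : ℚ) : PadicAlgCl p) ^ s q) ^ m j) =
        ((Q : ℕ) : PadicAlgCl p) * ∑ j, ∑ q, (m j : PadicAlgCl p) * (s q : PadicAlgCl p) *
            L ((z j q : ℚ) : PadicAlgCl p) := by
      have hne1 : ∀ j, ∏ q, ((z' j q : ℚ) : PadicAlgCl p) ^ s q ≠ 0 := fun j =>
        Finset.prod_ne_zero_iff.mpr fun q _ => zpow_ne_zero _ (hz'ne j q)
      rw [hL.prod _ _ fun j _ => zpow_ne_zero _ (hne1 j), Finset.mul_sum]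
      refine Finset.sum_congr rfl fun j _ => ?_
      rw [hL.zpow (hne1 j), hL.prod _ _ fun q _ => zpow_ne_zero _ (hz'ne j q), Finset.mul_sum,
        Finset.mul_sum]
      refine Finset.sum_congr rfl fun q _ => ?_
      rw [hL.zpow (hz'ne j q), hLz']
      ring
    constructor
    · intro h
      have h1 : ∏ j, (∏ q, ((z' j q : ℚ) : PadicAlgCl p) ^ s q) ^ m j = 1 := by
        have := congrArg (fun x : ℚ => (x : PadicAlgCl p)) h
        push_cast at this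
        exact this
      rw [h1, hL.one] at hLprod
      exact (mul_eq_zero.mp hLprod.symm).resolve_left hQL
    · intro h
      rw [h, mul_zero] at hLprod
      have h1 := hL.eq_one hnear hLprod
      have h2 : ((∏ j, (∏ q, z' j q ^ s q) ^ m j : ℚ) : PadicAlgCl p) = ((1 : ℚ) : PadicAlgCl p) := by
        push_cast
        exact h1
      exact_mod_cast h2

end Pool.Agent.L0h53.PQ
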