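import Mathlib
import Pool.Agent.L0h53.PQ.Core
import Pool.Agent.L0h53.RK.Lin
import Pool.Agent.L0h53.RK.Params
import Pool.Agent.L0h53.NP.PiCases

set_option autoImplicit false

/-! Matrices of `p`-adic logarithms of rational numbers have large minors. -/

namespace Pool.Agent.L0h53.PQ

open Finset Module Pool.Agent.W245.PB Pool.Agent.L0h53.NP Pool.Agent.L0h39.QA
  Pool.Agent.L0h53.RK

/-- **Logarithms.** -/
theorem pure_p (d l r : ℕ) (h : r * (d + l) < d * l) (κ' : ℝ)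
    (hκ : (d * l : ℝ) / (d * l - r * (d + l)) < κ') :
    ∃ C : ℝ, 0 < C ∧ ∀ (p : ℕ) [Fact p.Prime] (L : PadicAlgCl p → PadicAlgCl p),
      IsIwasawaLog p L → ∀ H : ℝ, 3 ≤ H → ∀ (z : Fin d → Fin l → ℚ),
      (∀ j q, z j q ≠ 0) → (∀ j q, HtLe H (z j q)) →
      (∀ (e : Fin (r + 1) → Fin d) (f : Fin (r + 1) → Fin l),
        ‖((Matrix.of fun j q => L ((z j q : ℚ) : PadicAlgCl p)).submatrix e f).det‖ ≤
          Real.exp (-(C * ((p : ℝ) ^ 4 * Real.log H) ^ κ'))) →
      ∃ (t : Fin d → ℤ) (s : Fin l → ℤ), t ≠ 0 ∧ s ≠ 0 ∧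
        ∑ j, ∑ q, (t j : PadicAlgCl p) * (s q : PadicAlgCl p) * L ((z j q : ℚ) : PadicAlgCl p) = 0 := by
  obtain ⟨κ'', hκ1, hκ2⟩ := exists_between hκ
  obtain ⟨a, σ, μ, ha, hcount, hμ, hr⟩ := params_pure d l r h κ'' hκ1
  obtain ⟨u, Δ, hu, hΔ, hd, -, hl, -⟩ := split h
  obtain ⟨C, hC, hmain⟩ := core_p 0 d l r (fun i _ => i.elim0) (μ + σ) μ σ (μ + σ + a - 1) a
    rfl (by omega) ha (by
      have : σ + μ + a = μ + σ + a := by ring
      rw [← this]
      simpa using hcount) κ'' κ' (by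
      have : σ + μ + a = μ + σ + a := by ring
      rw [← this]; exact hr) hκ2
  refine ⟨C, hC, ?_⟩
  intro p hp L hL H hH z hz0 hzH hminor
  obtain ⟨Af, Rm, W0, G0, q1, -, q3, q4⟩ := hmain p L hL H hH z (fun i _ => i.elim0) hz0 hzH
    (fun i _ => i.elim0) (fun i _ => i.elim0) (by
      intro e f
      have := hminor e f
      simpa using this)
  have hAf : Af = ⊥ := Subsingleton.elim _ _
  have hAf0 : finrank ℂ Af = 0 := by rw [hAf, finrank_bot]
  have hRm : Rm ≠ ⊥ := fun h => q1 ⟨hAf, h⟩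
  by_contra hcon
  push Not at hcon
  obtain ⟨m, hm, hm0⟩ := Rm.bot_or_exists_ne_zero.resolve_left hRm
  have hG : G0 = ⊥ := by
    rw [AddSubgroup.eq_bot_iff_forall]
    intro s hs
    by_contra hs0
    exact hcon m s hm0 hs0 (((q3 s).mp hs).2 m hm)
  have hG0 : finrank ℤ G0 = 0 := by rw [hG, Pool.Agent.L0h53.NP.rank_bot]
  have hR : finrank ℤ Rm ≤ d := rank_le Rm
  rw [hG0, hAf0, Nat.sub_zero, zero_mul, zero_add] at q4
  have h1 : l * σ ≤ finrank ℤ Rm * μ := le_trans (Nat.le_add_left _ _) q4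
  have h2 : finrank ℤ Rm * μ ≤ d * μ := Nat.mul_le_mul_right _ hR
  omega

/-- **Sums of rational numbers and logarithms.** -/
theorem strong_p (d l r : ℕ) (h : r * (d + l) < d * l) (κ' : ℝ)
    (hκ : (2 * (d * l) : ℝ) / (d * l - r * (d + l)) < κ') :
    ∃ C : ℝ, 0 < C ∧ ∀ (p : ℕ) [Fact p.Prime] (L : PadicAlgCl p → PadicAlgCl p),
      IsIwasawaLog p L → ∀ H : ℝ, 3 ≤ H → ∀ (z β : Fin d → Fin l → ℚ),
      (∀ j q, z j q ≠ 0) → (∀ j q, HtLe H (z j q)) → (∀ j q, HtLe H (β j q)) →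
      (∀ j q, ‖((β j q : ℚ) : ℚ_[p])‖ ≤ 1) →
      (∀ (e : Fin (r + 1) → Fin d) (f : Fin (r + 1) → Fin l),
        ‖((Matrix.of fun j q => ((β j q : ℚ) : PadicAlgCl p) +
          L ((z j q : ℚ) : PadicAlgCl p)).submatrix e f).det‖ ≤
          Real.exp (-(C * ((p : ℝ) ^ 4 * Real.log H) ^ κ'))) →
      ∃ (t : Fin d → ℤ) (s : Fin l → ℤ), t ≠ 0 ∧ s ≠ 0 ∧
        ∑ j, ∑ q, (t j : PadicAlgCl p) * (s q : PadicAlgCl p) * L ((z j q : ℚ) : PadicAlgCl p) = 0 ∧
        ∑ j, ∑ q, (t j : ℚ) * (s q : ℚ) * β j q = 0 := by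
  classical
  obtain ⟨κ'', hκ1, hκ2⟩ := exists_between hκ
  obtain ⟨a, σ, μ, ha, hσ, hcount, hμ, hr⟩ := params_strong d l r h κ'' hκ1
  obtain ⟨u, Δ, hu, hΔ, hd, -, hl, -⟩ := split h
  let γ : Fin d → Fin d → ℤ := fun i j => if i = j then -1 else 0
  have hγ : ∀ (c : Fin d → ℂ) j, ∑ i, c i * ((γ i j : ℤ) : ℂ) = - c j := by
    intro c j
    rw [Finset.sum_eq_single j]
    · simp [γ]
    · intro i _ hij; simp [γ, hij]
    · intro h; exact absurd (Finset.mem_univ _) h
  obtain ⟨C, hC, hmain⟩ := core_p d d l r γ (μ + σ) μ σ (μ + σ + a - 1) a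
    rfl (by omega) (by omega) (by
      have : σ + μ + a = μ + σ + a := by ring
      rw [← this, show μ + σ = σ + μ by ring]
      exact hcount) κ'' κ' (by
      have : σ + μ + a = μ + σ + a := by ring
      rw [← this]; exact hr) hκ2
  refine ⟨C, hC, ?_⟩
  intro p hp L hL H hH z β hz0 hzH hβH hβp hminor
  obtain ⟨Af, Rm, W0, G0, q1, q2, q3, q4⟩ := hmain p L hL H hH z β hz0 hzH hβH hβp
    (fun e f => by
      refine le_trans (le_of_eq ?_) (hminor e f)
      congr 2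
      ext j q
      change L ((z (e j) (f q) : ℚ) : PadicAlgCl p) - ∑ i, ((γ i (e j) : ℤ) : PadicAlgCl p) *
        ((β i (f q) : ℚ) : PadicAlgCl p) = ((β (e j) (f q) : ℚ) : PadicAlgCl p) +
          L ((z (e j) (f q) : ℚ) : PadicAlgCl p)
      rw [Finset.sum_eq_single (e j)]
      · simp only [γ, if_pos]
        push_cast
        ring
      · intro i _ hij; simp [γ, hij]
      · intro h; exact absurd (Finset.mem_univ _) h)
  by_contra hcon
  push Not at hcon
  -- the complex span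
  let cast : (Fin d → ℤ) → (Fin d → ℂ) := fun m i => ((m i : ℤ) : ℂ)
  let U : Submodule ℂ (Fin d → ℂ) := Af ⊔ Submodule.span ℂ (cast '' (Rm : Set (Fin d → ℤ)))
  have hW : ∀ u ∈ U, ∀ c ∈ W0, ∑ i, u i * c i = 0 := by
    intro u hu c hc
    obtain ⟨h1, h2⟩ := (q2 c).mp hc
    let f : (Fin d → ℂ) →ₗ[ℂ] ℂ :=
      { toFun := fun u => ∑ i, u i * c i
        map_add' := fun x y => by simp [add_mul, Finset.sum_add_distrib]
        map_smul' := fun b x => by simp [Finset.mul_sum, mul_assoc] }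
    have hU : U ≤ LinearMap.ker f := by
      apply sup_le
      · intro b hb
        exact h1 b hb
      · rw [Submodule.span_le]
        rintro _ ⟨m, hm, rfl⟩
        have h3 := h2 m hm
        simp only [hγ] at h3
        change ∑ i, ((m i : ℤ) : ℂ) * c i = 0
        have h4 : ∑ j, ((m j : ℤ) : ℂ) * -c j = -∑ j, ((m j : ℤ) : ℂ) * c j := by
          rw [← Finset.sum_neg_distrib]
          exact Finset.sum_congr rfl fun i _ => by ring
        rw [h4] at h3
        exact neg_eq_zero.mp h3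
    exact hU hu
  have hUW := pair_le U W0 hW
  have hAU : finrank ℂ Af ≤ finrank ℂ U := Submodule.finrank_mono le_sup_left
  have hRU : finrank ℤ Rm ≤ finrank ℂ U := rank_cast Rm U fun m hm =>
    (le_sup_right : _ ≤ U) (Submodule.subset_span ⟨m, hm, rfl⟩)
  obtain ⟨e, he⟩ : ∃ e, e = finrank ℂ U := ⟨_, rfl⟩
  obtain ⟨A, hA⟩ : ∃ A, A = finrank ℂ Af := ⟨_, rfl⟩
  obtain ⟨ρ, hρ⟩ : ∃ ρ, ρ = finrank ℤ Rm := ⟨_, rfl⟩
  have hed : e ≤ d := by omega
  have hcod : e ≤ d - finrank ℂ W0 := by omega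
  rw [← he, ← hA] at hAU
  rw [← he, ← hρ] at hRU
  rw [← hA, ← hρ] at q4
  have hq : e * (μ + σ + a - 1) + (l - finrank ℤ G0) * σ ≤ A * (μ + σ) + ρ * μ :=
    le_trans (Nat.add_le_add_right (Nat.mul_le_mul_right _ hcod) _) q4
  obtain ⟨τ, hτ⟩ : ∃ τ, τ = μ + σ + a - 1 := ⟨_, rfl⟩
  rw [← hτ] at hq
  have hτ1 : μ + σ + 1 ≤ τ := by omega
  by_cases hRm : Rm = ⊥
  · -- no characters
    have hAf : Af ≠ ⊥ := fun h => q1 ⟨h, hRm⟩
    have hA1 : 1 ≤ A := by
      rw [hA]
      rw [Nat.one_le_iff_ne_zero]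
      intro h0
      exact hAf (Submodule.finrank_eq_zero.mp h0)
    have hρ0 : ρ = 0 := by rw [hρ, hRm, Pool.Agent.L0h53.NP.rank_bot]
    rw [hρ0, zero_mul, add_zero] at hq
    have h1 : A * τ ≤ e * τ := Nat.mul_le_mul_right _ hAU
    have h2 : A * (μ + σ + 1) ≤ A * τ := Nat.mul_le_mul_left _ hτ1
    have h3 : A * (μ + σ + 1) = A * (μ + σ) + A := by ring
    omega
  obtain ⟨m, hm, hm0⟩ := Rm.bot_or_exists_ne_zero.resolve_left hRm
  -- a common denominator
  let D : ℕ := ∏ j, ∏ q, (β j q).den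
  have hD0 : D ≠ 0 := Finset.prod_ne_zero_iff.mpr fun j _ =>
    Finset.prod_ne_zero_iff.mpr fun q _ => (β j q).den_nz
  have hDβ : ∀ j q, ∃ b : ℤ, (b : ℚ) = (D : ℚ) * β j q := by
    intro j q
    have h1 : (β j q).den ∣ D := (Finset.dvd_prod_of_mem (fun q => (β j q).den)
      (Finset.mem_univ q)).trans (Finset.dvd_prod_of_mem (fun j => ∏ q, (β j q).den)
        (Finset.mem_univ j))
    obtain ⟨c, hc⟩ := h1
    refine ⟨c * (β j q).num, ?_⟩
    have h2 := Rat.mul_den_eq_num (β j q)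
    have h3 : (D : ℚ) = (β j q).den * c := by rw [hc]; push_cast; rfl
    push_cast
    rw [h3]
    linear_combination -(c : ℚ) * h2
  choose bI hbI using hDβ
  have hG : G0 = ⊥ := by
    rw [AddSubgroup.eq_bot_iff_forall]
    intro s hs
    by_contra hs0
    obtain ⟨g1, g2⟩ := (q3 s).mp hs
    -- the values of the characters on the rational part are nonzero
    let v : (Fin d → ℤ) →+ (Fin 1 → ℤ) :=
      { toFun := fun m => ![∑ j, m j * ∑ q, bI j q * s q]
        map_zero' := by funext i; fin_cases i; simp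
        map_add' := fun x y => by
          funext i
          fin_cases i
          simp [add_mul, Finset.sum_add_distrib] }
    have hvD : ∀ m : Fin d → ℤ, ((∑ j, m j * ∑ q, bI j q * s q : ℤ) : ℚ) =
        (D : ℚ) * ∑ j, ∑ q, (m j : ℚ) * (s q : ℚ) * β j q := by
      intro m
      push_cast
      simp only [Finset.mul_sum]
      refine Finset.sum_congr rfl fun j _ => Finset.sum_congr rfl fun q _ => ?_
      rw [hbI]
      ring
    have hDQ : (D : ℚ) ≠ 0 := by exact_mod_cast hD0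
    have hv : ∀ m ∈ Rm, v m = 0 → m = 0 := by
      intro m hm hvm
      by_contra hm0
      have h1 : ∑ j, m j * ∑ q, bI j q * s q = 0 := congrFun hvm 0
      have h2 := hvD m
      rw [h1, Int.cast_zero] at h2
      exact hcon m s hm0 hs0 (g2 m hm) ((mul_eq_zero.mp h2.symm).resolve_left hDQ)
    have hρ1 : ρ ≤ 1 := by rw [hρ]; exact rank_le_of_inj Rm v hv
    -- the character is not in `Af`
    have hmAf : cast m ∉ Af := by
      intro hmem
      have h1 := g1 _ hmem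
      have h2 : ∑ j, ∑ q, (m j : ℚ) * (s q : ℚ) * β j q = 0 := by
        have h3 : ((∑ j, ∑ q, (m j : ℚ) * (s q : ℚ) * β j q : ℚ) : ℂ) = 0 := by
          push_cast
          rw [← h1]
          refine Finset.sum_congr rfl fun j _ => ?_
          rw [Finset.mul_sum]
          refine Finset.sum_congr rfl fun q _ => ?_
          change _ = ((m j : ℤ) : ℂ) * _
          ring
        exact_mod_cast h3
      exact hcon m s hm0 hs0 (g2 m hm) h2
    have hlt : A < e := by
      rw [hA, he]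
      apply Submodule.finrank_lt_finrank_of_lt
      refine lt_of_le_of_ne le_sup_left fun heq => hmAf ?_
      have h4 : cast m ∈ U := (le_sup_right : _ ≤ U) (Submodule.subset_span ⟨m, hm, rfl⟩)
      rw [heq]
      exact h4
    have h1 : (A + 1) * τ ≤ e * τ := Nat.mul_le_mul_right _ hlt
    have h2 : A * (μ + σ + 1) ≤ A * τ := Nat.mul_le_mul_left _ hτ1
    have h3 : A * (μ + σ + 1) = A * (μ + σ) + A := by ring
    have h4 : (A + 1) * τ = A * τ + τ := by ring
    have h5 : ρ * μ ≤ 1 * μ := Nat.mul_le_mul_right _ hρ1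
    omega
  have hG0 : finrank ℤ G0 = 0 := by rw [hG, Pool.Agent.L0h53.NP.rank_bot]
  rw [hG0, Nat.sub_zero] at hq
  -- final inequality
  have h1 : A * (μ + σ) ≤ e * (μ + σ) := Nat.mul_le_mul_right _ hAU
  have h2 : ρ * μ ≤ e * μ := Nat.mul_le_mul_right _ hRU
  have h3 : e * τ + e = e * (μ + σ) + e * a := by
    have : τ + 1 = μ + σ + a := by omega
    calc e * τ + e = e * (τ + 1) := by ring
      _ = e * (μ + σ + a) := by rw [this]
      _ = _ := by ring
  have h4 : e * a + l * σ ≤ e * μ + e := by omega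
  -- contradiction
  obtain ⟨f, hf⟩ : ∃ f, d = e + f := ⟨d - e, by omega⟩
  have h5 : d * μ + d < l * σ + d * a := hμ
  rcases Nat.le_total (μ + 1) a with h6 | h6
  · have h7 : e * (μ + 1) ≤ e * a := Nat.mul_le_mul_left _ h6
    have h8 : e * (μ + 1) = e * μ + e := by ring
    have h9 : 0 < l * σ := Nat.mul_pos hl hσ
    omega
  · have h7 : f * a ≤ f * (μ + 1) := Nat.mul_le_mul_left _ h6
    rw [hf] at h5
    have h8 : (e + f) * μ + (e + f) = e * μ + e + f * (μ + 1) := by ring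
    have h9 : (e + f) * a = e * a + f * a := by ring
    omega

end Pool.Agent.L0h53.PQ
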