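import Mathlib
import Pool.Agent.L0h53.PQ.Main
import Pool.Agent.L0h53.NP.PiMain

set_option autoImplicit false

/-! The kernel of the logarithm on positive rational numbers prime to `p`, and lower bounds. -/

namespace Pool.Agent.L0h53.PQ

open Finset Module Pool.Agent.W245.PB Pool.Agent.L0h53.NP Pool.Agent.L0h53.PS

variable {p : ℕ} [hp : Fact p.Prime] {L : PadicAlgCl p → PadicAlgCl p}

theorem near_of_unit {x : ℚ} (hx : 0 < x) (hv : padicValRat p x = 0) :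
    ‖((x ^ (p ^ 2 * (p - 1)) : ℚ) : PadicAlgCl p) - 1‖ * (p : ℝ) ^ 3 ≤ 1 := by
  obtain ⟨m, hm⟩ : ∃ m, m = p ^ 2 * (p - 1) := ⟨_, rfl⟩
  -- numerator and denominator are prime to `p`
  have hcop := x.reduced
  have hnz : x.num ≠ 0 := Rat.num_ne_zero.mpr hx.ne'
  have h1 : ¬ p ∣ x.num.natAbs ∧ ¬ p ∣ x.den := by
    rw [padicValRat_def] at hv
    have hor : ¬ (p ∣ x.num.natAbs ∧ p ∣ x.den) := by
      rintro ⟨h1, h2⟩
      have h3 : p ∣ Nat.gcd x.num.natAbs x.den := Nat.dvd_gcd h1 h2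
      rw [hcop] at h3
      exact hp.out.one_lt.ne' (Nat.dvd_one.mp h3)
    have hval : padicValNat p x.num.natAbs = padicValNat p x.den := by
      unfold padicValInt at hv
      omega
    have hnum0 : x.num.natAbs ≠ 0 := Int.natAbs_ne_zero.mpr hnz
    have hiff1 : p ∣ x.num.natAbs ↔ padicValNat p x.num.natAbs ≠ 0 :=
      dvd_iff_padicValNat_ne_zero hnum0
    have hiff2 : p ∣ x.den ↔ padicValNat p x.den ≠ 0 := dvd_iff_padicValNat_ne_zero x.den_nz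
    constructor
    · intro h
      exact hor ⟨h, hiff2.mpr (by rw [← hval]; exact hiff1.mp h)⟩
    · intro h
      exact hor ⟨hiff1.mpr (by rw [hval]; exact hiff2.mp h), h⟩
  have hpow : ∀ C : ℕ, ¬ p ∣ C → ‖(((C ^ m : ℕ)) : PadicAlgCl p) - 1‖ * (p : ℝ) ^ 3 ≤ 1 := by
    intro C hC
    have hcop : Nat.Coprime C (p ^ 3) :=
      Nat.Coprime.pow_right 3 ((Nat.Prime.coprime_iff_not_dvd hp.out).mpr hC).symm
    have h1 := Nat.ModEq.pow_totient hcop
    rw [Nat.totient_prime_pow hp.out (by norm_num : 0 < 3)] at h1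
    have h2 : (3 - 1) = 2 := rfl
    rw [h2, ← hm] at h1
    have h3 : ((p ^ 3 : ℕ) : ℤ) ∣ ((C ^ m : ℕ) : ℤ) - (1 : ℕ) := (Nat.modEq_iff_dvd.mp h1.symm)
    have h4 : ‖((((C ^ m : ℕ) : ℤ) - 1 : ℤ) : ℚ_[p])‖ ≤ (p : ℝ) ^ (-(3 : ℕ) : ℤ) := by
      rw [Padic.norm_int_le_pow_iff_dvd]
      push_cast at h3 ⊢
      exact h3
    have h5 := norm_ratCast_alg (p := p) ((C : ℚ) ^ m - 1)
    push_cast at h4 h5 ⊢
    rw [h5]
    have hp0 : (0 : ℝ) < p := by exact_mod_cast hp.out.pos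
    calc ‖(C : ℚ_[p]) ^ m - 1‖ * (p : ℝ) ^ 3 ≤ (p : ℝ) ^ (-3 : ℤ) * (p : ℝ) ^ 3 :=
          mul_le_mul_of_nonneg_right h4 (by positivity)
      _ = 1 := by
          rw [zpow_neg]
          have : (p : ℝ) ^ (3 : ℤ) = (p : ℝ) ^ 3 := by exact_mod_cast zpow_natCast (p : ℝ) 3
          rw [this, inv_mul_cancel₀ (by positivity)]
  have h2 := near_mul (hpow x.num.natAbs h1.1) (near_inv (hpow x.den h1.2))
  have hnumpos : 0 < x.num := Rat.num_pos.mpr hx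
  have e : ((x ^ m : ℚ) : PadicAlgCl p) = ((x.num.natAbs ^ m : ℕ) : PadicAlgCl p) *
      ((((x.den : ℕ) ^ m : ℕ)) : PadicAlgCl p)⁻¹ := by
    have e0 : (((x.num.natAbs : ℕ)) : ℚ) = (x.num : ℚ) := by
      have h7 : (((x.num.natAbs : ℕ)) : ℤ) = x.num := by omega
      calc (((x.num.natAbs : ℕ)) : ℚ) = ((((x.num.natAbs : ℕ)) : ℤ) : ℚ) := by rw [Int.cast_natCast]
        _ = (x.num : ℚ) := by rw [h7]
    have e1 : x ^ m = ((x.num.natAbs : ℕ) : ℚ) ^ m * ((x.den : ℚ) ^ m)⁻¹ := by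
      rw [e0, ← div_eq_mul_inv, ← div_pow, Rat.num_div_den]
    rw [e1]
    push_cast
    rfl
  rw [← hm, e]
  exact h2

/-- the kernel of the logarithm -/
theorem ker_pos (hL : IsIwasawaLog p L) {x : ℚ} (hx : 0 < x) (hv : padicValRat p x = 0)
    (h : L ((x : ℚ) : PadicAlgCl p) = 0) : x = 1 := by
  have hx0 : ((x : ℚ) : PadicAlgCl p) ≠ 0 := by exact_mod_cast hx.ne'
  have h1 := near_of_unit (p := p) hx hv
  have hm0 : p ^ 2 * (p - 1) ≠ 0 := by
    have h1 := hp.out.one_lt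
    have h2 : 0 < p ^ 2 := Nat.pow_pos hp.out.pos
    have h3 : 0 < p - 1 := by omega
    positivity
  have h2 : L ((x ^ (p ^ 2 * (p - 1)) : ℚ) : PadicAlgCl p) = 0 := by
    have e : ((x ^ (p ^ 2 * (p - 1)) : ℚ) : PadicAlgCl p) =
        ((x : ℚ) : PadicAlgCl p) ^ (p ^ 2 * (p - 1)) := by push_cast; rfl
    rw [e, hL.pow hx0, h, mul_zero]
  have h3 := hL.eq_one h1 h2
  have h4 : x ^ (p ^ 2 * (p - 1)) = 1 := by exact_mod_cast h3
  exact (pow_eq_one_iff_of_nonneg hx.le hm0).mp h4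

theorem log_prodL (hL : IsIwasawaLog p L) {ι : Type*} (s : Finset ι) (c : ι → ℚ)
    (hc : ∀ i, 0 < c i) (t : ι → ℤ) :
    L ((∏ i ∈ s, c i ^ t i : ℚ) : PadicAlgCl p) =
      ∑ i ∈ s, (t i : PadicAlgCl p) * L ((c i : ℚ) : PadicAlgCl p) := by
  have hne : ∀ i, ((c i : ℚ) : PadicAlgCl p) ≠ 0 := fun i => by exact_mod_cast (hc i).ne'
  have e : ((∏ i ∈ s, c i ^ t i : ℚ) : PadicAlgCl p) = ∏ i ∈ s, ((c i : ℚ) : PadicAlgCl p) ^ t i := by
    push_cast; rfl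
  rw [e, hL.prod _ _ fun i _ => zpow_ne_zero _ (hne i)]
  exact Finset.sum_congr rfl fun i _ => hL.zpow (hne i) _

/-- relations between `p`-adic logarithms and between real logarithms -/
theorem rel_iff (hL : IsIwasawaLog p L) {ι : Type*} (s : Finset ι) (c : ι → ℚ)
    (hc : ∀ i, 0 < c i) (hv : ∀ i, padicValRat p (c i) = 0) (t : ι → ℤ) :
    ∑ i ∈ s, (t i : PadicAlgCl p) * L ((c i : ℚ) : PadicAlgCl p) = 0 ↔
      ∑ i ∈ s, (t i : ℝ) * Real.log (c i) = 0 := by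
  have hpos : 0 < ∏ i ∈ s, c i ^ t i := Finset.prod_pos fun i _ => zpow_pos (hc i) _
  have hval : padicValRat p (∏ i ∈ s, c i ^ t i) = 0 := by
    rw [val_prod s c hc t p hp.out]
    exact Finset.sum_eq_zero fun i _ => by rw [hv, mul_zero]
  rw [← log_prodL hL s c hc t, ← log_prod s c hc t]
  constructor
  · intro h
    rw [ker_pos hL hpos hval h]; simp
  · intro h
    rw [eq_one_of_log hpos h]
    push_cast
    exact hL.one

theorem rel2_iff (hL : IsIwasawaLog p L) {c0 c1 : ℚ} (h0 : 0 < c0) (h1 : 0 < c1)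
    (hv0 : padicValRat p c0 = 0) (hv1 : padicValRat p c1 = 0) (t0 t1 : ℤ) :
    (t0 : PadicAlgCl p) * L ((c0 : ℚ) : PadicAlgCl p) +
      (t1 : PadicAlgCl p) * L ((c1 : ℚ) : PadicAlgCl p) = 0 ↔
      (t0 : ℝ) * Real.log c0 + t1 * Real.log c1 = 0 := by
  have h := rel_iff hL (Finset.univ : Finset (Fin 2)) ![c0, c1] (by
    intro i; fin_cases i
    · exact h0
    · exact h1) (by
    intro i; fin_cases i
    · exact hv0
    · exact hv1) ![t0, t1]
  simpa [Fin.sum_univ_two] using h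

/-- **Lower bound for logarithms of rational numbers.** -/
theorem log_lower_gen (hL : IsIwasawaLog p L) {z : ℚ} (hz : z ≠ 0) {H : ℝ} (hH : 3 ≤ H)
    (hzH : HtLe H z) (hne : L ((z : ℚ) : PadicAlgCl p) ≠ 0) :
    Real.exp (-((p : ℝ) ^ 4 * Real.log H)) ≤ ‖L ((z : ℚ) : PadicAlgCl p)‖ := by
  obtain ⟨z', y, h1, h2, h3, h4, h5, h6, h7⟩ := prep hL hz hH hzH
  have hQ0 : ((p ^ 3 * (p - 1) : ℕ) : PadicAlgCl p) ≠ 0 := by
    have h1 := hp.out.one_lt
    have h2 : 0 < p ^ 3 := Nat.pow_pos hp.out.pos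
    have h3 : 0 < p - 1 := by omega
    have : p ^ 3 * (p - 1) ≠ 0 := by positivity
    exact_mod_cast this
  have hz'1 : z' ≠ 1 := by
    intro h
    rw [h] at h5
    push_cast at h5
    rw [hL.one] at h5
    have := (mul_eq_zero.mp h5.symm)
    rcases this with h8 | h8
    · apply hQ0
      push_cast
      exact h8
    · exact hne h8
  have h8 := log_lower' hL h1 hz'1 h2 h3
  have h9 : ‖L ((z' : ℚ) : PadicAlgCl p)‖ ≤ ‖L ((z : ℚ) : PadicAlgCl p)‖ := by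
    rw [h5, norm_mul]
    calc _ ≤ 1 * ‖L ((z : ℚ) : PadicAlgCl p)‖ :=
          mul_le_mul_of_nonneg_right (IsUltrametricDist.norm_natCast_le_one _ _) (norm_nonneg _)
      _ = _ := one_mul _
  refine le_trans (le_of_eq ?_) (h8.trans h9)
  have : ((p : ℝ) ^ 4) = ((p ^ 4 : ℕ) : ℝ) := by push_cast; rfl
  rw [this, Real.exp_neg, Real.exp_nat_mul, Real.exp_log (by linarith)]

theorem norm_Q : ‖((p ^ 3 * (p - 1) : ℕ) : PadicAlgCl p)‖ = ((p : ℝ) ^ 3)⁻¹ := by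
  have hp1 := hp.out.one_lt
  have h1 : ‖((p - 1 : ℕ) : ℚ_[p])‖ = 1 := by
    have := Padic.norm_natCast_eq_one_iff (p := p) (n := p - 1)
    rw [this]
    have h2 : Nat.Coprime p (p - 1) := by
      rw [Nat.Prime.coprime_iff_not_dvd hp.out]
      intro h
      have := Nat.le_of_dvd (by omega) h
      omega
    exact h2
  have h2 : ‖((p ^ 3 * (p - 1) : ℕ) : PadicAlgCl p)‖ = ‖((p ^ 3 * (p - 1) : ℕ) : ℚ_[p])‖ := by
    rw [← norm_alg, map_natCast]
  rw [h2]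
  push_cast
  rw [norm_mul, norm_pow, Padic.norm_p, h1, mul_one, inv_pow]

theorem log_le_one (hL : IsIwasawaLog p L) {z : ℚ} (hz : z ≠ 0) :
    ‖L ((z : ℚ) : PadicAlgCl p)‖ ≤ 1 := by
  obtain ⟨H, hH, hzH⟩ : ∃ H : ℝ, 3 ≤ H ∧ HtLe H z := by
    refine ⟨3 + |(z.num : ℝ)| + z.den, ?_, ?_, ?_⟩
    · have := abs_nonneg (z.num : ℝ)
      have : (0 : ℝ) ≤ z.den := Nat.cast_nonneg _
      linarith
    · have : (0 : ℝ) ≤ z.den := Nat.cast_nonneg _
      linarith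
    · have := abs_nonneg (z.num : ℝ)
      linarith
  obtain ⟨z', y, h1, h2, h3, h4, h5, h6, h7⟩ := prep hL hz hH hzH
  have hp0 : (0 : ℝ) < (p : ℝ) ^ 3 := by
    have : (0 : ℝ) < p := by exact_mod_cast hp.out.pos
    positivity
  rw [← norm_alg, h4, h5, norm_mul, norm_Q] at h6
  have : ((p : ℝ) ^ 3)⁻¹ * ‖L ((z : ℚ) : PadicAlgCl p)‖ * (p : ℝ) ^ 3 =
      ‖L ((z : ℚ) : PadicAlgCl p)‖ := by
    rw [mul_assoc, mul_comm, mul_assoc, mul_inv_cancel₀ hp0.ne', mul_one]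
  rw [this] at h6
  exact h6

/-- **The measure for the `p`-adic Hermite-Lindemann theorem.** -/
theorem lindemann (κ : ℝ) (hκ : 2 < κ) : ∃ C : ℝ, 0 < C ∧ ∀ (p : ℕ) [Fact p.Prime]
    (L : PadicAlgCl p → PadicAlgCl p), IsIwasawaLog p L → ∀ H : ℝ, 3 ≤ H → ∀ z β : ℚ, z ≠ 0 →
    HtLe H z → HtLe H β → ‖((β : ℚ) : ℚ_[p])‖ ≤ 1 →
    (L ((z : ℚ) : PadicAlgCl p) ≠ 0 ∨ β ≠ 0) →
    Real.exp (-(C * ((p : ℝ) ^ 4 * Real.log H) ^ κ)) <
      ‖((β : ℚ) : PadicAlgCl p) + L ((z : ℚ) : PadicAlgCl p)‖ := by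
  obtain ⟨C, hC, hmain⟩ := strong_p 1 1 0 (by norm_num) κ (by norm_num; exact hκ)
  refine ⟨C, hC, fun p hp L hL H hH z β hz hzH hβH hβp hne => ?_⟩
  by_contra hcon
  push Not at hcon
  obtain ⟨t, s, ht, hs, h1, h2⟩ := hmain p L hL H hH (fun _ _ => z) (fun _ _ => β) (fun _ _ => hz)
    (fun _ _ => hzH) (fun _ _ => hβH) (fun _ _ => hβp) (fun e f => by
      rw [Matrix.det_fin_one]
      exact hcon)
  have ht0 : t 0 ≠ 0 := by
    intro h
    apply ht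
    funext i
    fin_cases i
    exact h
  have hs0 : s 0 ≠ 0 := by
    intro h
    apply hs
    funext i
    fin_cases i
    exact h
  simp only [Finset.univ_unique, Fin.default_eq_zero, Finset.sum_singleton] at h1 h2
  rcases hne with h | h
  · rcases mul_eq_zero.mp h1 with h3 | h3
    · rcases mul_eq_zero.mp h3 with h4 | h4
      · exact ht0 (by exact_mod_cast h4)
      · exact hs0 (by exact_mod_cast h4)
    · exact h h3
  · rcases mul_eq_zero.mp h2 with h3 | h3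
    · rcases mul_eq_zero.mp h3 with h4 | h4
      · exact ht0 (by exact_mod_cast h4)
      · exact hs0 (by exact_mod_cast h4)
    · exact h h3

end Pool.Agent.L0h53.PQ
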