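import Mathlib
import Pool.Agent.L0h53.PQ.Ker
import Pool.Agent.L0h53.PL.Struct

set_option autoImplicit false

/-! Products of two `p`-adic logarithms of rational numbers near logarithms of rational numbers. -/

namespace Pool.Agent.L0h53.PQ

open Finset Module Pool.Agent.W245.PB Pool.Agent.L0h53.NP Pool.Agent.L0h53.PS
  Pool.Agent.L0h39.QA Pool.Agent.L0h53.PL

theorem minor2 {E : Type*} [NormedField E] [IsUltrametricDist E] {d l : ℕ}
    (M : Matrix (Fin d) (Fin l) E) (u : Fin d → E) (v : Fin l → E) {ε : ℝ} (hε : 0 ≤ ε)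
    (hu : ∀ j, ‖u j‖ ≤ 1) (hv : ∀ q, ‖v q‖ ≤ 1) (hM : ∀ j q, ‖M j q‖ ≤ 1)
    (h : ∀ j q, ‖M j q - u j * v q‖ ≤ ε) (e : Fin 2 → Fin d) (f : Fin 2 → Fin l) :
    ‖(M.submatrix e f).det‖ ≤ ε := by
  rw [Matrix.det_fin_two]
  change ‖M (e 0) (f 0) * M (e 1) (f 1) - M (e 0) (f 1) * M (e 1) (f 0)‖ ≤ ε
  have e1 : M (e 0) (f 0) * M (e 1) (f 1) - M (e 0) (f 1) * M (e 1) (f 0) =
      ((M (e 0) (f 0) - u (e 0) * v (f 0)) * M (e 1) (f 1) +
        u (e 0) * v (f 0) * (M (e 1) (f 1) - u (e 1) * v (f 1))) +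
      (-((M (e 0) (f 1) - u (e 0) * v (f 1)) * M (e 1) (f 0)) +
        -(u (e 0) * v (f 1) * (M (e 1) (f 0) - u (e 1) * v (f 0)))) := by ring
  have g1 : ∀ j q j' q', ‖(M j q - u j * v q) * M j' q'‖ ≤ ε := by
    intro j q j' q'
    rw [norm_mul]
    calc _ ≤ ε * 1 := mul_le_mul (h j q) (hM j' q') (norm_nonneg _) hε
      _ = ε := mul_one _
  have g2 : ∀ j q j' q', ‖u j * v q * (M j' q' - u j' * v q')‖ ≤ ε := by
    intro j q j' q'
    rw [norm_mul, norm_mul]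
    calc _ ≤ 1 * ε := mul_le_mul (mul_le_one₀ (hu j) (norm_nonneg _) (hv q)) (h j' q')
          (norm_nonneg _) zero_le_one
      _ = ε := one_mul _
  rw [e1]
  refine (IsUltrametricDist.norm_add_le_max _ _).trans (max_le ?_ ?_)
  · exact (IsUltrametricDist.norm_add_le_max _ _).trans (max_le (g1 _ _ _ _) (g2 _ _ _ _))
  · refine (IsUltrametricDist.norm_add_le_max _ _).trans (max_le ?_ ?_)
    · rw [norm_neg]; exact g1 _ _ _ _
    · rw [norm_neg]; exact g2 _ _ _ _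

theorem coreP (κ' : ℝ) (hκ' : 9 < κ') : ∃ C : ℝ, 0 < C ∧ ∀ (p : ℕ) [Fact p.Prime]
    (L : PadicAlgCl p → PadicAlgCl p), IsIwasawaLog p L → ∀ H : ℝ, 3 ≤ H →
    ∀ c a0 a1 r0 r1 : ℚ, 0 < c → 0 < a0 → 0 < a1 → 0 < r0 → 0 < r1 →
    padicValRat p c = 0 → padicValRat p a0 = 0 → padicValRat p a1 = 0 →
    padicValRat p r0 = 0 → padicValRat p r1 = 0 → HtLe H c → HtLe H a0 →
    HtLe H a1 → HtLe H r0 → HtLe H r1 → Real.log c ≠ 0 →
    ‖L ((a0 : ℚ) : PadicAlgCl p) * L ((c : ℚ) : PadicAlgCl p) - L ((r0 : ℚ) : PadicAlgCl p)‖ ≤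
      Real.exp (-(C * ((p : ℝ) ^ 4 * Real.log H) ^ κ')) →
    ‖L ((a1 : ℚ) : PadicAlgCl p) * L ((c : ℚ) : PadicAlgCl p) - L ((r1 : ℚ) : PadicAlgCl p)‖ ≤
      Real.exp (-(C * ((p : ℝ) ^ 4 * Real.log H) ^ κ')) →
    (∀ s1 s2 : ℤ, (s1 : ℝ) * Real.log a0 + s2 * Real.log a1 = 0 → s1 = 0 ∧ s2 = 0) →
    (∃ m0 m1 : ℤ, m1 ≠ 0 ∧ (m0 : ℝ) * Real.log a0 + m1 * Real.log r0 = 0) ∨
      ∃ s0 s1 : ℤ, s1 ≠ 0 ∧ (s0 : ℝ) * Real.log c + s1 * Real.log r0 = 0 := by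
  obtain ⟨κ'', hκ1, hκ2⟩ := exists_between hκ'
  obtain ⟨a, ha1, haκ⟩ := exists_ratio 9 9 κ'' (by exact_mod_cast hκ1)
  obtain ⟨C, hC, hmain⟩ := core_p 1 2 3 1 gamPi (8 * a + 9) (5 * a + 5) (3 * a + 4) (9 * a + 8) a
    (by ring) (by ring) ha1 (by ring_nf; omega) κ'' κ' (by
      have : 8 * a + 9 + a = 9 * a + 9 := by ring
      rw [this]; exact haκ) hκ2
  refine ⟨C, hC, ?_⟩
  intro p hp L hL H hH c a0 a1 r0 r1 hcp ha0p ha1p hr0p hr1p vc va0 va1 vr0 vr1 hcH ha0H ha1H hr0H hr1H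
    hT0 hap0 hap1 hind
  let z : Fin 2 → Fin 3 → ℚ := ![![1, a0, a1], ![c, r0, r1]]
  let β : Fin 1 → Fin 3 → ℚ := fun _ => ![1, 0, 0]
  have hzpos : ∀ j q, 0 < z j q := by
    intro j q
    fin_cases j <;> fin_cases q
    · exact one_pos
    · exact ha0p
    · exact ha1p
    · exact hcp
    · exact hr0p
    · exact hr1p
  have hzval : ∀ j q, padicValRat p (z j q) = 0 := by
    intro j q
    fin_cases j <;> fin_cases q
    · change padicValRat p 1 = 0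
      simp
    · exact va0
    · exact va1
    · exact vc
    · exact vr0
    · exact vr1
  have h1H : HtLe H 1 := ⟨by simp; linarith, by simp; linarith⟩
  have h0H : HtLe H 0 := ⟨by simp; linarith, by simp; linarith⟩
  have hzH : ∀ j q, HtLe H (z j q) := by
    intro j q
    fin_cases j <;> fin_cases q
    · exact h1H
    · exact ha0H
    · exact ha1H
    · exact hcH
    · exact hr0H
    · exact hr1H
  obtain ⟨Lf, hLf⟩ : ∃ Lf : ℚ → PadicAlgCl p, ∀ x, Lf x = L ((x : ℚ) : PadicAlgCl p) :=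
    ⟨_, fun _ => rfl⟩
  have hL1 : Lf 1 = 0 := by rw [hLf]; push_cast; exact hL.one
  obtain ⟨ε, hε⟩ : ∃ ε, ε = Real.exp (-(C * ((p : ℝ) ^ 4 * Real.log H) ^ κ')) := ⟨_, rfl⟩
  have hε0 : 0 ≤ ε := by rw [hε]; exact (Real.exp_pos _).le
  rw [← hε, ← hLf, ← hLf, ← hLf] at hap0 hap1
  have hLle : ∀ x : ℚ, 0 < x → ‖Lf x‖ ≤ 1 := fun x hx => by
    rw [hLf]; exact log_le_one hL hx.ne'
  obtain ⟨Af, Rm, W0, G0, q1, q2, q3, q4⟩ := hmain p L hL H hH z β (fun j q => (hzpos j q).ne') hzH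
    (by
      intro i q
      fin_cases q
      · exact h1H
      · exact h0H
      · exact h0H)
    (by
      intro i q
      fin_cases q <;> simp [β])
    (by
      intro e f
      rw [← hε]
      refine minor2 _ ![1, Lf c] ![1, Lf a0, Lf a1] hε0 ?_ ?_ ?_ ?_ e f
      · intro j
        fin_cases j
        · simp
        · exact hLle c hcp
      · intro q
        fin_cases q
        · simp
        · exact hLle a0 ha0p
        · exact hLle a1 ha1p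
      · intro j q
        rw [Matrix.of_apply, ← hLf]
        fin_cases j <;> fin_cases q
        · simp [z, β, gamPi, hL1]
        · simpa [z, β, gamPi] using hLle a0 ha0p
        · simpa [z, β, gamPi] using hLle a1 ha1p
        · simpa [z, β, gamPi] using hLle c hcp
        · simpa [z, β, gamPi] using hLle r0 hr0p
        · simpa [z, β, gamPi] using hLle r1 hr1p
      · intro j q
        rw [Matrix.of_apply, ← hLf]
        fin_cases j <;> fin_cases q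
        · simpa [z, β, gamPi, hL1] using hε0
        · simpa [z, β, gamPi] using hε0
        · simpa [z, β, gamPi] using hε0
        · simpa [z, β, gamPi] using hε0
        · rw [← norm_neg]
          refine le_trans (le_of_eq ?_) hap0
          congr 1
          simp [z, β, gamPi]
          ring
        · rw [← norm_neg]
          refine le_trans (le_of_eq ?_) hap1
          congr 1
          simp [z, β, gamPi]
          ring)
  refine casesL (a := a) Af Rm W0 G0 (Real.log c) (Real.log a0) (Real.log a1) (Real.log r0)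
    (Real.log r1) q1 ?_ ?_ hT0 hind q4
  · intro c' hc
    obtain ⟨e1, e2⟩ := (q2 c').mp hc
    refine ⟨fun v hv => by simpa using e1 v hv, fun m hm => ?_⟩
    have e3 := e2 m hm
    simp [gamPi] at e3
    rcases e3 with e3 | e3
    · rw [e3]; simp
    · rw [e3]; simp
  · intro s hs
    obtain ⟨e1, e2⟩ := (q3 s).mp hs
    refine ⟨fun v hv => ?_, fun m hm => ?_⟩
    · have e3 := e1 v hv
      simp only [Finset.univ_unique, Fin.default_eq_zero, Finset.sum_singleton,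
        Fin.sum_univ_three] at e3
      change v 0 * (((1 : ℚ) : ℂ) * (s 0 : ℂ) + ((0 : ℚ) : ℂ) * (s 1 : ℂ) +
        ((0 : ℚ) : ℂ) * (s 2 : ℂ)) = 0 at e3
      push_cast at e3
      linear_combination e3
    · have e3 := e2 m hm
      have e4 := (rel_iff hL (Finset.univ : Finset (Fin 2 × Fin 3)) (fun i => z i.1 i.2)
        (fun i => hzpos i.1 i.2) (fun i => hzval i.1 i.2) (fun i => m i.1 * s i.2)).mp (by
          rw [Fintype.sum_prod_type]
          rw [← e3]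
          refine Finset.sum_congr rfl fun j _ => Finset.sum_congr rfl fun q _ => ?_
          push_cast
          ring)
      rw [Fintype.sum_prod_type] at e4
      simp only [Fin.sum_univ_two, Fin.sum_univ_three] at e4
      change (((m 0 * s 0 : ℤ) : ℝ) * Real.log ((1 : ℚ) : ℝ) + ((m 0 * s 1 : ℤ) : ℝ) * Real.log a0 +
        ((m 0 * s 2 : ℤ) : ℝ) * Real.log a1) + (((m 1 * s 0 : ℤ) : ℝ) * Real.log c +
        ((m 1 * s 1 : ℤ) : ℝ) * Real.log r0 + ((m 1 * s 2 : ℤ) : ℝ) * Real.log r1) = 0 at e4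
      push_cast at e4
      rw [Real.log_one] at e4
      linear_combination e4

/-- degenerate case: `log r` is a rational multiple of `log x` -/
theorem degenP : ∃ C : ℝ, 0 < C ∧ ∀ (p : ℕ) [Fact p.Prime]
    (L : PadicAlgCl p → PadicAlgCl p), IsIwasawaLog p L → ∀ H : ℝ, 3 ≤ H → ∀ x y r : ℚ, 0 < x →
    0 < y → 0 < r → padicValRat p x = 0 → padicValRat p y = 0 → padicValRat p r = 0 →
    HtLe H x → HtLe H y → HtLe H r → x ≠ 1 → y ≠ 1 →
    ∀ (m0 m1 : ℤ), m1 ≠ 0 → (m0 : ℝ) * Real.log x + m1 * Real.log r = 0 →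
    Real.exp (-(C * ((p : ℝ) ^ 4 * Real.log H) ^ (9 : ℝ))) <
      ‖L ((x : ℚ) : PadicAlgCl p) * L ((y : ℚ) : PadicAlgCl p) - L ((r : ℚ) : PadicAlgCl p)‖ := by
  obtain ⟨C, hC, hmain⟩ := lindemann (9 / 4) (by norm_num)
  refine ⟨C * 8 + 1, by positivity, ?_⟩
  intro p hp L hL H hH x y r hx hy hr vx vy vr hxH hyH hrH hx1 hy1 m0 m1 hm1 hrel
  have hlog : 1 ≤ Real.log H := by
    rw [Real.le_log_iff_exp_le (by linarith)]
    have := Real.exp_one_lt_d9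
    linarith
  obtain ⟨ell, hell, hv⟩ := exists_val hx hx1
  obtain ⟨v, hvdef⟩ : ∃ v, v = padicValRat ell x := ⟨_, rfl⟩
  obtain ⟨u, hudef⟩ : ∃ u, u = padicValRat ell r := ⟨_, rfl⟩
  have hval := (log2_iff hx hr m0 m1).mp hrel ell hell
  rw [← hvdef, ← hudef] at hval
  rw [← hvdef] at hv
  have hvle : |(v : ℝ)| ≤ 2 * Real.log H := by rw [hvdef]; exact val_le hx hxH ell hell
  have hule : |(u : ℝ)| ≤ 2 * Real.log H := by rw [hudef]; exact val_le hr hrH ell hell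
  obtain ⟨X, hX⟩ : ∃ X, X = L ((x : ℚ) : PadicAlgCl p) := ⟨_, rfl⟩
  obtain ⟨Yl, hYl⟩ : ∃ Y, Y = L ((y : ℚ) : PadicAlgCl p) := ⟨_, rfl⟩
  obtain ⟨R, hR⟩ : ∃ R, R = L ((r : ℚ) : PadicAlgCl p) := ⟨_, rfl⟩
  have hrelL := (rel2_iff hL hx hr vx vr m0 m1).mpr hrel
  rw [← hX, ← hR] at hrelL
  have huv : (u : PadicAlgCl p) * X = v * R := by
    have hvalL : (m0 : PadicAlgCl p) * v + m1 * u = 0 := by exact_mod_cast hval
    have h1 : (m1 : PadicAlgCl p) * (u * X - v * R) = 0 := by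
      linear_combination X * hvalL - (v : PadicAlgCl p) * hrelL
    have := (mul_eq_zero.mp h1).resolve_left (by exact_mod_cast hm1)
    linear_combination this
  have hX0 : X ≠ 0 := fun h => hx1 (ker_pos hL hx vx (by rw [← hX]; exact h))
  have hY0 : Yl ≠ 0 := fun h => hy1 (ker_pos hL hy vy (by rw [← hYl]; exact h))
  obtain ⟨ℓH, hℓH⟩ : ∃ ℓH, ℓH = Real.log H := ⟨_, rfl⟩
  rw [← hℓH] at hlog hvle hule
  -- the height of `y ^ v`
  obtain ⟨H', hH'⟩ : ∃ H', H' = Real.exp (2 * ℓH ^ 2) := ⟨_, rfl⟩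
  have hlogH' : Real.log H' = 2 * ℓH ^ 2 := by rw [hH', Real.log_exp]
  have h2l : 2 ≤ 2 * ℓH ^ 2 := by nlinarith
  have hH'3 : 3 ≤ H' := by
    rw [hH']
    have := Real.add_one_le_exp (2 * ℓH ^ 2)
    linarith
  obtain ⟨A, B, hA0, hB0, hAle, hBle, hAB⟩ := rep_prod (Finset.univ : Finset (Fin 1)) (fun _ => y)
    (fun _ => hy) (fun _ => v) (H := H) (by linarith) (fun _ => hyH) (2 * ℓH) (by simpa using hvle)
  rw [← hℓH] at hAle hBle
  have hyv : (∏ i : Fin 1, y ^ v) = y ^ v := by simp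
  rw [hyv] at hAB
  have hyvH : HtLe H' (y ^ v) := by
    apply htLe_of_div hA0 hB0 _ _ hAB
    · rw [hH']
      refine hAle.trans (Real.exp_le_exp.mpr ?_)
      nlinarith
    · rw [hH']
      refine hBle.trans (Real.exp_le_exp.mpr ?_)
      nlinarith
  have hY0' : ((y : ℚ) : PadicAlgCl p) ≠ 0 := by exact_mod_cast hy.ne'
  have hLyv : L ((y ^ v : ℚ) : PadicAlgCl p) = v * Yl := by
    have e : ((y ^ v : ℚ) : PadicAlgCl p) = ((y : ℚ) : PadicAlgCl p) ^ v := by push_cast; rfl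
    rw [e, hL.zpow hY0', hYl]
  have hvL : (v : PadicAlgCl p) ≠ 0 := by exact_mod_cast hv
  have huH : HtLe H' ((-u : ℤ) : ℚ) := by
    constructor
    · rw [Rat.num_intCast]
      push_cast
      rw [abs_neg]
      refine hule.trans ?_
      rw [hH']
      have := Real.add_one_le_exp (2 * ℓH ^ 2)
      nlinarith
    · rw [Rat.den_intCast]
      push_cast
      linarith
  have h1 := hmain p L hL H' hH'3 (y ^ v) ((-u : ℤ) : ℚ) (zpow_ne_zero _ hy.ne') hyvH huH (by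
      have : (((-u : ℤ) : ℚ) : ℚ_[p]) = ((-u : ℤ) : ℚ_[p]) := by push_cast; rfl
      rw [this]
      exact Padic.norm_int_le_one _) (Or.inl (by
      rw [hLyv]
      exact mul_ne_zero hvL hY0))
  rw [hLyv, hlogH'] at h1
  have e2 : ‖(((((-u : ℤ) : ℚ)) : PadicAlgCl p) + v * Yl)‖ * ‖X‖ = ‖(v : PadicAlgCl p)‖ * ‖X * Yl - R‖ := by
    rw [← norm_mul, ← norm_mul]
    congr 1
    push_cast
    linear_combination -huv
  have hvn : ‖(v : PadicAlgCl p)‖ ≤ 1 := by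
    have h3 : ‖(v : PadicAlgCl p)‖ = ‖((v : ℤ) : ℚ_[p])‖ := by
      rw [← norm_alg, map_intCast]
    rw [h3]
    exact Padic.norm_int_le_one _
  have h4 : Real.exp (-((p : ℝ) ^ 4 * ℓH)) ≤ ‖X‖ := by
    rw [hX, hℓH]
    exact log_lower_gen hL hx.ne' hH hxH (by rw [← hX]; exact hX0)
  rw [← hX, ← hYl, ← hR, ← hℓH]
  obtain ⟨P, hP⟩ : ∃ P : ℝ, P = (p : ℝ) ^ 4 := ⟨_, rfl⟩
  rw [← hP] at h1 h4 ⊢
  have hP1 : 1 ≤ P := by
    rw [hP]
    exact one_le_pow₀ (by exact_mod_cast hp.out.one_lt.le)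
  -- exponents
  have hPl : 1 ≤ P * ℓH := by nlinarith
  have e5 : (P * (2 * ℓH ^ 2)) ^ (9 / 4 : ℝ) ≤ 8 * (P * ℓH) ^ (9 : ℝ) := by
    have e6 : P * (2 * ℓH ^ 2) ≤ 2 * (P * ℓH) ^ 2 := by nlinarith [sq_nonneg ℓH, mul_pos (by linarith : (0:ℝ) < P) (by positivity : (0:ℝ) < ℓH ^ 2)]
    calc (P * (2 * ℓH ^ 2)) ^ (9 / 4 : ℝ) ≤ (2 * (P * ℓH) ^ 2) ^ (9 / 4 : ℝ) :=
          Real.rpow_le_rpow (by positivity) e6 (by norm_num)
      _ = 2 ^ (9 / 4 : ℝ) * ((P * ℓH) ^ 2) ^ (9 / 4 : ℝ) := Real.mul_rpow (by norm_num) (by positivity)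
      _ ≤ 2 ^ (3 : ℝ) * (P * ℓH) ^ (9 : ℝ) := by
          apply mul_le_mul
          · exact Real.rpow_le_rpow_of_exponent_le (by norm_num) (by norm_num)
          · rw [← Real.rpow_natCast, ← Real.rpow_mul (by positivity)]
            exact Real.rpow_le_rpow_of_exponent_le hPl (by norm_num)
          · positivity
          · positivity
      _ = 8 * (P * ℓH) ^ (9 : ℝ) := by norm_num
  have e7 : P * ℓH ≤ (P * ℓH) ^ (9 : ℝ) := by
    calc P * ℓH = (P * ℓH) ^ (1 : ℝ) := (Real.rpow_one _).symm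
      _ ≤ _ := Real.rpow_le_rpow_of_exponent_le hPl (by norm_num)
  calc Real.exp (-((C * 8 + 1) * (P * ℓH) ^ (9 : ℝ))) ≤
        Real.exp (-(C * (P * (2 * ℓH ^ 2)) ^ (9 / 4 : ℝ))) * Real.exp (-(P * ℓH)) := by
        rw [← Real.exp_add]
        apply Real.exp_le_exp.mpr
        nlinarith
    _ < ‖(((((-u : ℤ) : ℚ)) : PadicAlgCl p) + v * Yl)‖ * ‖X‖ :=
        mul_lt_mul h1 h4 (Real.exp_pos _) (norm_nonneg _)
    _ = ‖(v : PadicAlgCl p)‖ * ‖X * Yl - R‖ := e2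
    _ ≤ 1 * ‖X * Yl - R‖ := mul_le_mul_of_nonneg_right hvn (norm_nonneg _)
    _ = _ := one_mul _

/-- **Two bases are dependent.** -/
theorem pair_depP (κ : ℝ) (hκ : 9 < κ) : ∃ C : ℝ, 0 < C ∧ ∀ (p : ℕ) [Fact p.Prime]
    (L : PadicAlgCl p → PadicAlgCl p), IsIwasawaLog p L → ∀ H : ℝ, 3 ≤ H →
    ∀ c a0 a1 r0 r1 : ℚ, 0 < c → c ≠ 1 → 0 < a0 → 0 < a1 → 0 < r0 → 0 < r1 →
    padicValRat p c = 0 → padicValRat p a0 = 0 → padicValRat p a1 = 0 →
    padicValRat p r0 = 0 → padicValRat p r1 = 0 → HtLe H c →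
    HtLe H a0 → HtLe H a1 → HtLe H r0 → HtLe H r1 →
    ‖L ((a0 : ℚ) : PadicAlgCl p) * L ((c : ℚ) : PadicAlgCl p) - L ((r0 : ℚ) : PadicAlgCl p)‖ ≤
      Real.exp (-(C * ((p : ℝ) ^ 4 * Real.log H) ^ κ)) →
    ‖L ((a1 : ℚ) : PadicAlgCl p) * L ((c : ℚ) : PadicAlgCl p) - L ((r1 : ℚ) : PadicAlgCl p)‖ ≤
      Real.exp (-(C * ((p : ℝ) ^ 4 * Real.log H) ^ κ)) →
    ∃ s1 s2 : ℤ, (s1 ≠ 0 ∨ s2 ≠ 0) ∧ (s1 : ℝ) * Real.log a0 + s2 * Real.log a1 = 0 := by
  obtain ⟨C0, hC0, hcore⟩ := coreP κ hκ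
  obtain ⟨C1, hC1, hdeg⟩ := degenP
  refine ⟨C0 + C1, by positivity, ?_⟩
  intro p hp L hL H hH c a0 a1 r0 r1 hc hc1 ha0 ha1 hr0 hr1 vc va0 va1 vr0 vr1 hcH ha0H ha1H hr0H hr1H
    hap0 hap1
  have hlog : 1 ≤ Real.log H := by
    rw [Real.le_log_iff_exp_le (by linarith)]
    have := Real.exp_one_lt_d9
    linarith
  obtain ⟨Y, hY⟩ : ∃ Y, Y = (p : ℝ) ^ 4 * Real.log H := ⟨_, rfl⟩
  have hY1 : 1 ≤ Y := by
    have : (1 : ℝ) ≤ (p : ℝ) ^ 4 := one_le_pow₀ (by exact_mod_cast hp.out.one_lt.le)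
    rw [hY]; nlinarith
  rw [← hY] at hap0 hap1
  have hYκ : 0 < Y ^ κ := Real.rpow_pos_of_pos (by linarith) _
  have hY9 : Y ^ (9 : ℝ) ≤ Y ^ κ := Real.rpow_le_rpow_of_exponent_le hY1 hκ.le
  have hm1 : Real.exp (-((C0 + C1) * Y ^ κ)) ≤ Real.exp (-(C0 * Y ^ κ)) := by
    apply Real.exp_le_exp.mpr
    nlinarith
  have hm2 : Real.exp (-((C0 + C1) * Y ^ κ)) ≤ Real.exp (-(C1 * Y ^ (9 : ℝ))) := by
    apply Real.exp_le_exp.mpr
    nlinarith [mul_le_mul_of_nonneg_left hY9 hC1.le, mul_pos hC0 hYκ]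
  by_contra hcon
  push Not at hcon
  have hind : ∀ s1 s2 : ℤ, (s1 : ℝ) * Real.log a0 + s2 * Real.log a1 = 0 → s1 = 0 ∧ s2 = 0 := by
    intro s1 s2 h
    by_contra hc
    exact hcon s1 s2 (by tauto) h
  have ha0ne : a0 ≠ 1 := by
    intro h
    have := (hind 1 0 (by rw [h]; simp)).1
    omega
  have hcne : Real.log c ≠ 0 := fun h => hc1 (eq_one_of_log hc h)
  rcases hcore p L hL H hH c a0 a1 r0 r1 hc ha0 ha1 hr0 hr1 vc va0 va1 vr0 vr1 hcH ha0H ha1H hr0H hr1H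
    hcne (by rw [← hY]; exact hap0.trans hm1) (by rw [← hY]; exact hap1.trans hm1) hind
    with ⟨m0, m1, hm1', hrel⟩ | ⟨m0, m1, hm1', hrel⟩
  · have := hdeg p L hL H hH a0 c r0 ha0 hc hr0 va0 vc vr0 ha0H hcH hr0H ha0ne hc1 m0 m1 hm1' hrel
    rw [← hY] at this
    exact absurd (this.trans_le (hap0.trans hm2)) (lt_irrefl _)
  · have := hdeg p L hL H hH c a0 r0 hc ha0 hr0 vc va0 vr0 hcH ha0H hr0H hc1 ha0ne m0 m1 hm1' hrel
    rw [← hY, mul_comm (L ((c : ℚ) : PadicAlgCl p))] at this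
    exact absurd (this.trans_le (hap0.trans hm2)) (lt_irrefl _)

/-- **Near products of `p`-adic logarithms.** -/
theorem near_productsP (κ : ℝ) (hκ : 9 < κ) : ∃ C : ℝ, 0 < C ∧ ∀ (p : ℕ) [Fact p.Prime]
    (L : PadicAlgCl p → PadicAlgCl p), IsIwasawaLog p L → ∀ H : ℝ, 3 ≤ H →
    ∀ c : ℚ, 0 < c → padicValRat p c = 0 → HtLe H c → c ≠ 1 → ∀ S : Set (ℚ × ℚ),
    (∀ z ∈ S, (0 < z.1 ∧ padicValRat p z.1 = 0 ∧ HtLe H z.1) ∧
      (0 < z.2 ∧ padicValRat p z.2 = 0 ∧ HtLe H z.2) ∧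
      ‖L ((z.1 : ℚ) : PadicAlgCl p) * L ((c : ℚ) : PadicAlgCl p) - L ((z.2 : ℚ) : PadicAlgCl p)‖ ≤
        Real.exp (-(C * ((p : ℝ) ^ 4 * Real.log H) ^ κ))) →
    (∃ m w : ℚ, 0 < m ∧ 0 < w ∧ ∀ z ∈ S, ∃ k : ℤ, z = (m ^ k, w ^ k)) ∧
    S.Finite ∧ (S.ncard : ℝ) ≤ 2 * (Real.log H / Real.log 2) + 1 := by
  obtain ⟨C0, hC0, hpair⟩ := pair_depP κ hκ
  refine ⟨C0 + 10, by positivity, ?_⟩
  intro p hp L hL H hH c hc vc hcH hc1 S hS
  have hlog : 1 ≤ Real.log H := by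
    rw [Real.le_log_iff_exp_le (by linarith)]
    have := Real.exp_one_lt_d9
    linarith
  obtain ⟨P, hP⟩ : ∃ P, P = (p : ℝ) ^ 4 := ⟨_, rfl⟩
  have hP1 : 1 ≤ P := by rw [hP]; exact one_le_pow₀ (by exact_mod_cast hp.out.one_lt.le)
  obtain ⟨Y, hY⟩ : ∃ Y, Y = P * Real.log H := ⟨_, rfl⟩
  have hY1 : 1 ≤ Y := by rw [hY]; nlinarith
  rw [← hP, ← hY] at hS
  have hYκ : 0 < Y ^ κ := Real.rpow_pos_of_pos (by linarith) _
  have hL2 : Y ^ 2 ≤ Y ^ κ := by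
    rw [← Real.rpow_natCast]
    exact Real.rpow_le_rpow_of_exponent_le hY1 (by push_cast; linarith)
  have hLL : Y ≤ Y ^ 2 := by nlinarith
  have hmono : Real.exp (-((C0 + 10) * Y ^ κ)) ≤ Real.exp (-(C0 * Y ^ κ)) := by
    apply Real.exp_le_exp.mpr
    nlinarith
  -- a number equal to one
  have h1 : ∀ z ∈ S, z.1 = 1 → z.2 = 1 := by
    intro z hz e
    obtain ⟨-, ⟨hz2, vz2, hz2H⟩, h⟩ := hS z hz
    by_contra hne
    have hLne : L ((z.2 : ℚ) : PadicAlgCl p) ≠ 0 := fun h => hne (ker_pos hL hz2 vz2 h)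
    have h4 := log_lower_gen hL hz2.ne' hH hz2H hLne
    have hL1 : L (((1 : ℚ)) : PadicAlgCl p) = 0 := by push_cast; exact hL.one
    rw [e, hL1, zero_mul, zero_sub, norm_neg] at h
    have h5 : Real.exp (-((C0 + 10) * Y ^ κ)) < Real.exp (-(P * Real.log H)) := by
      apply Real.exp_lt_exp.mpr
      rw [← hY]
      nlinarith
    rw [← hP] at h4
    linarith
  have hdep : ∀ z ∈ S, ∀ q ∈ S, ∃ s1 s2 : ℤ, (s1 ≠ 0 ∨ s2 ≠ 0) ∧
      (s1 : ℝ) * Real.log z.1 + s2 * Real.log q.1 = 0 ∧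
      (s1 : ℝ) * Real.log z.2 + s2 * Real.log q.2 = 0 := by
    intro z hz q hq
    obtain ⟨⟨hp1, vp1, hp1H⟩, ⟨hp2, vp2, hp2H⟩, hpn⟩ := hS z hz
    obtain ⟨⟨hq1, vq1, hq1H⟩, ⟨hq2, vq2, hq2H⟩, hqn⟩ := hS q hq
    obtain ⟨s1, s2, hs, hrel⟩ := hpair p L hL H hH c z.1 q.1 z.2 q.2 hc hc1 hp1 hq1 hp2 hq2 vc vp1 vq1
      vp2 vq2 hcH hp1H hq1H hp2H hq2H (by rw [← hP, ← hY]; exact hpn.trans hmono)
      (by rw [← hP, ← hY]; exact hqn.trans hmono)
    obtain ⟨t1, t2, ht, ht1, ht2, hrel2⟩ := small_rel hH hp1 hq1 hp1H hq1H hs hrel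
    refine ⟨t1, t2, ht, hrel2, ?_⟩
    by_contra hne
    have hrelL := (rel2_iff hL hp1 hq1 vp1 vq1 t1 t2).mpr hrel2
    have hneL : (t1 : PadicAlgCl p) * L ((z.2 : ℚ) : PadicAlgCl p) +
        (t2 : PadicAlgCl p) * L ((q.2 : ℚ) : PadicAlgCl p) ≠ 0 := fun h =>
      hne ((rel2_iff hL hp2 hq2 vp2 vq2 t1 t2).mp h)
    -- the number `W = z.2 ^ t1 * q.2 ^ t2`
    obtain ⟨A, B, hA0, hB0, hAle, hBle, hAB⟩ := rep_prod (Finset.univ : Finset (Fin 2))
      ![z.2, q.2] (by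
        intro i; fin_cases i
        · exact hp2
        · exact hq2) ![t1, t2] (H := H) (by linarith) (by
        intro i; fin_cases i
        · exact hp2H
        · exact hq2H) (4 * Real.log H) (by
          simp only [Fin.sum_univ_two, Matrix.cons_val_zero, Matrix.cons_val_one]
          linarith)
    obtain ⟨W, hW⟩ : ∃ W : ℚ, W = ∏ i : Fin 2, (![z.2, q.2] : Fin 2 → ℚ) i ^ (![t1, t2] : Fin 2 → ℤ) i :=
      ⟨_, rfl⟩
    rw [← hW] at hAB
    have hLW : L ((W : ℚ) : PadicAlgCl p) = (t1 : PadicAlgCl p) * L ((z.2 : ℚ) : PadicAlgCl p) +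
        (t2 : PadicAlgCl p) * L ((q.2 : ℚ) : PadicAlgCl p) := by
      rw [hW, log_prodL hL (Finset.univ : Finset (Fin 2)) ![z.2, q.2] (by
        intro i; fin_cases i
        · exact hp2
        · exact hq2) ![t1, t2]]
      simp [Fin.sum_univ_two]
    have hWne : W ≠ 0 := by
      rw [hAB]
      have h1 : (A : ℚ) ≠ 0 := by exact_mod_cast hA0.ne'
      have h2 : (B : ℚ) ≠ 0 := by exact_mod_cast hB0.ne'
      exact div_ne_zero h1 h2
    have hWH : HtLe (Real.exp (4 * Real.log H * Real.log H)) W := htLe_of_div hA0 hB0 hAle hBle hAB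
    have h4l : 4 ≤ 4 * Real.log H * Real.log H := by nlinarith
    have h5 := log_lower_gen hL hWne (H := Real.exp (4 * Real.log H * Real.log H)) (by
      have := Real.add_one_le_exp (4 * Real.log H * Real.log H)
      linarith) hWH (by rw [hLW]; exact hneL)
    rw [Real.log_exp, hLW, ← hP] at h5
    have h6 : ‖(t1 : PadicAlgCl p) * L ((z.2 : ℚ) : PadicAlgCl p) +
        (t2 : PadicAlgCl p) * L ((q.2 : ℚ) : PadicAlgCl p)‖ ≤ Real.exp (-((C0 + 10) * Y ^ κ)) := by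
      have e : (t1 : PadicAlgCl p) * L ((z.2 : ℚ) : PadicAlgCl p) +
          (t2 : PadicAlgCl p) * L ((q.2 : ℚ) : PadicAlgCl p) =
          -((t1 : PadicAlgCl p) * (L ((z.1 : ℚ) : PadicAlgCl p) * L ((c : ℚ) : PadicAlgCl p) -
            L ((z.2 : ℚ) : PadicAlgCl p))) +
            -((t2 : PadicAlgCl p) * (L ((q.1 : ℚ) : PadicAlgCl p) * L ((c : ℚ) : PadicAlgCl p) -
            L ((q.2 : ℚ) : PadicAlgCl p))) := by
        linear_combination L ((c : ℚ) : PadicAlgCl p) * hrelL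
      have hint : ∀ t : ℤ, ‖(t : PadicAlgCl p)‖ ≤ 1 := by
        intro t
        have h3 : ‖(t : PadicAlgCl p)‖ = ‖((t : ℤ) : ℚ_[p])‖ := by
          rw [← norm_alg, map_intCast]
        rw [h3]
        exact Padic.norm_int_le_one _
      rw [e]
      refine (IsUltrametricDist.norm_add_le_max _ _).trans (max_le ?_ ?_)
      · rw [norm_neg, norm_mul]
        calc _ ≤ 1 * Real.exp (-((C0 + 10) * Y ^ κ)) :=
              mul_le_mul (hint t1) hpn (norm_nonneg _) zero_le_one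
          _ = _ := one_mul _
      · rw [norm_neg, norm_mul]
        calc _ ≤ 1 * Real.exp (-((C0 + 10) * Y ^ κ)) :=
              mul_le_mul (hint t2) hqn (norm_nonneg _) zero_le_one
          _ = _ := one_mul _
    have h7 : Real.exp (-((C0 + 10) * Y ^ κ)) < Real.exp (-(P * (4 * Real.log H * Real.log H))) := by
      apply Real.exp_lt_exp.mpr
      have e8 : P * (4 * Real.log H * Real.log H) ≤ 4 * Y ^ 2 := by
        have : Y ^ 2 = P ^ 2 * (Real.log H * Real.log H) := by rw [hY]; ring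
        rw [this]
        have hll : 0 ≤ Real.log H * Real.log H := by positivity
        have hPP : P ≤ P ^ 2 := by nlinarith
        nlinarith
      nlinarith
    linarith
  obtain ⟨m, w, hm, hw, h⟩ := struct S (fun z hz => ⟨(hS z hz).1.1, (hS z hz).2.1.1⟩) hdep h1
  exact ⟨⟨m, w, hm, hw, h⟩, count_pairs hH S (fun z hz => (hS z hz).1.2.2) h1 m w hm h⟩

end Pool.Agent.L0h53.PQ
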