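import Mathlib
import Pool.Agent.L0h53.PQ.Core
import Pool.Agent.L0h53.PQ.Ker
import Pool.Agent.L0h53.RK.Struct

set_option autoImplicit false

/-! Matrices of linear forms in `p`-adic logarithms: half of the structural rank. -/

namespace Pool.Agent.L0h53.PQ

open Finset Module Pool.Agent.W245.PB Pool.Agent.L0h53.NP Pool.Agent.L0h39.QA
  Pool.Agent.L0h53.RK Pool.Agent.L0h53.PS

/-- the entries of the matrix -/
theorem zm_pos {n d : ℕ} (M : Fin n → Fin d → Fin d → ℤ) {z : Fin n → ℚ} (hz : ∀ i, 0 < z i)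
    (j q : Fin d) : 0 < zm M z j q := Finset.prod_pos fun i _ => zpow_pos (hz i) _

theorem zm_htLe {n d : ℕ} {M : Fin n → Fin d → Fin d → ℤ} {m : ℕ}
    (hm : ∀ j p, ∑ i, (M i j p).natAbs ≤ m) {z : Fin n → ℚ} (hz : ∀ i, 0 < z i) {H : ℝ}
    (hH : 1 ≤ H) (hzH : ∀ i, HtLe H (z i)) (j q : Fin d) : HtLe (H ^ m) (zm M z j q) := by
  obtain ⟨A, B, hA0, hB0, hA, hB, hAB⟩ := rep_prod Finset.univ z hz (fun i => M i j q) hH hzH
    (m : ℝ) (by
      calc ∑ i, |((M i j q : ℤ) : ℝ)| = ((∑ i, (M i j q).natAbs : ℕ) : ℝ) := by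
            push_cast
            refine Finset.sum_congr rfl fun i _ => ?_
            rw [Nat.cast_natAbs, Int.cast_abs]
        _ ≤ m := by exact_mod_cast hm j q)
  have e : Real.exp ((m : ℝ) * Real.log H) = H ^ m := by
    rw [Real.exp_nat_mul, Real.exp_log (by linarith)]
  rw [e] at hA hB
  exact htLe_of_div hA0 hB0 hA hB hAB

theorem zm_log {p : ℕ} [Fact p.Prime] {L : PadicAlgCl p → PadicAlgCl p} (hL : IsIwasawaLog p L)
    {n d : ℕ} (M : Fin n → Fin d → Fin d → ℤ) {z : Fin n → ℚ} (hz : ∀ i, 0 < z i) (j q : Fin d) :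
    L ((zm M z j q : ℚ) : PadicAlgCl p) =
      ∑ i, (M i j q : PadicAlgCl p) * L ((z i : ℚ) : PadicAlgCl p) :=
  log_prodL hL Finset.univ z hz (fun i => M i j q)

theorem rel_log {p : ℕ} [Fact p.Prime] {L : PadicAlgCl p → PadicAlgCl p} (hL : IsIwasawaLog p L)
    {n d : ℕ} (M : Fin n → Fin d → Fin d → ℤ) {z : Fin n → ℚ} (hz : ∀ i, 0 < z i)
    (m s : Fin d → ℤ) :
    ∑ j, ∑ q, (m j : PadicAlgCl p) * (s q : PadicAlgCl p) * L ((zm M z j q : ℚ) : PadicAlgCl p) =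
      ∑ i, (ex M m s i : PadicAlgCl p) * L ((z i : ℚ) : PadicAlgCl p) := by
  simp only [zm_log hL M hz]
  have h1 : ∑ i, (ex M m s i : PadicAlgCl p) * L ((z i : ℚ) : PadicAlgCl p) =
      ∑ j, ∑ q, ∑ i, ((m j * s q * M i j q : ℤ) : PadicAlgCl p) * L ((z i : ℚ) : PadicAlgCl p) := by
    have h2 : ∀ i, (ex M m s i : PadicAlgCl p) * L ((z i : ℚ) : PadicAlgCl p) =
        ∑ j, ∑ q, ((m j * s q * M i j q : ℤ) : PadicAlgCl p) * L ((z i : ℚ) : PadicAlgCl p) := by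
      intro i
      unfold Pool.Agent.L0h53.RK.ex
      push_cast
      simp only [Finset.sum_mul]
    simp only [h2]
    rw [Finset.sum_comm]
    refine Finset.sum_congr rfl fun j _ => ?_
    rw [Finset.sum_comm]
  rw [h1]
  refine Finset.sum_congr rfl fun j _ => Finset.sum_congr rfl fun q _ => ?_
  rw [Finset.mul_sum]
  refine Finset.sum_congr rfl fun i _ => ?_
  push_cast
  ring

theorem scale_p {m : ℕ} {κ : ℝ} {C : ℝ} {p : ℕ} {H : ℝ} (hH : 3 ≤ H) :
    C * ((p : ℝ) ^ 4 * Real.log (H ^ m)) ^ κ =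
      (C * (m : ℝ) ^ κ) * ((p : ℝ) ^ 4 * Real.log H) ^ κ := by
  have hlog : 0 ≤ Real.log H := Real.log_nonneg (by linarith)
  have hp : 0 ≤ (p : ℝ) ^ 4 := by positivity
  rw [Real.log_pow, show (p : ℝ) ^ 4 * ((m : ℝ) * Real.log H) = (m : ℝ) * ((p : ℝ) ^ 4 * Real.log H)
    by ring, Real.mul_rpow (Nat.cast_nonneg _) (by positivity)]
  ring

/-- **Half of the structural rank: linear forms in `p`-adic logarithms.** -/
theorem half_pure_p (n d r : ℕ) (h : 2 * r < d) (M : Fin n → Fin d → Fin d → ℤ)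
    (hM : Matrix.det (Matrix.of fun j p : Fin d => (
      ∑ i, MvPolynomial.C (M i j p) * MvPolynomial.X i : MvPolynomial (Fin n) ℤ)) ≠ 0) (κ' : ℝ)
    (hκ : (d : ℝ) / (d - 2 * r) < κ') :
    ∃ C : ℝ, 0 < C ∧ ∀ (p : ℕ) [Fact p.Prime] (L : PadicAlgCl p → PadicAlgCl p),
      IsIwasawaLog p L → ∀ H : ℝ, 3 ≤ H → ∀ (z : Fin n → ℚ),
      (∀ i, 0 < z i) → (∀ i, HtLe H (z i)) →
      (∀ (e : Fin (r + 1) → Fin d) (f : Fin (r + 1) → Fin d),
        ‖((Matrix.of fun j q => ∑ i, (M i j q : PadicAlgCl p) *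
          L ((z i : ℚ) : PadicAlgCl p)).submatrix e f).det‖ ≤
          Real.exp (-(C * ((p : ℝ) ^ 4 * Real.log H) ^ κ'))) →
      ∃ t : Fin n → ℤ, t ≠ 0 ∧ ∑ i, (t i : PadicAlgCl p) * L ((z i : ℚ) : PadicAlgCl p) = 0 := by
  obtain ⟨m0, hm1, hm0⟩ := exists_size M
  obtain ⟨x, hx⟩ := exists_point M 0 (by simpa using hM)
  have hd0 : 0 < d := by omega
  have hdR : (0 : ℝ) < d := by exact_mod_cast hd0
  have hdr : (0 : ℝ) < d - 2 * r := by
    have : ((2 * r : ℕ) : ℝ) < d := by exact_mod_cast h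
    push_cast at this
    linarith
  have h' : r * (d + d) < d * d := by nlinarith
  obtain ⟨κ'', hκ1, hκ2⟩ := exists_between hκ
  obtain ⟨a, σ, μ, ha, hcount, hμ, hr⟩ := params_pure d d r h' κ'' (by
    refine lt_of_le_of_lt (le_of_eq ?_) hκ1
    rw [div_eq_div_iff (by nlinarith) hdr.ne']
    ring)
  obtain ⟨C, hC, hmain⟩ := core_p 0 d d r (fun i _ => i.elim0) (μ + σ) μ σ (μ + σ + a - 1) a
    rfl (by omega) ha (by
      have : σ + μ + a = μ + σ + a := by ring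
      rw [← this]
      simpa using hcount) κ'' κ' (by
      have : σ + μ + a = μ + σ + a := by ring
      rw [← this]; exact hr) hκ2
  refine ⟨C * (m0 : ℝ) ^ κ', by positivity, ?_⟩
  intro p hp L hL H hH z hz0 hzH hminor
  have hH1 : 1 ≤ H := by linarith
  have hHm : 3 ≤ H ^ m0 := by
    calc (3 : ℝ) ≤ H := hH
      _ = H ^ 1 := (pow_one H).symm
      _ ≤ H ^ m0 := pow_le_pow_right₀ hH1 hm1
  obtain ⟨Af, Rm, W0, G0, q1, -, q3, q4⟩ := hmain p L hL (H ^ m0) hHm (zm M z)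
    (fun i _ => i.elim0) (fun j q => (zm_pos M hz0 j q).ne') (zm_htLe hm0 hz0 hH1 hzH)
    (fun i _ => i.elim0) (fun i _ => i.elim0) (by
      intro e f
      rw [scale_p hH]
      refine le_trans (le_of_eq ?_) (hminor e f)
      congr 2
      ext j q
      simp [zm_log hL M hz0])
  have hAf : Af = ⊥ := Subsingleton.elim _ _
  have hAf0 : finrank ℂ Af = 0 := by rw [hAf, finrank_bot]
  have hRm : Rm ≠ ⊥ := fun h => q1 ⟨hAf, h⟩
  by_contra hcon
  push Not at hcon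
  -- the two spaces
  let U : Submodule ℂ (Fin d → ℂ) := Submodule.span ℂ (vc '' (Rm : Set (Fin d → ℤ)))
  let V : Submodule ℂ (Fin d → ℂ) := Submodule.span ℂ (vc '' (G0 : Set (Fin d → ℤ)))
  have hzero : ∀ m ∈ Rm, ∀ s ∈ G0, ∀ i, ex M m s i = 0 := by
    intro m hm s hs
    by_contra hne
    push Not at hne
    obtain ⟨i, hi⟩ := hne
    refine hcon (ex M m s) (fun h0 => hi (congrFun h0 i)) ?_
    rw [← rel_log hL M hz0 m s]
    exact ((q3 s).mp hs).2 m hm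
  have hUV : finrank ℂ U + finrank ℂ V ≤ d := by
    apply block_le _ hx
    intro u hu c hc
    have h1 : ∀ i, bil (M i) u c = 0 := by
      intro i
      refine bil_span (S := vc '' (Rm : Set (Fin d → ℤ))) (T := vc '' (G0 : Set (Fin d → ℤ)))
        ?_ u hu c hc
      rintro _ ⟨m, hm, rfl⟩ _ ⟨s, hs, rfl⟩
      rw [bil_vc, hzero m hm s hs i, Int.cast_zero]
    rw [bil_point]
    simp only [h1, mul_zero, Finset.sum_const_zero, add_zero]
    rw [bil_apply]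
    simp
  have hRU : finrank ℤ Rm ≤ finrank ℂ U := rank_cast Rm U fun m hm =>
    Submodule.subset_span ⟨m, hm, rfl⟩
  have hGV : finrank ℤ G0 ≤ finrank ℂ V := rank_cast G0 V fun m hm =>
    Submodule.subset_span ⟨m, hm, rfl⟩
  have hR1 : 1 ≤ finrank ℤ Rm := by
    by_contra hc
    exact hRm (Pool.Agent.L0h39.QA.eq_bot_of_rank Rm (by omega))
  rw [hAf0, zero_mul, Nat.zero_sub, zero_mul] at q4
  obtain ⟨g, hg⟩ : ∃ g, g = finrank ℤ G0 := ⟨_, rfl⟩
  obtain ⟨ρ, hρ⟩ : ∃ ρ, ρ = finrank ℤ Rm := ⟨_, rfl⟩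
  rw [← hg, ← hρ] at q4
  rw [← hρ] at hR1 hRU
  rw [← hg] at hGV
  obtain ⟨f, hf⟩ : ∃ f, d - g = f := ⟨_, rfl⟩
  rw [hf] at q4
  have h1 : ρ ≤ f := by omega
  have h2 : f * σ ≤ ρ * μ := by simpa using q4
  have h3 : ρ * μ ≤ f * μ := Nat.mul_le_mul_right _ h1
  have h4 : f * σ ≤ f * μ := h2.trans h3
  have h5 : σ ≤ μ := Nat.le_of_mul_le_mul_left h4 (by omega)
  have h6 : d * σ ≤ d * μ := Nat.mul_le_mul_left _ h5
  omega

/-- **Half of the structural rank: sums of integers and linear forms in `p`-adic logarithms.** -/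
theorem half_strong_p (n d r : ℕ) (h : 2 * r < d) (M : Fin n → Fin d → Fin d → ℤ)
    (M₀ : Fin d → Fin d → ℤ)
    (hM : Matrix.det (Matrix.of fun j p : Fin d => (MvPolynomial.C (M₀ j p) +
      ∑ i, MvPolynomial.C (M i j p) * MvPolynomial.X i : MvPolynomial (Fin n) ℤ)) ≠ 0) (κ' : ℝ)
    (hκ : (2 * d : ℝ) / (d - 2 * r) < κ') :
    ∃ C : ℝ, 0 < C ∧ ∀ (p : ℕ) [Fact p.Prime] (L : PadicAlgCl p → PadicAlgCl p),
      IsIwasawaLog p L → ∀ H : ℝ, 3 ≤ H → ∀ (z : Fin n → ℚ),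
      (∀ i, 0 < z i) → (∀ i, HtLe H (z i)) →
      (∀ (e : Fin (r + 1) → Fin d) (f : Fin (r + 1) → Fin d),
        ‖((Matrix.of fun j q => (M₀ j q : PadicAlgCl p) + ∑ i, (M i j q : PadicAlgCl p) *
          L ((z i : ℚ) : PadicAlgCl p)).submatrix e f).det‖ ≤
          Real.exp (-(C * ((p : ℝ) ^ 4 * Real.log H) ^ κ'))) →
      ∃ t : Fin n → ℤ, t ≠ 0 ∧ ∑ i, (t i : PadicAlgCl p) * L ((z i : ℚ) : PadicAlgCl p) = 0 := by
  classical
  obtain ⟨m1, hm11, hm10⟩ := exists_size M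
  obtain ⟨x, hx⟩ := exists_point M M₀ hM
  obtain ⟨B, hB⟩ : ∃ B : ℕ, ∀ j p, (M₀ j p).natAbs ≤ B := by
    refine ⟨∑ ij : Fin d × Fin d, (M₀ ij.1 ij.2).natAbs, fun j p => ?_⟩
    exact Finset.single_le_sum (f := fun ij : Fin d × Fin d => (M₀ ij.1 ij.2).natAbs)
      (fun _ _ => Nat.zero_le _) (Finset.mem_univ (j, p))
  obtain ⟨m0, hm0e⟩ : ∃ m0, m0 = m1 + B := ⟨_, rfl⟩
  have hm1 : 1 ≤ m0 := by omega
  have hm0 : ∀ j p, ∑ i, (M i j p).natAbs ≤ m0 := fun j p => (hm10 j p).trans (by omega)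
  have hd0 : 0 < d := by omega
  have hdR : (0 : ℝ) < d := by exact_mod_cast hd0
  have hdr : (0 : ℝ) < d - 2 * r := by
    have : ((2 * r : ℕ) : ℝ) < d := by exact_mod_cast h
    push_cast at this
    linarith
  have h' : r * (d + d) < d * d := by nlinarith
  obtain ⟨κ'', hκ1, hκ2⟩ := exists_between hκ
  obtain ⟨a, σ, μ, ha, hσ, hcount, hμ, hr⟩ := params_strong d d r h' κ'' (by
    refine lt_of_le_of_lt (le_of_eq ?_) hκ1
    rw [div_eq_div_iff (by nlinarith) hdr.ne']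
    ring)
  let γ : Fin d → Fin d → ℤ := fun i j => if i = j then -1 else 0
  have hγ : ∀ (c : Fin d → ℂ) j, ∑ i, c i * ((γ i j : ℤ) : ℂ) = - c j := by
    intro c j
    rw [Finset.sum_eq_single j]
    · simp [γ]
    · intro i _ hij; simp [γ, hij]
    · intro h; exact absurd (Finset.mem_univ _) h
  obtain ⟨C, hC, hmain⟩ := core_p d d d r γ (μ + σ) μ σ (μ + σ + a - 1) a
    rfl (by omega) (by omega) (by
      have : σ + μ + a = μ + σ + a := by ring
      rw [← this, show μ + σ = σ + μ by ring]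
      exact hcount) κ'' κ' (by
      have : σ + μ + a = μ + σ + a := by ring
      rw [← this]; exact hr) hκ2
  refine ⟨C * (m0 : ℝ) ^ κ', by positivity, ?_⟩
  intro p hp L hL H hH z hz0 hzH hminor
  have hH1 : 1 ≤ H := by linarith
  have hHm : 3 ≤ H ^ m0 := by
    calc (3 : ℝ) ≤ H := hH
      _ = H ^ 1 := (pow_one H).symm
      _ ≤ H ^ m0 := pow_le_pow_right₀ hH1 hm1
  have hBH : (B : ℝ) ≤ H ^ m0 := by
    have h1 : B < 3 ^ B := Nat.lt_pow_self (by norm_num)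
    calc (B : ℝ) ≤ ((3 ^ B : ℕ) : ℝ) := by exact_mod_cast h1.le
      _ = (3 : ℝ) ^ B := by push_cast; ring
      _ ≤ H ^ B := pow_le_pow_left₀ (by norm_num) hH _
      _ ≤ H ^ m0 := pow_le_pow_right₀ hH1 (by omega)
  obtain ⟨Af, Rm, W0, G0, q1, q2, q3, q4⟩ := hmain p L hL (H ^ m0) hHm (zm M z)
    (fun i q => ((M₀ i q : ℤ) : ℚ)) (fun j q => (zm_pos M hz0 j q).ne')
    (zm_htLe hm0 hz0 hH1 hzH)
    (fun i q => by
      refine ⟨?_, ?_⟩
      · rw [Rat.num_intCast, ← Int.cast_abs, Int.abs_eq_natAbs]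
        refine le_trans ?_ hBH
        exact_mod_cast hB i q
      · rw [Rat.den_intCast]
        push_cast
        linarith)
    (fun i q => by
      rw [Rat.cast_intCast]
      exact Padic.norm_int_le_one _)
    (by
      intro e f
      rw [scale_p hH]
      refine le_trans (le_of_eq ?_) (hminor e f)
      congr 2
      ext j q
      change L ((zm M z (e j) (f q) : ℚ) : PadicAlgCl p) - ∑ i, ((γ i (e j) : ℤ) : PadicAlgCl p) *
        ((((M₀ i (f q) : ℤ) : ℚ)) : PadicAlgCl p) = (M₀ (e j) (f q) : PadicAlgCl p) +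
          ∑ i, (M i (e j) (f q) : PadicAlgCl p) * L ((z i : ℚ) : PadicAlgCl p)
      rw [zm_log hL M hz0, Finset.sum_eq_single (e j)]
      · simp only [γ, if_pos]
        push_cast
        ring
      · intro i _ hij; simp [γ, hij]
      · intro h; exact absurd (Finset.mem_univ _) h)
  by_contra hcon
  push Not at hcon
  -- the spaces
  let R : Submodule ℂ (Fin d → ℂ) := Submodule.span ℂ (vc '' (Rm : Set (Fin d → ℤ)))
  let V : Submodule ℂ (Fin d → ℂ) := Submodule.span ℂ (vc '' (G0 : Set (Fin d → ℤ)))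
  have hzero : ∀ m ∈ Rm, ∀ s ∈ G0, ∀ i, ex M m s i = 0 := by
    intro m hm s hs
    by_contra hne
    push Not at hne
    obtain ⟨i, hi⟩ := hne
    refine hcon (ex M m s) (fun h0 => hi (congrFun h0 i)) ?_
    rw [← rel_log hL M hz0 m s]
    exact ((q3 s).mp hs).2 m hm
  have hIV : finrank ℂ (Af ⊓ R : Submodule ℂ (Fin d → ℂ)) + finrank ℂ V ≤ d := by
    apply block_le _ hx
    intro u hu c hc
    obtain ⟨hu1, hu2⟩ := Submodule.mem_inf.mp hu
    have h1 : ∀ i, bil (M i) u c = 0 := by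
      intro i
      refine bil_span (S := vc '' (Rm : Set (Fin d → ℤ))) (T := vc '' (G0 : Set (Fin d → ℤ)))
        ?_ u hu2 c hc
      rintro _ ⟨m, hm, rfl⟩ _ ⟨s, hs, rfl⟩
      rw [bil_vc, hzero m hm s hs i, Int.cast_zero]
    have h2 : bil M₀ u c = 0 := by
      refine bil_span (S := (Af : Set (Fin d → ℂ))) (T := vc '' (G0 : Set (Fin d → ℤ)))
        ?_ u (Submodule.subset_span hu1) c hc
      rintro b hb _ ⟨s, hs, rfl⟩
      rw [← ((q3 s).mp hs).1 b hb, bil_apply]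
      refine Finset.sum_congr rfl fun j _ => ?_
      rw [Finset.mul_sum]
      exact Finset.sum_congr rfl fun p _ => by
        rw [Rat.cast_intCast]
        unfold vc
        ring
    rw [bil_point, h2]
    simp only [h1, mul_zero, Finset.sum_const_zero, add_zero]
  have hRR : finrank ℤ Rm ≤ finrank ℂ R := rank_cast Rm R fun m hm =>
    Submodule.subset_span ⟨m, hm, rfl⟩
  have hGV : finrank ℤ G0 ≤ finrank ℂ V := rank_cast G0 V fun m hm =>
    Submodule.subset_span ⟨m, hm, rfl⟩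
  have hW : ∀ u ∈ Af ⊔ R, ∀ c ∈ W0, ∑ i, u i * c i = 0 := by
    intro u hu c hc
    obtain ⟨h1, h2⟩ := (q2 c).mp hc
    let f : (Fin d → ℂ) →ₗ[ℂ] ℂ :=
      { toFun := fun u => ∑ i, u i * c i
        map_add' := fun x y => by simp [add_mul, Finset.sum_add_distrib]
        map_smul' := fun b x => by simp [Finset.mul_sum, mul_assoc] }
    have hU : Af ⊔ R ≤ LinearMap.ker f := by
      apply sup_le
      · intro b hb
        exact h1 b hb
      · rw [Submodule.span_le]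
        rintro _ ⟨m, hm, rfl⟩
        have h3 := h2 m hm
        simp only [hγ] at h3
        change ∑ i, ((m i : ℤ) : ℂ) * c i = 0
        have h4 : ∑ j, ((m j : ℤ) : ℂ) * -c j = -∑ j, ((m j : ℤ) : ℂ) * c j := by
          rw [← Finset.sum_neg_distrib]
          exact Finset.sum_congr rfl fun i _ => by ring
        rw [h4] at h3
        exact neg_eq_zero.mp h3
    exact hU hu
  have hUW := pair_le _ W0 hW
  have hsum := Submodule.finrank_sup_add_finrank_inf_eq Af R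
  have hIU : finrank ℂ (Af ⊓ R : Submodule ℂ (Fin d → ℂ)) ≤
      finrank ℂ (Af ⊔ R : Submodule ℂ (Fin d → ℂ)) :=
    Submodule.finrank_mono (inf_le_left.trans le_sup_left)
  have hIR : finrank ℂ (Af ⊓ R : Submodule ℂ (Fin d → ℂ)) ≤ finrank ℂ R :=
    Submodule.finrank_mono inf_le_right
  obtain ⟨e, he⟩ : ∃ e, e = finrank ℂ (Af ⊔ R : Submodule ℂ (Fin d → ℂ)) := ⟨_, rfl⟩
  obtain ⟨i, hi⟩ : ∃ i, i = finrank ℂ (Af ⊓ R : Submodule ℂ (Fin d → ℂ)) := ⟨_, rfl⟩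
  obtain ⟨A, hA⟩ : ∃ A, A = finrank ℂ Af := ⟨_, rfl⟩
  obtain ⟨ρ, hρ⟩ : ∃ ρ, ρ = finrank ℤ Rm := ⟨_, rfl⟩
  obtain ⟨ρ', hρ'⟩ : ∃ ρ', ρ' = finrank ℂ R := ⟨_, rfl⟩
  obtain ⟨g, hg⟩ : ∃ g, g = finrank ℤ G0 := ⟨_, rfl⟩
  obtain ⟨v, hv⟩ : ∃ v, v = finrank ℂ V := ⟨_, rfl⟩
  obtain ⟨W, hWd⟩ : ∃ W, W = finrank ℂ W0 := ⟨_, rfl⟩
  rw [← hi, ← hv] at hIV
  rw [← hρ, ← hρ'] at hRR
  rw [← hg, ← hv] at hGV
  rw [← he, ← hWd] at hUW
  rw [← he, ← hi, ← hA, ← hρ'] at hsum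
  rw [← hi, ← he] at hIU
  rw [← hi, ← hρ'] at hIR
  rw [← hWd, ← hg, ← hA, ← hρ] at q4
  have p1 : e * (μ + σ + a - 1) ≤ (d - W) * (μ + σ + a - 1) := Nat.mul_le_mul_right _ (by omega)
  have p2 : ρ * μ ≤ ρ' * μ := Nat.mul_le_mul_right _ hRR
  have p3 : e * (μ + σ + a - 1) = e * (μ + σ) + e * (a - 1) := by
    rw [← Nat.mul_add]
    congr 1
    omega
  have p4 : i * σ ≤ (d - g) * σ := Nat.mul_le_mul_right _ (by omega)
  have p5 : i * σ ≤ ρ' * σ := Nat.mul_le_mul_right _ hIR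
  have p6 : i * (a - 1) ≤ e * (a - 1) := Nat.mul_le_mul_right _ hIU
  have p7 : (A + ρ') * (μ + σ) = (e + i) * (μ + σ) := by rw [hsum]
  have p8 : (A + ρ') * (μ + σ) = A * (μ + σ) + ρ' * μ + ρ' * σ := by ring
  have p9 : (e + i) * (μ + σ) = e * (μ + σ) + i * μ + i * σ := by ring
  have key : e * (a - 1) + (d - g) * σ + ρ' * σ ≤ i * μ + i * σ := by omega
  rcases Nat.eq_zero_or_pos i with hi0 | hi0
  · rw [hi0, zero_mul, zero_mul, add_zero] at key
    have k1 : e * (a - 1) = 0 := by omega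
    have k2 : e = 0 := by
      rcases Nat.mul_eq_zero.mp k1 with h1 | h1
      · exact h1
      · omega
    have k3 : ρ' * σ = 0 := by omega
    have k4 : ρ' = 0 := by
      rcases Nat.mul_eq_zero.mp k3 with h1 | h1
      · exact h1
      · omega
    refine q1 ⟨?_, Pool.Agent.L0h39.QA.eq_bot_of_rank Rm (by omega)⟩
    apply Submodule.finrank_eq_zero.mp
    omega
  · have k1 : i * ((a - 1) + σ) ≤ i * μ := by
      have : i * ((a - 1) + σ) = i * (a - 1) + i * σ := by ring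
      omega
    have k2 : (a - 1) + σ ≤ μ := Nat.le_of_mul_le_mul_left k1 hi0
    have k3 : d * (σ + a) ≤ d * (μ + 1) := Nat.mul_le_mul_left _ (by omega)
    have k4 : d * (σ + a) = d * σ + d * a := by ring
    have k5 : d * (μ + 1) = d * μ + d := by ring
    omega

end Pool.Agent.L0h53.PQ
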